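import Pool.Agent.BVM.Defs

/-!
# The internal statement: a star-Hurewicz Psi-space of cardinality at least b

All notions are the usual set-theoretic ones, relativised to a structure `(M, E)` for the language of set
theory (to be used in models of ZFC).
-/

set_option autoImplicit false

namespace Pool.Agent.StarHur

variable {M : Type*} (E : M → M → Prop)

/-- `z = {a, b}` -/
def IsUPair (a b z : M) : Prop := ∀ t, E t z ↔ t = a ∨ t = b

/-- `p` is the (Kuratowski) ordered pair `(a, b) = {{a}, {a, b}}`. -/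
def IsPair (a b p : M) : Prop := ∀ z, E z p ↔ IsUPair E a a z ∨ IsUPair E a b z

/-- `(a, b) ∈ R` -/
def PairMem (a b R : M) : Prop := ∃ p, IsPair E a b p ∧ E p R

/-- `x` is inductive: it contains the empty set and is closed under `t ↦ t ∪ {t}`. -/
def IsInductive (x : M) : Prop :=
  (∃ e, E e x ∧ ∀ z, ¬ E z e) ∧ ∀ t, E t x → ∃ s, E s x ∧ ∀ z, E z s ↔ E z t ∨ z = t

/-- `w` is the set of natural numbers (the least inductive set). -/
def IsOmega (w : M) : Prop := IsInductive E w ∧ ∀ x, IsInductive E x → ∀ t, E t w → E t x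

/-- `f` is a function from `X` to `Y` (a set of ordered pairs). -/
def IsFun (f X Y : M) : Prop :=
  (∀ p, E p f → ∃ x, E x X ∧ ∃ y, E y Y ∧ IsPair E x y p) ∧
  ∀ x, E x X → ∃ y, PairMem E x y f ∧ ∀ y', PairMem E x y' f → y' = y

/-- `x` is finite: it is contained in the image of a natural number `m` under a functional relation. -/
def IsFinite (w x : M) : Prop :=
  ∃ m, E m w ∧ ∃ g, (∀ k y z, PairMem E k y g → PairMem E k z g → y = z) ∧
    ∀ t, E t x → ∃ k, E k m ∧ PairMem E k t g

/-- `A` is an almost disjoint family of infinite subsets of `w` (`w` is the set of natural numbers). -/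
def IsADFamily (w A : M) : Prop :=
  (∀ a, E a A → (∀ k, E k a → E k w) ∧ ∀ n, E n w → ∃ k, E k a ∧ ¬ E k n) ∧
  ∀ a b, E a A → E b A → a ≠ b → ∃ n, E n w ∧ ∀ k, E k a → E k b → E k n

/-- `D` is a family of functions `w → w` which is unbounded under eventual domination. -/
def IsUnbounded (w D : M) : Prop :=
  (∀ d, E d D → IsFun E d w w) ∧
  ∀ h, IsFun E h w w → ∃ d, E d D ∧ ∀ n, E n w →
    ∃ k, E k w ∧ ¬ E k n ∧ ∃ p q, PairMem E k p h ∧ PairMem E k q d ∧ E p q

/-- `|A|` is at least the cardinal `b`: some unbounded family of functions injects into `A`. -/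
def CardGeB (w A : M) : Prop :=
  ∃ D, IsUnbounded E w D ∧ ∃ f, IsFun E f D A ∧ ∀ x y z, PairMem E x z f → PairMem E y z f → x = y

/-- `O` is an open subset of `Ψ(A)`, whose underlying set is `w ∪ A`. -/
def IsOpenPsi (w A O : M) : Prop :=
  (∀ x, E x O → E x w ∨ E x A) ∧
  ∀ a, E a A → E a O → ∃ n, E n w ∧ ∀ k, E k a → ¬ E k n → E k O

/-- `C` codes a sequence of open covers of `Ψ(A)`: the `n`-th cover is `{O : (n, O) ∈ C}`. -/
def IsCoverSeq (w A C : M) : Prop :=
  ∀ n, E n w → (∀ O, PairMem E n O C → IsOpenPsi E w A O) ∧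
    ∀ x, (E x w ∨ E x A) → ∃ O, PairMem E n O C ∧ E x O

/-- `F` codes a choice of finite subsets `F_n` of the covers `C_n` such that every point of `Ψ(A)` lies in
`st(⋃ F_n, C_n)` for all but finitely many `n`. -/
def IsHurewiczChoice (w A C F : M) : Prop :=
  (∀ n, E n w → ∀ O, PairMem E n O F → PairMem E n O C) ∧
  (∀ n, E n w → ∃ G, (∀ O, E O G ↔ PairMem E n O F) ∧ IsFinite E w G) ∧
  ∀ x, (E x w ∨ E x A) → ∃ N, E N w ∧ ∀ n, E n w → ¬ E n N →
    ∃ V, PairMem E n V C ∧ E x V ∧ ∃ O, PairMem E n O F ∧ ∃ y, E y O ∧ E y V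

/-- `Ψ(A)` is star-Hurewicz. -/
def IsStarHurewiczPsi (w A : M) : Prop :=
  ∀ C, IsCoverSeq E w A C → ∃ F, IsHurewiczChoice E w A C F

/-- In `(M, E)` there is an almost disjoint family `A` with `|A| ≥ b` and `Ψ(A)` star-Hurewicz. -/
def HasBigStarHurewiczPsi : Prop :=
  ∃ w A : M, IsOmega E w ∧ IsADFamily E w A ∧ CardGeB E w A ∧ IsStarHurewiczPsi E w A

end Pool.Agent.StarHur
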