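import Pool.Agent.BVM.Defs
import Pool.Agent.MP_b1d3ea_lc.Internal

/-!
# Boolean values of the internal notions, and the Boolean-algebra core
-/

set_option autoImplicit false

namespace Pool.Agent.StarHur

open Pool.Agent.BVM Classical

variable {𝔹 : Type} [CompleteBooleanAlgebra 𝔹]

/-- Boolean biconditional -/
def biff (a b : 𝔹) : 𝔹 := (a ⇨ b) ⊓ (b ⇨ a)

def bUPair (a b z : BSet 𝔹) : 𝔹 := ⨅ t, biff (bmem t z) (beq t a ⊔ beq t b)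

def bPair (a b p : BSet 𝔹) : 𝔹 := ⨅ z, biff (bmem z p) (bUPair a a z ⊔ bUPair a b z)

def bPM (a b R : BSet 𝔹) : 𝔹 := ⨆ p, bPair a b p ⊓ bmem p R

def bInductive (x : BSet 𝔹) : 𝔹 :=
  (⨆ e, bmem e x ⊓ ⨅ z, (bmem z e)ᶜ) ⊓
  ⨅ t, bmem t x ⇨ ⨆ s, bmem s x ⊓ ⨅ z, biff (bmem z s) (bmem z t ⊔ beq z t)

def bOmega (w : BSet 𝔹) : 𝔹 := bInductive w ⊓ ⨅ x, bInductive x ⇨ ⨅ t, bmem t w ⇨ bmem t x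

def bFun (f X Y : BSet 𝔹) : 𝔹 :=
  (⨅ p, bmem p f ⇨ ⨆ x, bmem x X ⊓ ⨆ y, bmem y Y ⊓ bPair x y p) ⊓
  ⨅ x, bmem x X ⇨ ⨆ y, bPM x y f ⊓ ⨅ y', bPM x y' f ⇨ beq y' y

def bFinite (w x : BSet 𝔹) : 𝔹 :=
  ⨆ m, bmem m w ⊓ ⨆ g, (⨅ k, ⨅ y, ⨅ z, bPM k y g ⇨ bPM k z g ⇨ beq y z) ⊓
    ⨅ t, bmem t x ⇨ ⨆ k, bmem k m ⊓ bPM k t g

def bAD (w A : BSet 𝔹) : 𝔹 :=
  (⨅ a, bmem a A ⇨ (⨅ k, bmem k a ⇨ bmem k w) ⊓ ⨅ n, bmem n w ⇨ ⨆ k, bmem k a ⊓ (bmem k n)ᶜ) ⊓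
  ⨅ a, ⨅ b, bmem a A ⇨ bmem b A ⇨ (beq a b)ᶜ ⇨ ⨆ n, bmem n w ⊓ ⨅ k, bmem k a ⇨ bmem k b ⇨ bmem k n

def bUnbounded (w D : BSet 𝔹) : 𝔹 :=
  (⨅ d, bmem d D ⇨ bFun d w w) ⊓
  ⨅ h, bFun h w w ⇨ ⨆ d, bmem d D ⊓ ⨅ n, bmem n w ⇨
    ⨆ k, bmem k w ⊓ ((bmem k n)ᶜ ⊓ ⨆ p, ⨆ q, bPM k p h ⊓ (bPM k q d ⊓ bmem p q))

def bCardGeB (w A : BSet 𝔹) : 𝔹 :=
  ⨆ D, bUnbounded w D ⊓ ⨆ f, bFun f D A ⊓ ⨅ x, ⨅ y, ⨅ z, bPM x z f ⇨ bPM y z f ⇨ beq x y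

def bOpen (w A O : BSet 𝔹) : 𝔹 :=
  (⨅ x, bmem x O ⇨ bmem x w ⊔ bmem x A) ⊓
  ⨅ a, bmem a A ⇨ bmem a O ⇨ ⨆ n, bmem n w ⊓ ⨅ k, bmem k a ⇨ (bmem k n)ᶜ ⇨ bmem k O

def bCover (w A C : BSet 𝔹) : 𝔹 :=
  ⨅ n, bmem n w ⇨ (⨅ O, bPM n O C ⇨ bOpen w A O) ⊓
    ⨅ x, bmem x w ⊔ bmem x A ⇨ ⨆ O, bPM n O C ⊓ bmem x O

def bChoice (w A C F : BSet 𝔹) : 𝔹 :=
  (⨅ n, bmem n w ⇨ ⨅ O, bPM n O F ⇨ bPM n O C) ⊓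
  ((⨅ n, bmem n w ⇨ ⨆ G, (⨅ O, biff (bmem O G) (bPM n O F)) ⊓ bFinite w G) ⊓
  ⨅ x, bmem x w ⊔ bmem x A ⇨ ⨆ N, bmem N w ⊓ ⨅ n, bmem n w ⇨ (bmem n N)ᶜ ⇨
    ⨆ V, bPM n V C ⊓ (bmem x V ⊓ ⨆ O, bPM n O F ⊓ ⨆ y, bmem y O ⊓ bmem y V))

def bStarHur (w A : BSet 𝔹) : 𝔹 := ⨅ C, bCover w A C ⇨ ⨆ F, bChoice w A C F

/-- The Boolean-algebra core: `a α i` is the Boolean value of `i ∈ A α`. -/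
structure Core (𝔹 : Type) [CompleteBooleanAlgebra 𝔹] (K : Type) (a : K → ℕ → 𝔹) : Prop where
  /-- every `A α` is infinite -/
  inf : ∀ α n, ⨆ i, ⨆ _ : n ≤ i, a α i = ⊤
  /-- almost disjointness -/
  ad : ∀ α β, α ≠ β → ⨆ n : ℕ, ⨅ i, ⨅ _ : n ≤ i, (a α i ⊓ a β i)ᶜ = ⊤
  /-- the combinatorial form of the star-Hurewicz property: `f α n m` is the Boolean value of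
  `F_n(α) = m`, and `B n e` the Boolean value of `B_n = e` -/
  hur : ∀ f : K → ℕ → ℕ → 𝔹, (∀ α n, ⨆ m, f α n m = ⊤) →
    (∀ α n m m', m ≠ m' → f α n m ⊓ f α n m' = ⊥) →
    ∃ B : ℕ → Finset K → 𝔹, (∀ n, ⨆ e, B n e = ⊤) ∧ (∀ n e e', e ≠ e' → B n e ⊓ B n e' = ⊥) ∧
      ∀ α, ⨆ N : ℕ, ⨅ n, ⨅ _ : N ≤ n, ⨆ e, B n e ⊓
        (if α ∈ e then ⊤ else ⨆ β ∈ e, ⨆ i, ⨆ m, ⨆ m', ⨆ _ : m ≤ i ∧ m' ≤ i,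
          (a α i ⊓ a β i) ⊓ (f α n m ⊓ f β n m')) = ⊤
  /-- the ground model functions are unbounded: `h n m` is the Boolean value of `h(n) = m` -/
  unb : ∀ h : ℕ → ℕ → 𝔹, (∀ n, ⨆ m, h n m = ⊤) → (∀ n m m', m ≠ m' → h n m ⊓ h n m' = ⊥) →
    ∃ x : ℕ → ℕ, ∀ N : ℕ, ⨆ n, ⨆ _ : N ≤ n, ⨆ m, ⨆ _ : m < x n, h n m = ⊤

end Pool.Agent.StarHur
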