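import Pool.Agent.BVM.Quot
import Pool.Agent.MP_b1d3ea_lc.BInternal

/-!
# Transfer: the internal statement holds in the quotient model

Every internal notion is written as a first-order formula; its satisfaction is the notion and its
Boolean value is the Boolean-valued notion, so that the theorem of Los applies.
-/

set_option autoImplicit false

namespace Pool.Agent.StarHur

open Pool.Agent.BVM Classical

namespace Transfer

section Formulas

variable {n : ℕ}

def fnot (φ : Fml n) : Fml n := .imp φ .bot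
def fand (φ ψ : Fml n) : Fml n := fnot (.imp φ (fnot ψ))
def fOr (φ ψ : Fml n) : Fml n := .imp (fnot φ) ψ
def fiff (φ ψ : Fml n) : Fml n := fand (.imp φ ψ) (.imp ψ φ)
def fex (φ : Fml (n + 1)) : Fml n := fnot (.all (fnot φ))

section SatLemmas

variable {M : Type*} (E : M → M → Prop) (v : Fin n → M)

@[simp] lemma sat_bot : Sat E (.bot : Fml n) v ↔ False := Iff.rfl
@[simp] lemma sat_mem (i j : Fin n) : Sat E (.mem i j) v ↔ E (v i) (v j) := Iff.rfl
@[simp] lemma sat_eq (i j : Fin n) : Sat E (.eq i j) v ↔ v i = v j := Iff.rfl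
@[simp] lemma sat_imp (φ ψ : Fml n) : Sat E (.imp φ ψ) v ↔ (Sat E φ v → Sat E ψ v) := Iff.rfl
@[simp] lemma sat_all (φ : Fml (n + 1)) : Sat E (.all φ) v ↔
    ∀ x : M, Sat E φ (Fin.cons x v : Fin (n + 1) → M) := Iff.rfl
@[simp] lemma sat_not (φ : Fml n) : Sat E (fnot φ) v ↔ ¬ Sat E φ v := Iff.rfl
@[simp] lemma sat_and (φ ψ : Fml n) : Sat E (fand φ ψ) v ↔ Sat E φ v ∧ Sat E ψ v := by
  unfold fand; rw [sat_not, sat_imp, sat_not]; tauto
@[simp] lemma sat_or (φ ψ : Fml n) : Sat E (fOr φ ψ) v ↔ Sat E φ v ∨ Sat E ψ v := by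
  unfold fOr; rw [sat_imp, sat_not]; tauto
@[simp] lemma sat_iff (φ ψ : Fml n) : Sat E (fiff φ ψ) v ↔ (Sat E φ v ↔ Sat E ψ v) := by
  unfold fiff; rw [sat_and, sat_imp, sat_imp]; tauto
@[simp] lemma sat_ex (φ : Fml (n + 1)) : Sat E (fex φ) v ↔
    ∃ x : M, Sat E φ (Fin.cons x v : Fin (n + 1) → M) := by
  unfold fex; rw [sat_not, sat_all]; simp only [sat_not]; push Not; rfl

end SatLemmas

section ValLemmas

variable {𝔹 : Type} [CompleteBooleanAlgebra 𝔹] (v : Fin n → BSet 𝔹)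

@[simp] lemma bval_bot : bval (.bot : Fml n) v = ⊥ := rfl
@[simp] lemma bval_mem (i j : Fin n) : bval (.mem i j) v = bmem (v i) (v j) := rfl
@[simp] lemma bval_eq (i j : Fin n) : bval (.eq i j) v = beq (v i) (v j) := rfl
@[simp] lemma bval_imp (φ ψ : Fml n) : bval (.imp φ ψ) v = bval φ v ⇨ bval ψ v := rfl
@[simp] lemma bval_all (φ : Fml (n + 1)) : bval (.all φ) v =
    ⨅ x : BSet 𝔹, bval φ (Fin.cons x v : Fin (n + 1) → BSet 𝔹) := rfl
@[simp] lemma bval_not (φ : Fml n) : bval (fnot φ) v = (bval φ v)ᶜ := by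
  unfold fnot; rw [bval_imp, bval_bot, himp_bot]
@[simp] lemma bval_and (φ ψ : Fml n) : bval (fand φ ψ) v = bval φ v ⊓ bval ψ v := by
  unfold fand; rw [bval_not, bval_imp, bval_not, himp_eq, compl_sup, compl_compl, compl_compl,
    inf_comm]
@[simp] lemma bval_or (φ ψ : Fml n) : bval (fOr φ ψ) v = bval φ v ⊔ bval ψ v := by
  unfold fOr; rw [bval_imp, bval_not, himp_eq, compl_compl, sup_comm]
@[simp] lemma bval_iff (φ ψ : Fml n) : bval (fiff φ ψ) v = biff (bval φ v) (bval ψ v) := by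
  unfold fiff biff; rw [bval_and, bval_imp, bval_imp]
@[simp] lemma bval_ex (φ : Fml (n + 1)) : bval (fex φ) v =
    ⨆ x : BSet 𝔹, bval φ (Fin.cons x v : Fin (n + 1) → BSet 𝔹) := by
  unfold fex; rw [bval_not, bval_all]; simp only [bval_not]; rw [compl_iInf]; simp only [compl_compl]

end ValLemmas

/-! ### The notions as formulas -/


def fUPair (a b z : Fin n) : Fml n :=
  .all (fiff (.mem 0 z.succ) (fOr (.eq 0 a.succ) (.eq 0 b.succ)))

def fPair (a b p : Fin n) : Fml n :=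
  .all (fiff (.mem 0 p.succ) (fOr (fUPair a.succ a.succ 0) (fUPair a.succ b.succ 0)))

def fPM (a b R : Fin n) : Fml n := fex (fand (fPair a.succ b.succ 0) (.mem 0 R.succ))

def fInductive (x : Fin n) : Fml n :=
  fand (fex (fand (.mem 0 x.succ) (.all (fnot (.mem 0 (Fin.succ 0))))))
    (.all (.imp (.mem 0 x.succ) (fex (fand (.mem 0 x.succ.succ)
      (.all (fiff (.mem 0 (Fin.succ 0)) (fOr (.mem 0 (Fin.succ (Fin.succ 0))) (.eq 0 (Fin.succ (Fin.succ 0))))))))))

def fOmega (w : Fin n) : Fml n :=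
  fand (fInductive w) (.all (.imp (fInductive 0) (.all (.imp (.mem 0 w.succ.succ) (.mem 0 (Fin.succ 0))))))

def fFun (f X Y : Fin n) : Fml n :=
  fand (.all (.imp (.mem 0 f.succ) (fex (fand (.mem 0 X.succ.succ)
      (fex (fand (.mem 0 Y.succ.succ.succ) (fPair (Fin.succ 0) 0 (Fin.succ (Fin.succ 0)))))))))
    (.all (.imp (.mem 0 X.succ) (fex (fand (fPM (Fin.succ 0) 0 f.succ.succ)
      (.all (.imp (fPM (Fin.succ (Fin.succ 0)) 0 f.succ.succ.succ) (.eq 0 (Fin.succ 0))))))))

def fFinite (w x : Fin n) : Fml n :=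
  fex (fand (.mem 0 w.succ) (fex (fand
    (.all (.all (.all (.imp (fPM (Fin.succ (Fin.succ 0)) (Fin.succ 0) (Fin.succ (Fin.succ (Fin.succ 0)))) (.imp (fPM (Fin.succ (Fin.succ 0)) 0 (Fin.succ (Fin.succ (Fin.succ 0)))) (.eq (Fin.succ 0) 0))))))
    (.all (.imp (.mem 0 x.succ.succ.succ) (fex (fand (.mem 0 (Fin.succ (Fin.succ (Fin.succ 0)))) (fPM 0 (Fin.succ 0) (Fin.succ (Fin.succ 0))))))))))

def fAD (w A : Fin n) : Fml n :=
  fand (.all (.imp (.mem 0 A.succ) (fand (.all (.imp (.mem 0 (Fin.succ 0)) (.mem 0 w.succ.succ)))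
      (.all (.imp (.mem 0 w.succ.succ) (fex (fand (.mem 0 (Fin.succ (Fin.succ 0))) (fnot (.mem 0 (Fin.succ 0))))))))))
    (.all (.all (.imp (.mem (Fin.succ 0) A.succ.succ) (.imp (.mem 0 A.succ.succ) (.imp (fnot (.eq (Fin.succ 0) 0))
      (fex (fand (.mem 0 w.succ.succ.succ)
        (.all (.imp (.mem 0 (Fin.succ (Fin.succ (Fin.succ 0)))) (.imp (.mem 0 (Fin.succ (Fin.succ 0))) (.mem 0 (Fin.succ 0))))))))))))

def fUnbounded (w D : Fin n) : Fml n :=
  fand (.all (.imp (.mem 0 D.succ) (fFun 0 w.succ w.succ)))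
    (.all (.imp (fFun 0 w.succ w.succ) (fex (fand (.mem 0 D.succ.succ)
      (.all (.imp (.mem 0 w.succ.succ.succ) (fex (fand (.mem 0 w.succ.succ.succ.succ)
        (fand (fnot (.mem 0 (Fin.succ 0))) (fex (fex (fand (fPM (Fin.succ (Fin.succ 0)) (Fin.succ 0) (Fin.succ (Fin.succ (Fin.succ (Fin.succ (Fin.succ 0))))))
          (fand (fPM (Fin.succ (Fin.succ 0)) 0 (Fin.succ (Fin.succ (Fin.succ (Fin.succ 0))))) (.mem (Fin.succ 0) 0)))))))))))))) 

def fCardGeB (w A : Fin n) : Fml n :=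
  fex (fand (fUnbounded w.succ 0) (fex (fand (fFun 0 (Fin.succ 0) A.succ.succ)
    (.all (.all (.all (.imp (fPM (Fin.succ (Fin.succ 0)) 0 (Fin.succ (Fin.succ (Fin.succ 0)))) (.imp (fPM (Fin.succ 0) 0 (Fin.succ (Fin.succ (Fin.succ 0)))) (.eq (Fin.succ (Fin.succ 0)) (Fin.succ 0))))))))))

def fOpen (w A O : Fin n) : Fml n :=
  fand (.all (.imp (.mem 0 O.succ) (fOr (.mem 0 w.succ) (.mem 0 A.succ))))
    (.all (.imp (.mem 0 A.succ) (.imp (.mem 0 O.succ) (fex (fand (.mem 0 w.succ.succ)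
      (.all (.imp (.mem 0 (Fin.succ (Fin.succ 0))) (.imp (fnot (.mem 0 (Fin.succ 0))) (.mem 0 O.succ.succ.succ)))))))))

def fCover (w A C : Fin n) : Fml n :=
  .all (.imp (.mem 0 w.succ) (fand
    (.all (.imp (fPM (Fin.succ 0) 0 C.succ.succ) (fOpen w.succ.succ A.succ.succ 0)))
    (.all (.imp (fOr (.mem 0 w.succ.succ) (.mem 0 A.succ.succ))
      (fex (fand (fPM (Fin.succ (Fin.succ 0)) 0 C.succ.succ.succ) (.mem (Fin.succ 0) 0)))))))

def fChoice (w A C F : Fin n) : Fml n :=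
  fand (.all (.imp (.mem 0 w.succ) (.all (.imp (fPM (Fin.succ 0) 0 F.succ.succ) (fPM (Fin.succ 0) 0 C.succ.succ)))))
    (fand (.all (.imp (.mem 0 w.succ) (fex (fand
        (.all (fiff (.mem 0 (Fin.succ 0)) (fPM (Fin.succ (Fin.succ 0)) 0 F.succ.succ.succ))) (fFinite w.succ.succ 0)))))
      (.all (.imp (fOr (.mem 0 w.succ) (.mem 0 A.succ)) (fex (fand (.mem 0 w.succ.succ)
        (.all (.imp (.mem 0 w.succ.succ.succ) (.imp (fnot (.mem 0 (Fin.succ 0)))
          (fex (fand (fPM (Fin.succ 0) 0 C.succ.succ.succ.succ) (fand (.mem (Fin.succ (Fin.succ (Fin.succ 0))) 0)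
            (fex (fand (fPM (Fin.succ (Fin.succ 0)) 0 F.succ.succ.succ.succ.succ)
              (fex (fand (.mem 0 (Fin.succ 0)) (.mem 0 (Fin.succ (Fin.succ 0))))))))))))))))))

def fStarHur (w A : Fin n) : Fml n :=
  .all (.imp (fCover w.succ A.succ 0) (fex (fChoice w.succ.succ A.succ.succ (Fin.succ 0) 0)))

section SatNotions

variable {M : Type*} (E : M → M → Prop) (v : Fin n → M)

@[simp] lemma sat_UPair (a b z : Fin n) :
    Sat E (fUPair a b z) v ↔ IsUPair E (v a) (v b) (v z) := by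
  simp only [fUPair, IsUPair, sat_all, sat_iff, sat_mem, sat_or, sat_eq, Fin.cons_zero,
    Fin.cons_succ]

@[simp] lemma sat_Pair (a b p : Fin n) :
    Sat E (fPair a b p) v ↔ IsPair E (v a) (v b) (v p) := by
  simp only [fPair, IsPair, sat_all, sat_iff, sat_mem, sat_or, sat_UPair, Fin.cons_zero,
    Fin.cons_succ]

@[simp] lemma sat_PM (a b R : Fin n) :
    Sat E (fPM a b R) v ↔ PairMem E (v a) (v b) (v R) := by
  simp only [fPM, PairMem, sat_ex, sat_and, sat_mem, sat_Pair, Fin.cons_zero, Fin.cons_succ]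

@[simp] lemma sat_Inductive (x : Fin n) :
    Sat E (fInductive x) v ↔ IsInductive E (v x) := by
  simp only [fInductive, IsInductive, sat_ex, sat_and, sat_or, sat_iff, sat_all, sat_imp, sat_not,
    sat_eq, sat_mem, Fin.cons_zero, Fin.cons_succ]

@[simp] lemma sat_Omega (w : Fin n) : Sat E (fOmega w) v ↔ IsOmega E (v w) := by
  simp only [fOmega, IsOmega, sat_and, sat_all, sat_imp, sat_Inductive, sat_mem, Fin.cons_zero,
    Fin.cons_succ]

@[simp] lemma sat_Fun (f X Y : Fin n) : Sat E (fFun f X Y) v ↔ IsFun E (v f) (v X) (v Y) := by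
  simp only [fFun, IsFun, sat_and, sat_all, sat_ex, sat_imp, sat_Pair, sat_PM, sat_eq, sat_mem,
    Fin.cons_zero, Fin.cons_succ]

@[simp] lemma sat_Finite (w x : Fin n) : Sat E (fFinite w x) v ↔ IsFinite E (v w) (v x) := by
  simp only [fFinite, IsFinite, sat_and, sat_all, sat_ex, sat_imp, sat_PM, sat_eq, sat_mem,
    Fin.cons_zero, Fin.cons_succ]

@[simp] lemma sat_AD (w A : Fin n) : Sat E (fAD w A) v ↔ IsADFamily E (v w) (v A) := by
  simp only [fAD, IsADFamily, sat_and, sat_all, sat_ex, sat_imp, sat_not, sat_eq, sat_mem,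
    Fin.cons_zero, Fin.cons_succ, ne_eq]

@[simp] lemma sat_Unbounded (w D : Fin n) :
    Sat E (fUnbounded w D) v ↔ IsUnbounded E (v w) (v D) := by
  simp only [fUnbounded, IsUnbounded, sat_and, sat_all, sat_ex, sat_imp, sat_not, sat_Fun, sat_PM,
    sat_mem, Fin.cons_zero, Fin.cons_succ]

@[simp] lemma sat_CardGeB (w A : Fin n) : Sat E (fCardGeB w A) v ↔ CardGeB E (v w) (v A) := by
  simp only [fCardGeB, CardGeB, sat_and, sat_all, sat_ex, sat_imp, sat_Unbounded, sat_Fun, sat_PM,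
    sat_eq, Fin.cons_zero, Fin.cons_succ]

@[simp] lemma sat_Open (w A O : Fin n) :
    Sat E (fOpen w A O) v ↔ IsOpenPsi E (v w) (v A) (v O) := by
  simp only [fOpen, IsOpenPsi, sat_and, sat_or, sat_all, sat_ex, sat_imp, sat_not, sat_mem,
    Fin.cons_zero, Fin.cons_succ]

@[simp] lemma sat_Cover (w A C : Fin n) :
    Sat E (fCover w A C) v ↔ IsCoverSeq E (v w) (v A) (v C) := by
  simp only [fCover, IsCoverSeq, sat_and, sat_or, sat_all, sat_ex, sat_imp, sat_PM, sat_Open,
    sat_mem, Fin.cons_zero, Fin.cons_succ]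

@[simp] lemma sat_Choice (w A C F : Fin n) :
    Sat E (fChoice w A C F) v ↔ IsHurewiczChoice E (v w) (v A) (v C) (v F) := by
  simp only [fChoice, IsHurewiczChoice, sat_and, sat_or, sat_iff, sat_all, sat_ex, sat_imp,
    sat_not, sat_PM, sat_Finite, sat_mem, Fin.cons_zero, Fin.cons_succ]

@[simp] lemma sat_StarHur (w A : Fin n) :
    Sat E (fStarHur w A) v ↔ IsStarHurewiczPsi E (v w) (v A) := by
  simp only [fStarHur, IsStarHurewiczPsi, sat_all, sat_ex, sat_imp, sat_Cover, sat_Choice,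
    Fin.cons_zero, Fin.cons_succ]

end SatNotions

section ValNotions

variable {𝔹 : Type} [CompleteBooleanAlgebra 𝔹] (v : Fin n → BSet 𝔹)

@[simp] lemma bval_UPair (a b z : Fin n) :
    bval (fUPair a b z) v = bUPair (v a) (v b) (v z) := by
  simp only [fUPair, bUPair, bval_all, bval_iff, bval_mem, bval_or, bval_eq, Fin.cons_zero,
    Fin.cons_succ]

@[simp] lemma bval_Pair (a b p : Fin n) :
    bval (fPair a b p) v = bPair (v a) (v b) (v p) := by
  simp only [fPair, bPair, bval_all, bval_iff, bval_mem, bval_or, bval_UPair, Fin.cons_zero,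
    Fin.cons_succ]

@[simp] lemma bval_PM (a b R : Fin n) :
    bval (fPM a b R) v = bPM (v a) (v b) (v R) := by
  simp only [fPM, bPM, bval_ex, bval_and, bval_mem, bval_Pair, Fin.cons_zero, Fin.cons_succ]

@[simp] lemma bval_Inductive (x : Fin n) :
    bval (fInductive x) v = bInductive (v x) := by
  simp only [fInductive, bInductive, bval_ex, bval_and, bval_or, bval_iff, bval_all, bval_imp,
    bval_not, bval_eq, bval_mem, Fin.cons_zero, Fin.cons_succ]

@[simp] lemma bval_Omega (w : Fin n) : bval (fOmega w) v = bOmega (v w) := by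
  simp only [fOmega, bOmega, bval_and, bval_all, bval_imp, bval_Inductive, bval_mem, Fin.cons_zero,
    Fin.cons_succ]

@[simp] lemma bval_Fun (f X Y : Fin n) : bval (fFun f X Y) v = bFun (v f) (v X) (v Y) := by
  simp only [fFun, bFun, bval_and, bval_all, bval_ex, bval_imp, bval_Pair, bval_PM, bval_eq,
    bval_mem, Fin.cons_zero, Fin.cons_succ]

@[simp] lemma bval_Finite (w x : Fin n) : bval (fFinite w x) v = bFinite (v w) (v x) := by
  simp only [fFinite, bFinite, bval_and, bval_all, bval_ex, bval_imp, bval_PM, bval_eq, bval_mem,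
    Fin.cons_zero, Fin.cons_succ]

@[simp] lemma bval_AD (w A : Fin n) : bval (fAD w A) v = bAD (v w) (v A) := by
  simp only [fAD, bAD, bval_and, bval_all, bval_ex, bval_imp, bval_not, bval_eq, bval_mem,
    Fin.cons_zero, Fin.cons_succ]

@[simp] lemma bval_Unbounded (w D : Fin n) :
    bval (fUnbounded w D) v = bUnbounded (v w) (v D) := by
  simp only [fUnbounded, bUnbounded, bval_and, bval_all, bval_ex, bval_imp, bval_not, bval_Fun,
    bval_PM, bval_mem, Fin.cons_zero, Fin.cons_succ]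

@[simp] lemma bval_CardGeB (w A : Fin n) : bval (fCardGeB w A) v = bCardGeB (v w) (v A) := by
  simp only [fCardGeB, bCardGeB, bval_and, bval_all, bval_ex, bval_imp, bval_Unbounded, bval_Fun,
    bval_PM, bval_eq, Fin.cons_zero, Fin.cons_succ]

@[simp] lemma bval_Open (w A O : Fin n) :
    bval (fOpen w A O) v = bOpen (v w) (v A) (v O) := by
  simp only [fOpen, bOpen, bval_and, bval_or, bval_all, bval_ex, bval_imp, bval_not, bval_mem,
    Fin.cons_zero, Fin.cons_succ]

@[simp] lemma bval_Cover (w A C : Fin n) :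
    bval (fCover w A C) v = bCover (v w) (v A) (v C) := by
  simp only [fCover, bCover, bval_and, bval_or, bval_all, bval_ex, bval_imp, bval_PM, bval_Open,
    bval_mem, Fin.cons_zero, Fin.cons_succ]

@[simp] lemma bval_Choice (w A C F : Fin n) :
    bval (fChoice w A C F) v = bChoice (v w) (v A) (v C) (v F) := by
  simp only [fChoice, bChoice, bval_and, bval_or, bval_iff, bval_all, bval_ex, bval_imp,
    bval_not, bval_PM, bval_Finite, bval_mem, Fin.cons_zero, Fin.cons_succ]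

@[simp] lemma bval_StarHur (w A : Fin n) :
    bval (fStarHur w A) v = bStarHur (v w) (v A) := by
  simp only [fStarHur, bStarHur, bval_all, bval_ex, bval_imp, bval_Cover, bval_Choice,
    Fin.cons_zero, Fin.cons_succ]

end ValNotions

end Formulas

end Transfer

variable {𝔹 : Type} [CompleteBooleanAlgebra 𝔹]

open Transfer in
theorem transfer (U : UF 𝔹) (w A : BSet 𝔹) (h1 : bOmega w = ⊤) (h2 : bAD w A = ⊤)
    (h3 : bCardGeB w A = ⊤) (h4 : bStarHur w A = ⊤) : HasBigStarHurewiczPsi U.E := by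
  have e0 : (![w, A] : Fin 2 → BSet 𝔹) 0 = w := rfl
  have e1 : (![w, A] : Fin 2 → BSet 𝔹) 1 = A := rfl
  refine ⟨Quotient.mk U.setoid w, Quotient.mk U.setoid A, ?_, ?_, ?_, ?_⟩
  · have := (los U (fOmega (0 : Fin 2)) ![w, A]).2 (by
      rw [bval_Omega, e0, h1]; exact U.top_mem)
    rw [sat_Omega] at this
    exact this
  · have := (los U (fAD (0 : Fin 2) 1) ![w, A]).2 (by
      rw [bval_AD, e0, e1, h2]; exact U.top_mem)
    rw [sat_AD] at this
    exact this
  · have := (los U (fCardGeB (0 : Fin 2) 1) ![w, A]).2 (by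
      rw [bval_CardGeB, e0, e1, h3]; exact U.top_mem)
    rw [sat_CardGeB] at this
    exact this
  · have := (los U (fStarHur (0 : Fin 2) 1) ![w, A]).2 (by
      rw [bval_StarHur, e0, e1, h4]; exact U.top_mem)
    rw [sat_StarHur] at this
    exact this

end Pool.Agent.StarHur
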