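import Pool.Agent.BVM.AxInf
import Pool.Agent.MP_b1d3ea_lc.BInternal

/-! # The set of natural numbers in the Boolean-valued model -/

set_option autoImplicit false

namespace Pool.Agent.StarHur

open Pool.Agent.BVM Classical

variable {𝔹 : Type} [CompleteBooleanAlgebra 𝔹]

namespace Omega

theorem biff_self (a : 𝔹) : biff a a = ⊤ := by rw [biff, himp_self, inf_top_eq]

theorem bmem_num_zero (z : BSet 𝔹) : bmem z (num 0) = ⊥ := by
  rw [bmem_num, eq_bot_iff]
  exact iSup₂_le fun k hk => absurd hk (Nat.not_lt_zero k)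

theorem bmem_num_succ (z : BSet 𝔹) (n : ℕ) :
    bmem z (num (n + 1)) = bmem z (num n) ⊔ beq z (num n) := by
  rw [bmem_num z (n + 1), bmem_num z n]
  apply le_antisymm
  · refine iSup₂_le fun k hk => ?_
    rcases Nat.lt_succ_iff_lt_or_eq.1 hk with h | h
    · exact le_sup_of_le_left (le_iSup₂_of_le k h le_rfl)
    · subst h
      exact le_sup_right
  · refine sup_le (iSup₂_le fun k hk => le_iSup₂_of_le k (hk.trans (Nat.lt_succ_self n)) le_rfl) ?_
    exact le_iSup₂_of_le n (Nat.lt_succ_self n) le_rfl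

theorem bmem_num_omegaN (n : ℕ) : bmem (num n : BSet 𝔹) omegaN = ⊤ := by
  rw [bmem_omegaN, eq_top_iff]
  exact le_iSup_of_le n (beq_refl _).ge

theorem bInductive_omegaN : bInductive (omegaN : BSet 𝔹) = ⊤ := by
  rw [bInductive, eq_top_iff]
  refine le_inf ?_ (le_iInf fun t => ?_)
  · refine le_iSup_of_le (num 0) (le_inf (bmem_num_omegaN 0).ge (le_iInf fun z => ?_))
    rw [bmem_num_zero, compl_bot]
  · rw [le_himp_iff, top_inf_eq]
    refine le_iSup_of_le (AxInf.succN t) (le_inf ?_ (le_iInf fun z => ?_))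
    · rw [bmem_omegaN, bmem_omegaN]
      exact iSup_le fun n => le_iSup_of_le (n + 1) (AxInf.beq_le_beq_succ t n)
    · rw [AxInf.bmem_succN, biff_self]
      exact le_top

theorem bInductive_le_num (x : BSet 𝔹) (n : ℕ) : bInductive x ≤ bmem (num n) x := by
  induction n with
  | zero =>
    rw [bInductive]
    refine inf_le_left.trans (iSup_le fun e => ?_)
    refine le_trans ?_ (bmem_congr_left e (num 0) x)
    rw [inf_comm]
    refine inf_le_inf_right _ ?_
    rw [beq_eq_iInf]
    refine le_iInf fun z => (iInf_le _ z).trans ?_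
    rw [bmem_num_zero, himp_bot, bot_himp, inf_top_eq]
  | succ n ih =>
    have h1 : bInductive x ≤ ⨆ s, bmem s x ⊓ ⨅ z, biff (bmem z s) (bmem z (num n) ⊔ beq z (num n)) := by
      have h2 : bInductive x ≤ bmem (num n) x ⇨ ⨆ s, bmem s x ⊓
          ⨅ z, biff (bmem z s) (bmem z (num n) ⊔ beq z (num n)) :=
        inf_le_right.trans (iInf_le _ (num n))
      rw [le_himp_iff] at h2
      exact (le_inf le_rfl ih).trans h2
    refine h1.trans (iSup_le fun s => ?_)
    refine le_trans ?_ (bmem_congr_left s (num (n + 1)) x)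
    rw [inf_comm]
    refine inf_le_inf_right _ ?_
    rw [beq_eq_iInf]
    refine le_iInf fun z => (iInf_le _ z).trans ?_
    rw [bmem_num_succ, biff]

end Omega

theorem bOmega_omegaN : bOmega (omegaN : BSet 𝔹) = ⊤ := by
  rw [bOmega, Omega.bInductive_omegaN, top_inf_eq, eq_top_iff]
  refine le_iInf fun x => ?_
  rw [le_himp_iff, top_inf_eq]
  refine le_iInf fun t => ?_
  rw [le_himp_iff, bmem_omegaN, inf_iSup_eq]
  refine iSup_le fun n => ?_
  refine le_trans ?_ (bmem_congr_left (num n) t x)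
  rw [inf_comm, beq_symm]
  exact inf_le_inf_left _ (Omega.bInductive_le_num x n)

/-- bounded quantifiers over omega -/
theorem ball_omega {f : BSet 𝔹 → 𝔹} (hf : Ext1 f) :
    (⨅ n, bmem n omegaN ⇨ f n) = ⨅ n : ℕ, f (num n) := by
  rw [ball_eq hf omegaN]
  exact iInf_congr fun n => top_himp

theorem bex_omega {f : BSet 𝔹 → 𝔹} (hf : Ext1 f) :
    (⨆ n, bmem n omegaN ⊓ f n) = ⨆ n : ℕ, f (num n) := by
  rw [bex_eq hf omegaN]
  exact iSup_congr fun n => top_inf_eq _

end Pool.Agent.StarHur
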