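import Pool.Agent.BVM.AxPair
import Pool.Agent.MP_b1d3ea_lc.BInternal

/-! Module III2: ordered pairs in the Boolean-valued model. -/

set_option autoImplicit false

namespace Pool.Agent.StarHur

open Pool.Agent.BVM Classical

variable {𝔹 : Type} [CompleteBooleanAlgebra 𝔹]

/-- name of the ordered pair -/
def opair (x y : BSet 𝔹) : BSet 𝔹 := pairN (pairN x x) (pairN x y)

namespace Pairs

theorem beq_pairN_le_left (a b c d : BSet 𝔹) :
    beq (pairN a b) (pairN c d) ≤ beq a c ⊔ beq a d := by
  have h := bmem_congr_right a (pairN a b) (pairN c d)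
  rw [bmem_pairN, bmem_pairN, beq_refl, top_sup_eq, inf_top_eq] at h
  exact h

theorem beq_pairN_le_right (a b c d : BSet 𝔹) :
    beq (pairN a b) (pairN c d) ≤ beq b c ⊔ beq b d := by
  have h := bmem_congr_right b (pairN a b) (pairN c d)
  rw [bmem_pairN, bmem_pairN, beq_refl, sup_top_eq, inf_top_eq] at h
  exact h

theorem beq_trans' (t x x' : BSet 𝔹) : beq x x' ⊓ beq t x ≤ beq t x' := by
  rw [inf_comm]
  exact beq_trans t x x'

theorem le_beq_pairN (a b c d : BSet 𝔹) :
    beq a c ⊓ beq b d ≤ beq (pairN a b) (pairN c d) := by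
  rw [beq_eq_iInf (pairN a b) (pairN c d)]
  refine le_iInf fun t => ?_
  rw [bmem_pairN, bmem_pairN]
  refine le_inf ?_ ?_
  · rw [le_himp_iff, inf_sup_left]
    refine sup_le_sup ?_ ?_
    · exact (inf_le_inf_right _ inf_le_left).trans (beq_trans' t a c)
    · exact (inf_le_inf_right _ inf_le_right).trans (beq_trans' t b d)
  · rw [le_himp_iff, inf_sup_left, beq_symm a c, beq_symm b d]
    refine sup_le_sup ?_ ?_
    · exact (inf_le_inf_right _ inf_le_left).trans (beq_trans' t c a)
    · exact (inf_le_inf_right _ inf_le_right).trans (beq_trans' t d b)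

theorem beq_opair_le_fst (x y x' y' : BSet 𝔹) : beq (opair x y) (opair x' y') ≤ beq x x' := by
  refine (beq_pairN_le_left (pairN x x) (pairN x y) (pairN x' x') (pairN x' y')).trans ?_
  refine sup_le ?_ ?_
  · exact (beq_pairN_le_left x x x' x').trans (le_of_eq (sup_idem _))
  · rw [beq_symm (pairN x x)]
    refine (beq_pairN_le_left x' y' x x).trans ?_
    rw [sup_idem, beq_symm]

theorem beq_opair_le_aux (x y x' y' : BSet 𝔹) :
    beq (opair x y) (opair x' y') ≤ beq y x' ⊔ beq y y' := by
  refine (beq_pairN_le_right (pairN x x) (pairN x y) (pairN x' x') (pairN x' y')).trans ?_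
  refine sup_le ?_ ?_
  · refine (beq_pairN_le_right x y x' x').trans ?_
    rw [sup_idem]
    exact le_sup_left
  · exact beq_pairN_le_right x y x' y'

theorem beq_opair_le_snd (x y x' y' : BSet 𝔹) : beq (opair x y) (opair x' y') ≤ beq y y' := by
  have h1 := beq_opair_le_fst x y x' y'
  have h2 := beq_opair_le_aux x y x' y'
  have h3 := beq_opair_le_aux x' y' x y
  rw [beq_symm (opair x' y')] at h3
  refine (le_inf h1 (le_inf h2 h3)).trans ?_
  rw [inf_sup_right, inf_sup_left]
  refine sup_le ?_ ?_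
  · -- `y = x' = x = y'`, or `y' = y`
    rw [inf_sup_left, inf_sup_left]
    refine sup_le ?_ ?_
    · have e1 : beq x x' ⊓ (beq y x' ⊓ beq y' x) ≤ beq y x := by
        refine le_trans ?_ (beq_trans y x' x)
        rw [beq_symm x' x]
        exact le_inf (inf_le_right.trans inf_le_left) inf_le_left
      have e2 : beq x x' ⊓ (beq y x' ⊓ beq y' x) ≤ beq x y' := by
        rw [beq_symm y' x]
        exact inf_le_right.trans inf_le_right
      exact (le_inf e1 e2).trans (beq_trans y x y')
    · rw [beq_symm y' y]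
      exact inf_le_right.trans inf_le_right
  · exact inf_le_right.trans inf_le_left

end Pairs

theorem beq_opair (x y x' y' : BSet 𝔹) : beq (opair x y) (opair x' y') = beq x x' ⊓ beq y y' := by
  refine le_antisymm (le_inf (Pairs.beq_opair_le_fst x y x' y') (Pairs.beq_opair_le_snd x y x' y')) ?_
  refine le_trans ?_ (Pairs.le_beq_pairN (pairN x x) (pairN x y) (pairN x' x') (pairN x' y'))
  refine le_inf ?_ (Pairs.le_beq_pairN x y x' y')
  exact le_trans (le_inf inf_le_left inf_le_left) (Pairs.le_beq_pairN x x x' x')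

theorem bUPair_eq (x y z : BSet 𝔹) : bUPair x y z = beq z (pairN x y) := by
  rw [beq_eq_iInf, bUPair]
  refine iInf_congr fun t => ?_
  rw [bmem_pairN, biff]

theorem bPair_eq (x y p : BSet 𝔹) : bPair x y p = beq p (opair x y) := by
  rw [opair, ← bUPair_eq, bPair, bUPair]
  refine iInf_congr fun z => ?_
  rw [bUPair_eq, bUPair_eq]

theorem bPM_eq (x y R : BSet 𝔹) : bPM x y R = bmem (opair x y) R := by
  rw [bPM]
  apply le_antisymm
  · refine iSup_le fun p => ?_
    rw [bPair_eq]
    exact bmem_congr_left p (opair x y) R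
  · refine le_trans ?_ (le_iSup _ (opair x y))
    rw [bPair_eq, beq_refl, top_inf_eq]

theorem ext1_bPM1 (y R : BSet 𝔹) : Ext1 (fun x => bPM x y R) := by
  intro x x'
  show beq x x' ⊓ bPM x y R ≤ bPM x' y R
  rw [bPM_eq, bPM_eq]
  refine le_trans (inf_le_inf_right _ ?_) (bmem_congr_left (opair x y) (opair x' y) R)
  rw [beq_opair, beq_refl, inf_top_eq]

theorem ext1_bPM2 (x R : BSet 𝔹) : Ext1 (fun y => bPM x y R) := by
  intro y y'
  show beq y y' ⊓ bPM x y R ≤ bPM x y' R
  rw [bPM_eq, bPM_eq]
  refine le_trans (inf_le_inf_right _ ?_) (bmem_congr_left (opair x y) (opair x y') R)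
  rw [beq_opair, beq_refl, top_inf_eq]

theorem ext1_bPM3 (x y : BSet 𝔹) : Ext1 (fun R => bPM x y R) := by
  intro R R'
  show beq R R' ⊓ bPM x y R ≤ bPM x y R'
  rw [bPM_eq, bPM_eq]
  exact bmem_congr_right (opair x y) R R'

end Pool.Agent.StarHur
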