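import Pool.Agent.MP_b1d3ea_lc.Names
import Pool.Agent.MP_b1d3ea_lc.Omega

/-! # The generic almost disjoint family in the Boolean-valued model -/

set_option autoImplicit false

namespace Pool.Agent.StarHur

open Pool.Agent.BVM Classical

variable {𝔹 : Type} [CompleteBooleanAlgebra 𝔹]

namespace ADAux

/-- a bounded universal statement from its instances -/
theorem bmem_le_of_ext {f : BSet 𝔹 → 𝔹} (hf : Ext1 f) {x : BSet 𝔹}
    (h : ∀ i, x.val i ≤ f (x.fam i)) (z : BSet 𝔹) : bmem z x ≤ f z := by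
  rw [bmem_def]
  refine iSup_le fun i => ?_
  refine le_trans ?_ (hf (x.fam i) z)
  rw [inf_comm, beq_symm]
  exact inf_le_inf_left _ (h i)

theorem bmem_famN {K : Type} (a : K → ℕ → 𝔹) (x : BSet 𝔹) :
    bmem x (famN a) = ⨆ α, beq x (aN a α) := by
  rw [famN, bmem]
  exact iSup_congr fun α => top_inf_eq _

end ADAux

open ADAux

theorem bmem_aN {K : Type} (a : K → ℕ → 𝔹) (α : K) (x : BSet 𝔹) :
    bmem x (aN a α) = ⨆ i : ℕ, a α i ⊓ beq x (num i) := by
  rw [aN, bmem]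

theorem bmem_num_aN {K : Type} (a : K → ℕ → 𝔹) (α : K) (i : ℕ) :
    bmem (num i) (aN a α) = a α i := by
  rw [bmem_aN]
  apply le_antisymm
  · refine iSup_le fun j => ?_
    rw [beq_num]
    split_ifs with h
    · rw [h, inf_top_eq]
    · rw [inf_bot_eq]; exact bot_le
  · refine le_iSup_of_le i ?_
    rw [beq_refl, inf_top_eq]

theorem beq_aN {K : Type} {a : K → ℕ → 𝔹} (h : Core 𝔹 K a) {α β : K} (hab : α ≠ β) :
    beq (aN a α) (aN a β) = ⊥ := by
  have key : ∀ i, beq (aN a α) (aN a β) ⊓ a α i ≤ a β i := by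
    intro i
    have := bmem_congr_right (num i) (aN a α) (aN a β)
    rwa [bmem_num_aN, bmem_num_aN] at this
  rw [eq_bot_iff]
  have h1 : beq (aN a α) (aN a β) ≤ beq (aN a α) (aN a β) ⊓
      ⨆ n : ℕ, ⨅ i, ⨅ _ : n ≤ i, (a α i ⊓ a β i)ᶜ := by
    rw [h.ad α β hab, inf_top_eq]
  refine h1.trans ?_
  rw [inf_iSup_eq]
  refine iSup_le fun n => ?_
  have h2 : beq (aN a α) (aN a β) ⊓ (⨅ i, ⨅ _ : n ≤ i, (a α i ⊓ a β i)ᶜ) ≤
      (beq (aN a α) (aN a β) ⊓ (⨅ i, ⨅ _ : n ≤ i, (a α i ⊓ a β i)ᶜ)) ⊓ ⨆ i, ⨆ _ : n ≤ i, a α i := by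
    rw [h.inf α n, inf_top_eq]
  refine h2.trans ?_
  rw [inf_iSup_eq]
  refine iSup_le fun i => ?_
  rw [inf_iSup_eq]
  refine iSup_le fun hi => ?_
  have h3 : (beq (aN a α) (aN a β) ⊓ (⨅ i, ⨅ _ : n ≤ i, (a α i ⊓ a β i)ᶜ)) ⊓ a α i ≤
      (a α i ⊓ a β i) ⊓ (a α i ⊓ a β i)ᶜ := by
    refine le_inf (le_inf inf_le_right ?_) ?_
    · exact le_trans (le_inf (inf_le_left.trans inf_le_left) inf_le_right) (key i)
    · exact (inf_le_left.trans inf_le_right).trans (iInf₂_le i hi)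
  rw [inf_compl_eq_bot] at h3
  exact h3

theorem bAD_top {K : Type} {a : K → ℕ → 𝔹} (h : Core 𝔹 K a) : bAD omegaN (famN a) = ⊤ := by
  rw [bAD, eq_top_iff]
  refine le_inf (le_iInf fun x => ?_) (le_iInf fun x => le_iInf fun y => ?_)
  · rw [le_himp_iff, top_inf_eq]
    refine bmem_le_of_ext (f := fun x => (⨅ k, bmem k x ⇨ bmem k omegaN) ⊓
      ⨅ n, bmem n omegaN ⇨ ⨆ k, bmem k x ⊓ (bmem k n)ᶜ) ?_ (fun α => ?_) x
    · exact Ext1.inf (Ext1.iInf fun k => Ext1.himp (ext1_bmem_right k) (Ext1.const _))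
        (Ext1.iInf fun n => Ext1.himp (Ext1.const _)
          (Ext1.iSup fun k => Ext1.inf (ext1_bmem_right k) (Ext1.const _)))
    · show ⊤ ≤ (⨅ k, bmem k (aN a α) ⇨ bmem k omegaN) ⊓
        ⨅ n, bmem n omegaN ⇨ ⨆ k, bmem k (aN a α) ⊓ (bmem k n)ᶜ
      refine le_inf (le_iInf fun k => ?_) ?_
      · rw [le_himp_iff, top_inf_eq, bmem_aN, bmem_omegaN]
        exact iSup_mono fun i => inf_le_right
      · rw [ball_omega (f := fun n => ⨆ k, bmem k (aN a α) ⊓ (bmem k n)ᶜ)
          (Ext1.iSup fun k => Ext1.inf (Ext1.const _) (Ext1.compl (ext1_bmem_right k)))]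
        refine le_iInf fun n => ?_
        rw [← h.inf α n]
        refine iSup₂_le fun i hi => le_iSup_of_le (num i) ?_
        rw [bmem_num_aN, bmem_num_num, if_neg (by omega), compl_bot, inf_top_eq]
  · rw [le_himp_iff, top_inf_eq]
    refine bmem_le_of_ext (f := fun x => bmem y (famN a) ⇨ (beq x y)ᶜ ⇨ ⨆ n, bmem n omegaN ⊓
      ⨅ k, bmem k x ⇨ bmem k y ⇨ bmem k n) ?_ (fun α => ?_) x
    · exact Ext1.himp (Ext1.const _) (Ext1.himp (Ext1.compl (ext1_beq_left y))
        (Ext1.iSup fun n => Ext1.inf (Ext1.const _) (Ext1.iInf fun k =>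
          Ext1.himp (ext1_bmem_right k) (Ext1.const _))))
    · show ⊤ ≤ bmem y (famN a) ⇨ (beq (aN a α) y)ᶜ ⇨ ⨆ n, bmem n omegaN ⊓
        ⨅ k, bmem k (aN a α) ⇨ bmem k y ⇨ bmem k n
      rw [le_himp_iff, top_inf_eq]
      refine bmem_le_of_ext (f := fun y => (beq (aN a α) y)ᶜ ⇨ ⨆ n, bmem n omegaN ⊓
        ⨅ k, bmem k (aN a α) ⇨ bmem k y ⇨ bmem k n) ?_ (fun β => ?_) y
      · exact Ext1.himp (Ext1.compl (ext1_beq_right _))
          (Ext1.iSup fun n => Ext1.inf (Ext1.const _) (Ext1.iInf fun k =>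
            Ext1.himp (Ext1.const _) (Ext1.himp (ext1_bmem_right k) (Ext1.const _))))
      · show ⊤ ≤ (beq (aN a α) (aN a β))ᶜ ⇨ ⨆ n, bmem n omegaN ⊓
          ⨅ k, bmem k (aN a α) ⇨ bmem k (aN a β) ⇨ bmem k n
        rcases eq_or_ne α β with hab | hab
        · rw [hab, beq_refl, compl_top, bot_himp]
        · rw [le_himp_iff, top_inf_eq]
          refine le_top.trans ?_
          rw [← h.ad α β hab]
          refine iSup_le fun n => le_iSup_of_le (num n) (le_inf ?_ (le_iInf fun k => ?_))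
          · rw [Omega.bmem_num_omegaN]; exact le_top
          · rw [le_himp_iff, le_himp_iff, bmem_aN a α k, inf_iSup_eq, iSup_inf_eq]
            refine iSup_le fun i => ?_
            rcases Nat.lt_or_ge i n with hi | hi
            · refine ((inf_le_left.trans inf_le_right).trans inf_le_right).trans ?_
              rw [bmem_num]
              exact le_iSup₂_of_le i hi le_rfl
            · have h1 : (⨅ i, ⨅ _ : n ≤ i, (a α i ⊓ a β i)ᶜ) ⊓ (a α i ⊓ beq k (num i)) ⊓
                  bmem k (aN a β) ≤ (a α i ⊓ a β i) ⊓ (a α i ⊓ a β i)ᶜ := by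
                refine le_inf (le_inf ((inf_le_left.trans inf_le_right).trans inf_le_left) ?_)
                  ((inf_le_left.trans inf_le_left).trans (iInf₂_le i hi))
                have h2 := bmem_congr_left k (num i) (aN a β)
                rw [bmem_num_aN] at h2
                exact le_trans (le_inf ((inf_le_left.trans inf_le_right).trans inf_le_right)
                  inf_le_right) h2
              rw [inf_compl_eq_bot] at h1
              exact h1.trans bot_le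

end Pool.Agent.StarHur
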