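import Pool.Agent.MP_b1d3ea_lc.Order

/-!
# MP_b1d3ea_lc, module II6: the countable chain condition
-/

set_option autoImplicit false

namespace Pool.Agent.StarHur

open Classical

namespace CCCAux

open MeasureTheory ProbabilityTheory

/-- A family of finite partial functions `J → ℕ` which are pairwise incompatible is countable. -/
theorem countable_of_incompat {J ι : Type} (T : Set ι) (d : ι → Finset J) (v : ι → J → ℕ)
    (h : ∀ r ∈ T, ∀ r' ∈ T, r ≠ r' → ∃ j, j ∈ d r ∧ j ∈ d r' ∧ v r j ≠ v r' j) : T.Countable := by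
  obtain ⟨p, hp0, hp1⟩ : ∃ p : unitInterval, p ≠ 0 ∧ p ≠ 1 := by
    refine ⟨⟨1 / 2, by norm_num, by norm_num⟩, ?_, ?_⟩
    · intro h0
      have := congrArg Subtype.val h0
      norm_num at this
    · intro h0
      have := congrArg Subtype.val h0
      norm_num at this
  obtain ⟨ν, hν⟩ : ∃ ν : Measure (J → ℕ), ν = Measure.infinitePi (fun _ : J => geometricMeasure p) :=
    ⟨_, rfl⟩
  have hν' : IsProbabilityMeasure ν := by rw [hν]; infer_instance
  obtain ⟨A, hA⟩ : ∃ A : T → Set (J → ℕ), A = fun r => (d r.1 : Set J).pi fun j => {v r.1 j} :=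
    ⟨_, rfl⟩
  have hm : ∀ r, MeasurableSet (A r) := fun r => by
    rw [hA]
    exact MeasurableSet.pi (Finset.countable_toSet _) fun j _ => measurableSet_singleton _
  have hd : Pairwise (Function.onFun Disjoint A) := by
    intro r r' hne
    obtain ⟨j, h1, h2, h3⟩ := h r.1 r.2 r'.1 r'.2 fun hh => hne (Subtype.ext hh)
    rw [Function.onFun, Set.disjoint_left]
    intro x hx hx'
    rw [hA] at hx hx'
    exact h3 ((hx j h1).symm.trans (hx' j h2))
  have hc := Measure.countable_meas_pos_of_disjoint_iUnion (μ := ν) hm hd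
  have hall : {i : T | 0 < ν (A i)} = Set.univ := by
    rw [Set.eq_univ_iff_forall]
    intro r
    show 0 < ν (A r)
    rw [hA, hν, Measure.infinitePi_pi _ (fun j _ => measurableSet_singleton _)]
    refine pos_iff_ne_zero.2 (Finset.prod_ne_zero_iff.2 fun j _ => ?_)
    have h1 := geometricMeasure_real_singleton_pos hp0 hp1 (v r.1 j)
    rw [measureReal_def] at h1
    exact (ENNReal.toReal_pos_iff.1 h1).1.ne'
  rw [hall] at hc
  exact Set.countable_coe_iff.1 (Set.countable_univ_iff.1 hc)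

variable {K I : Type}

/-- the union of two conditions -/
noncomputable def un (r r' : Cond K I) (hn : r.n = r'.n) : Cond K I where
  D := r.D ∪ r'.D
  n := r.n
  a := fun α => r.a α ∪ r'.a α
  Z := r.Z ∪ r'.Z
  s := fun ζ => if ζ ∈ r.Z then r.s ζ else r'.s ζ
  E := fun ζ => r.E ζ ∪ r'.E ζ
  M := fun ζ => r.M ζ ∪ r'.M ζ
  ha := by
    intro α i hi
    rcases Finset.mem_union.1 hi with h | h
    · exact ⟨Finset.mem_union_left _ (r.ha α i h).1, (r.ha α i h).2⟩
    · exact ⟨Finset.mem_union_right _ (r'.ha α i h).1, by rw [hn]; exact (r'.ha α i h).2⟩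
  hE := by
    intro ζ α hα
    rcases Finset.mem_union.1 hα with h | h
    · exact Finset.mem_union_left _ (r.hE ζ α h)
    · exact Finset.mem_union_right _ (r'.hE ζ α h)
  hZ := by
    intro ζ hζ
    rw [Finset.mem_union, not_or] at hζ
    obtain ⟨h1, h2, h3⟩ := r.hZ ζ hζ.1
    obtain ⟨h1', h2', h3'⟩ := r'.hZ ζ hζ.2
    simp [hζ.1, h1', h2, h2', h3, h3']

end CCCAux

section

variable {K I : Type} [LinearOrder I] [WellFoundedLT I] (S : Sys K I)

namespace Sys

open OrderAux CCCAux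

/-- if `g` extends `q` without changing the stems of `q` -/
theorem LE_of_same {g q : Cond K I} (hg : S.LE ⊤ g Cond.triv) (hn : g.n = q.n) (hD : q.D ⊆ g.D)
    (ha : ∀ α ∈ q.D, g.a α = q.a α) (hs : ∀ ζ ∈ q.Z, g.s ζ = q.s ζ) (hE : ∀ ζ, q.E ζ ⊆ g.E ζ)
    (hM : ∀ ζ, q.M ζ ⊆ g.M ζ) : S.LE ⊤ g q := by
  rw [LE_iff]
  refine ⟨⟨hD, hn.ge, fun α hα i _ => by rw [ha α hα], fun α _ β _ _ i hi _ => ?_⟩, fun η hη => ?_⟩
  · rw [← hn]; exact (g.ha α i hi).2
  · by_cases hZ : η ∈ q.Z
    · refine ⟨by rw [hs η hZ], hE η, hM η, fun l k hl hk => ?_⟩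
      rw [hs η hZ, List.getElem?_eq_none hl] at hk
      exact absurd hk (by simp)
    · obtain ⟨h1, h2, h3⟩ := q.hZ η hZ
      refine ⟨by simp [h1], hE η, hM η, fun l k _ hk => ⟨by simp [h3],
        (S.le_triv_iff ⊤ g).1 hg η hη fun h0 => by simp [h0] at hk, fun α hα => ?_⟩⟩
      simp [h2] at hα

theorem ccc (𝒜 : Set (Cond K I)) (h1 : ∀ r ∈ 𝒜, S.LE ⊤ r Cond.triv)
    (h2 : ∀ r ∈ 𝒜, ∀ r' ∈ 𝒜, r ≠ r' → ¬ ∃ g, S.LE ⊤ g Cond.triv ∧ S.LE ⊤ g r ∧ S.LE ⊤ g r') :
    𝒜.Countable := by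
  refine countable_of_incompat (J := Option (K ⊕ I)) 𝒜 (fun r => Finset.insertNone (r.D.disjSum r.Z))
    (fun r j => match j with
      | none => r.n
      | some (Sum.inl α) => Encodable.encode (r.a α)
      | some (Sum.inr ζ) => Encodable.encode (r.s ζ)) ?_
  intro r hr r' hr' hne
  by_contra hcon
  simp only [not_exists, not_and, not_not] at hcon
  apply h2 r hr r' hr' hne
  have hn : r.n = r'.n := hcon none (by simp) (by simp)
  have ha : ∀ α, α ∈ r.D → α ∈ r'.D → r.a α = r'.a α := fun α h h' =>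
    Encodable.encode_injective (hcon (some (Sum.inl α)) (by simpa using h) (by simpa using h'))
  have hs : ∀ ζ, ζ ∈ r.Z → ζ ∈ r'.Z → r.s ζ = r'.s ζ := fun ζ h h' =>
    Encodable.encode_injective (hcon (some (Sum.inr ζ)) (by simpa using h) (by simpa using h'))
  have hg : S.LE ⊤ (un r r' hn) Cond.triv := by
    rw [le_triv_iff]
    intro η hη hs'
    simp only [un] at hs'
    split_ifs at hs' with h
    · exact (S.le_triv_iff ⊤ r).1 (h1 r hr) η hη hs'
    · exact (S.le_triv_iff ⊤ r').1 (h1 r' hr') η hη hs'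
  refine ⟨un r r' hn, hg, S.LE_of_same hg rfl Finset.subset_union_left ?_ ?_
    (fun ζ => Finset.subset_union_left) (fun ζ => Finset.subset_union_left),
    S.LE_of_same hg hn Finset.subset_union_right ?_ ?_
    (fun ζ => Finset.subset_union_right) (fun ζ => Finset.subset_union_right)⟩
  · intro α hα
    simp only [un]
    refine Finset.union_eq_left.2 fun i hi => ?_
    rw [ha α hα (r'.ha α i hi).1]
    exact hi
  · intro ζ hζ
    simp [un, hζ]
  · intro α hα
    simp only [un]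
    refine Finset.union_eq_right.2 fun i hi => ?_
    rw [← ha α (r.ha α i hi).1 hα]
    exact hi
  · intro ζ hζ
    by_cases h : ζ ∈ r.Z
    · simp only [un, h, if_true]
      exact hs ζ h hζ
    · simp [un, h]

end Sys

end

end Pool.Agent.StarHur
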