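import Pool.Agent.MP_b1d3ea_lc.AD

/-! # The cardinality of the family is at least b in the Boolean-valued model -/

set_option autoImplicit false

namespace Pool.Agent.StarHur

open Pool.Agent.BVM Classical

variable {𝔹 : Type} [CompleteBooleanAlgebra 𝔹]

namespace Card

open ADAux

theorem bPM_funN (u y : BSet 𝔹) (x : ℕ → ℕ) :
    bPM u y (funN x) = ⨆ m : ℕ, beq u (num m) ⊓ beq y (num (x m)) := by
  rw [bPM_eq, funN, bmem]
  refine iSup_congr fun m => ?_
  rw [top_inf_eq, beq_opair]

theorem bPM_funN_num (x : ℕ → ℕ) (n : ℕ) :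
    bPM (num n) (num (x n)) (funN x : BSet 𝔹) = ⊤ := by
  rw [bPM_funN, eq_top_iff]
  refine le_iSup_of_le n ?_
  rw [beq_refl, beq_refl, inf_top_eq]

theorem beq_funN {x x' : ℕ → ℕ} (h : x ≠ x') : beq (funN x : BSet 𝔹) (funN x') = ⊥ := by
  obtain ⟨n, hn⟩ := Function.ne_iff.1 h
  have h1 := bmem_congr_right (opair (num n) (num (x n))) (funN x : BSet 𝔹) (funN x')
  rw [← bPM_eq, ← bPM_eq, bPM_funN_num, inf_top_eq, bPM_funN] at h1
  rw [eq_bot_iff]
  refine h1.trans (iSup_le fun m => ?_)
  rw [beq_num, beq_num]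
  by_cases hm : n = m
  · subst hm
    rw [if_neg hn, inf_bot_eq]
  · rw [if_neg hm, bot_inf_eq]

theorem ext1_bPair3 (u y : BSet 𝔹) : Ext1 (fun p => bPair u y p) := by
  simp only [bPair_eq]
  exact ext1_beq_left _

theorem ext1_bFun (X Y : BSet 𝔹) : Ext1 (fun f => bFun f X Y) := by
  unfold bFun
  exact Ext1.inf (Ext1.iInf fun p => Ext1.himp (ext1_bmem_right p) (Ext1.const _))
    (Ext1.iInf fun x => Ext1.himp (Ext1.const _) (Ext1.iSup fun y => Ext1.inf (ext1_bPM3 x y)
      (Ext1.iInf fun y' => Ext1.himp (ext1_bPM3 x y') (Ext1.const _))))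

/-- values of functions `ω → ω` are numbers -/
theorem bFun_inf_bPM_le (h x y : BSet 𝔹) :
    bFun h omegaN omegaN ⊓ bPM x y h ≤ bmem y omegaN := by
  rw [bPM_eq]
  have h1 : bFun h omegaN omegaN ≤ bmem (opair x y) h ⇨
      ⨆ x', bmem x' omegaN ⊓ ⨆ y', bmem y' omegaN ⊓ bPair x' y' (opair x y) :=
    inf_le_left.trans (iInf_le _ _)
  rw [le_himp_iff] at h1
  refine h1.trans (iSup_le fun x' => ?_)
  rw [inf_iSup_eq]
  refine iSup_le fun y' => ?_
  rw [bPair_eq, beq_opair]
  have h2 := bmem_congr_left y' y (omegaN : BSet 𝔹)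
  refine le_trans ?_ h2
  rw [beq_symm y' y]
  exact le_inf ((inf_le_right.trans inf_le_right).trans inf_le_right)
    (inf_le_right.trans inf_le_left)

end Card

open Card ADAux

theorem bFun_funN (x : ℕ → ℕ) : bFun (funN x : BSet 𝔹) omegaN omegaN = ⊤ := by
  rw [bFun, eq_top_iff]
  refine le_inf (le_iInf fun p => ?_) ?_
  · rw [le_himp_iff, top_inf_eq]
    refine bmem_le_of_ext (f := fun p => ⨆ u, bmem u omegaN ⊓ ⨆ y, bmem y omegaN ⊓ bPair u y p)
      ?_ (fun n => ?_) p
    · exact Ext1.iSup fun u => Ext1.inf (Ext1.const _) (Ext1.iSup fun y =>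
        Ext1.inf (Ext1.const _) (ext1_bPair3 u y))
    · show ⊤ ≤ ⨆ u, bmem u omegaN ⊓ ⨆ y, bmem y omegaN ⊓ bPair u y (opair (num n) (num (x n)))
      refine le_iSup_of_le (num n) (le_inf (Omega.bmem_num_omegaN n).ge ?_)
      refine le_iSup_of_le (num (x n)) (le_inf (Omega.bmem_num_omegaN _).ge ?_)
      rw [bPair_eq, beq_refl]
  · rw [ball_omega (f := fun u => ⨆ y, bPM u y (funN x) ⊓
      ⨅ y', bPM u y' (funN x) ⇨ beq y' y) (Ext1.iSup fun y => Ext1.inf (ext1_bPM1 y _)
        (Ext1.iInf fun y' => Ext1.himp (ext1_bPM1 y' _) (Ext1.const _)))]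
    refine le_iInf fun n => le_iSup_of_le (num (x n)) (le_inf (bPM_funN_num x n).ge ?_)
    refine le_iInf fun y' => ?_
    rw [le_himp_iff, top_inf_eq, bPM_funN]
    refine iSup_le fun m => ?_
    rw [beq_num]
    split_ifs with h
    · subst h; exact inf_le_right
    · rw [bot_inf_eq]; exact bot_le

theorem bUnbounded_top {K : Type} {a : K → ℕ → 𝔹} (h : Core 𝔹 K a) :
    bUnbounded (omegaN : BSet 𝔹) groundN = ⊤ := by
  rw [bUnbounded, eq_top_iff]
  refine le_inf (le_iInf fun d => ?_) (le_iInf fun f => ?_)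
  · rw [le_himp_iff, top_inf_eq]
    refine bmem_le_of_ext (f := fun d => bFun d omegaN omegaN) (ext1_bFun _ _) (fun x => ?_) d
    exact (bFun_funN x).ge
  · rw [le_himp_iff, top_inf_eq]
    obtain ⟨Γ, hΓ⟩ : ∃ Γ : 𝔹, Γ = bFun f omegaN omegaN := ⟨_, rfl⟩
    rw [← hΓ]
    -- the values of `f`
    have htot : ∀ n : ℕ, Γ ≤ ⨆ m : ℕ, bPM (num n) (num m) f := by
      intro n
      have h1 : Γ ≤ ⨅ x, bmem x omegaN ⇨ ⨆ y, bPM x y f ⊓ ⨅ y', bPM x y' f ⇨ beq y' y := by
        rw [hΓ]; exact inf_le_right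
      have h2 := h1.trans (iInf_le _ (num n))
      rw [Omega.bmem_num_omegaN, top_himp] at h2
      refine (le_inf le_rfl h2).trans ?_
      rw [inf_iSup_eq]
      refine iSup_le fun y => ?_
      have h3 : Γ ⊓ (bPM (num n) y f ⊓ ⨅ y', bPM (num n) y' f ⇨ beq y' y) ≤
          bPM (num n) y f ⊓ bmem y omegaN := by
        refine le_inf (inf_le_right.trans inf_le_left) ?_
        refine le_trans ?_ (bFun_inf_bPM_le f (num n) y)
        rw [← hΓ]
        exact inf_le_inf_left _ inf_le_left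
      refine h3.trans ?_
      rw [bmem_omegaN, inf_iSup_eq]
      refine iSup_mono fun m => ?_
      rw [inf_comm]
      exact ext1_bPM2 (num n) f y (num m)
    have huniq : ∀ n m m' : ℕ, m ≠ m' → Γ ⊓ (bPM (num n) (num m) f ⊓ bPM (num n) (num m') f) = ⊥ := by
      intro n m m' hm
      have h1 : Γ ≤ ⨅ x, bmem x omegaN ⇨ ⨆ y, bPM x y f ⊓ ⨅ y', bPM x y' f ⇨ beq y' y := by
        rw [hΓ]; exact inf_le_right
      have h2 := h1.trans (iInf_le _ (num n))
      rw [Omega.bmem_num_omegaN, top_himp] at h2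
      rw [eq_bot_iff]
      refine (inf_le_inf_right _ h2).trans ?_
      rw [iSup_inf_eq]
      refine iSup_le fun y => ?_
      have h3 : (bPM (num n) y f ⊓ ⨅ y', bPM (num n) y' f ⇨ beq y' y) ⊓
          (bPM (num n) (num m) f ⊓ bPM (num n) (num m') f) ≤ beq (num m) y ⊓ beq y (num m') := by
        refine le_inf ?_ ?_
        · have h4 : (⨅ y', bPM (num n) y' f ⇨ beq y' y) ⊓ bPM (num n) (num m) f ≤
              beq (num m) y := by
            rw [← le_himp_iff]
            exact iInf_le _ (num m)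
          exact le_trans (le_inf (inf_le_left.trans inf_le_right)
            (inf_le_right.trans inf_le_left)) h4
        · have h4 : (⨅ y', bPM (num n) y' f ⇨ beq y' y) ⊓ bPM (num n) (num m') f ≤
              beq (num m') y := by
            rw [← le_himp_iff]
            exact iInf_le _ (num m')
          rw [beq_symm y]
          exact le_trans (le_inf (inf_le_left.trans inf_le_right)
            (inf_le_right.trans inf_le_right)) h4
      refine h3.trans ((beq_trans _ _ _).trans ?_)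
      rw [beq_num, if_neg hm]
    obtain ⟨x, hx⟩ := h.unb (fun n m => (Γ ⊓ bPM (num n) (num m) f) ⊔ (if m = 0 then Γᶜ else ⊥))
      (fun n => by
        rw [eq_top_iff]
        have h1 : (⊤ : 𝔹) ≤ Γ ⊔ Γᶜ := (sup_compl_eq_top).ge
        refine h1.trans (sup_le ?_ ?_)
        · refine (le_inf le_rfl (htot n)).trans ?_
          rw [inf_iSup_eq]
          exact iSup_mono fun m => le_sup_left
        · refine le_iSup_of_le 0 ?_
          rw [if_pos rfl]
          exact le_sup_right)
      (fun n m m' hm => by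
        rw [eq_bot_iff, inf_sup_left, inf_sup_right, inf_sup_right]
        refine sup_le (sup_le ?_ ?_) (sup_le ?_ ?_)
        · rw [← huniq n m m' hm]
          exact le_inf (inf_le_left.trans inf_le_left) (inf_le_inf inf_le_right inf_le_right)
        · split_ifs
          · have : Γᶜ ⊓ (Γ ⊓ bPM (num n) (num m') f) ≤ Γ ⊓ Γᶜ :=
              le_inf (inf_le_right.trans inf_le_left) inf_le_left
            rwa [inf_compl_eq_bot] at this
          · rw [bot_inf_eq]
        · split_ifs
          · have : (Γ ⊓ bPM (num n) (num m) f) ⊓ Γᶜ ≤ Γ ⊓ Γᶜ :=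
              inf_le_inf_right _ inf_le_left
            rwa [inf_compl_eq_bot] at this
          · rw [inf_bot_eq]
        · by_cases h0 : m = 0
          · rw [if_pos h0, if_neg (fun h1 => hm (h0.trans h1.symm)), inf_bot_eq]
          · rw [if_neg h0, bot_inf_eq])
    refine le_iSup_of_le (funN x) (le_inf ?_ ?_)
    · refine le_top.trans ?_
      rw [groundN, bmem]
      refine le_iSup_of_le x ?_
      rw [beq_refl, inf_top_eq]
    · rw [ball_omega (f := fun n => ⨆ k, bmem k omegaN ⊓ ((bmem k n)ᶜ ⊓ ⨆ p, ⨆ q,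
        bPM k p f ⊓ (bPM k q (funN x) ⊓ bmem p q)))
        (Ext1.iSup fun k => Ext1.inf (Ext1.const _) (Ext1.inf (Ext1.compl (ext1_bmem_right k))
          (Ext1.const _)))]
      refine le_iInf fun N => ?_
      have h1 : Γ ≤ Γ ⊓ ⨆ n, ⨆ _ : N ≤ n, ⨆ m, ⨆ _ : m < x n,
          ((Γ ⊓ bPM (num n) (num m) f) ⊔ (if m = 0 then Γᶜ else ⊥)) := by
        rw [hx N, inf_top_eq]
      refine h1.trans ?_
      rw [inf_iSup_eq]
      refine iSup_le fun n => ?_
      rw [inf_iSup_eq]
      refine iSup_le fun hn => ?_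
      rw [inf_iSup_eq]
      refine iSup_le fun m => ?_
      rw [inf_iSup_eq]
      refine iSup_le fun hm => ?_
      rw [inf_sup_left]
      refine sup_le ?_ ?_
      · refine le_iSup_of_le (num n) (le_inf (le_top.trans (Omega.bmem_num_omegaN n).ge)
          (le_inf ?_ ?_))
        · rw [bmem_num_num, if_neg (by omega), compl_bot]; exact le_top
        · refine le_iSup_of_le (num m) (le_iSup_of_le (num (x n)) (le_inf
            (inf_le_right.trans inf_le_right) (le_inf (le_top.trans (bPM_funN_num x n).ge) ?_)))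
          rw [bmem_num_num, if_pos hm]; exact le_top
      · have : Γ ⊓ (if m = 0 then Γᶜ else ⊥) ≤ ⊥ := by
          split_ifs
          · rw [inf_compl_eq_bot]
          · rw [inf_bot_eq]
        exact this.trans bot_le

namespace Card

/-- name of the injection of the ground model functions into the family -/
def injN {K : Type} (a : K → ℕ → 𝔹) (ι : (ℕ → ℕ) → K) : BSet 𝔹 :=
  ⟨ℕ → ℕ, fun x => opair (funN x) (aN a (ι x)), fun _ => ⊤⟩

theorem bPM_injN {K : Type} (a : K → ℕ → 𝔹) (ι : (ℕ → ℕ) → K) (u y : BSet 𝔹) :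
    bPM u y (injN a ι) = ⨆ x : ℕ → ℕ, beq u (funN x) ⊓ beq y (aN a (ι x)) := by
  rw [bPM_eq, injN, bmem]
  refine iSup_congr fun m => ?_
  rw [top_inf_eq, beq_opair]

end Card

theorem bCardGeB_top {K : Type} {a : K → ℕ → 𝔹} (h : Core 𝔹 K a) (ι : (ℕ → ℕ) → K)
    (hι : Function.Injective ι) : bCardGeB (omegaN : BSet 𝔹) (famN a) = ⊤ := by
  rw [bCardGeB, eq_top_iff]
  refine le_iSup_of_le groundN (le_inf (bUnbounded_top h).ge ?_)
  refine le_iSup_of_le (injN a ι) (le_inf ?_ ?_)
  · rw [bFun]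
    refine le_inf (le_iInf fun p => ?_) (le_iInf fun u => ?_)
    · rw [le_himp_iff, top_inf_eq]
      refine bmem_le_of_ext (f := fun p => ⨆ u, bmem u groundN ⊓
        ⨆ y, bmem y (famN a) ⊓ bPair u y p) ?_ (fun x => ?_) p
      · exact Ext1.iSup fun u => Ext1.inf (Ext1.const _) (Ext1.iSup fun y =>
          Ext1.inf (Ext1.const _) (ext1_bPair3 u y))
      · show ⊤ ≤ ⨆ u, bmem u groundN ⊓ ⨆ y, bmem y (famN a) ⊓
          bPair u y (opair (funN x) (aN a (ι x)))
        refine le_iSup_of_le (funN x) (le_inf ?_ (le_iSup_of_le (aN a (ι x)) (le_inf ?_ ?_)))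
        · rw [groundN, bmem]
          refine le_iSup_of_le x ?_
          rw [beq_refl, inf_top_eq]
        · rw [bmem_famN]
          exact le_iSup_of_le (ι x) (beq_refl _).ge
        · rw [bPair_eq, beq_refl]
    · rw [le_himp_iff, top_inf_eq]
      refine bmem_le_of_ext (f := fun u => ⨆ y, bPM u y (injN a ι) ⊓
        ⨅ y', bPM u y' (injN a ι) ⇨ beq y' y) ?_ (fun x => ?_) u
      · exact Ext1.iSup fun y => Ext1.inf (ext1_bPM1 y _)
          (Ext1.iInf fun y' => Ext1.himp (ext1_bPM1 y' _) (Ext1.const _))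
      · show ⊤ ≤ ⨆ y, bPM (funN x) y (injN a ι) ⊓
          ⨅ y', bPM (funN x) y' (injN a ι) ⇨ beq y' y
        refine le_iSup_of_le (aN a (ι x)) (le_inf ?_ (le_iInf fun y' => ?_))
        · rw [bPM_injN]
          refine le_iSup_of_le x ?_
          rw [beq_refl, beq_refl, inf_top_eq]
        · rw [le_himp_iff, top_inf_eq, bPM_injN]
          refine iSup_le fun x' => ?_
          by_cases hx : x = x'
          · subst hx; exact inf_le_right
          · rw [beq_funN hx, bot_inf_eq]; exact bot_le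
  · refine le_iInf fun u => le_iInf fun v => le_iInf fun z => ?_
    rw [le_himp_iff, top_inf_eq, le_himp_iff, bPM_injN, bPM_injN, iSup_inf_eq]
    refine iSup_le fun x => ?_
    rw [inf_iSup_eq]
    refine iSup_le fun x' => ?_
    by_cases hx : x = x'
    · subst hx
      refine le_trans ?_ (beq_trans u (funN x) v)
      rw [beq_symm (funN x) v]
      exact le_inf (inf_le_left.trans inf_le_left) (inf_le_right.trans inf_le_left)
    · have h1 : (beq u (funN x) ⊓ beq z (aN a (ι x))) ⊓ (beq v (funN x') ⊓ beq z (aN a (ι x'))) ≤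
          beq (aN a (ι x)) (aN a (ι x')) := by
        refine le_trans ?_ (beq_trans (aN a (ι x)) z (aN a (ι x')))
        rw [beq_symm (aN a (ι x)) z]
        exact le_inf (inf_le_left.trans inf_le_right) (inf_le_right.trans inf_le_right)
      rw [beq_aN h (fun he => hx (hι he))] at h1
      exact h1.trans bot_le

end Pool.Agent.StarHur
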