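import Pool.Agent.MP_b1d3ea_lc.Defs

/-!
# Closures are countable; countably many conditions over a countable set
-/

set_option autoImplicit false

namespace Pool.Agent.StarHur

open Classical

namespace ClCount

/-- closure of a countable set under a countable-valued binary operation -/
theorem exists_closed {T : Type} (G : T → T → Set T) (hG : ∀ p q, (G p q).Countable) {e : Set T}
    (he : e.Countable) : ∃ X : Set T, e ⊆ X ∧ X.Countable ∧ ∀ p ∈ X, ∀ q ∈ X, G p q ⊆ X := by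
  let step : Set T → Set T := fun X => X ∪ ⋃ p ∈ X, ⋃ q ∈ X, G p q
  let It : ℕ → Set T := fun n => step^[n] e
  have hs : ∀ n, It (n + 1) = step (It n) := fun n => Function.iterate_succ_apply' step n e
  have hc : ∀ n, (It n).Countable := by
    intro n
    induction n with
    | zero => exact he
    | succ n ih =>
      rw [hs]
      exact ih.union (ih.biUnion fun p _ => ih.biUnion fun q _ => hG p q)
  have hm : Monotone It := by
    apply monotone_nat_of_le_succ
    intro n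
    rw [hs]
    exact Set.subset_union_left
  refine ⟨⋃ n, It n, Set.subset_iUnion It 0, Set.countable_iUnion hc, ?_⟩
  intro p hp q hq x hx
  obtain ⟨m, hm1⟩ := Set.mem_iUnion.1 hp
  obtain ⟨k, hk1⟩ := Set.mem_iUnion.1 hq
  refine Set.mem_iUnion.2 ⟨max m k + 1, ?_⟩
  rw [hs]
  right
  exact Set.mem_biUnion (hm (le_max_left m k) hm1) (Set.mem_biUnion (hm (le_max_right m k) hk1) hx)

variable {K I : Type}

/-- new elements from the support of a code -/
def supp (c : Code K I) (α : K) : Set (K ⊕ I) :=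
  (⋃ l, ⋃ k, Sum.inl '' (((c α l k).1.D : Finset K) : Set K)) ∪
    ⋃ l, ⋃ k, Sum.inr '' (((c α l k).1.Z : Finset I) : Set I)

theorem supp_countable (c : Code K I) (α : K) : (supp c α).Countable :=
  (Set.countable_iUnion fun _ => Set.countable_iUnion fun _ =>
    ((Finset.countable_toSet _).image _)).union
  (Set.countable_iUnion fun _ => Set.countable_iUnion fun _ =>
    ((Finset.countable_toSet _).image _))

theorem mem_supp_D {c : Code K I} {α : K} {l k : ℕ} {β : K} (h : β ∈ (c α l k).1.D) :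
    (Sum.inl β : K ⊕ I) ∈ supp c α :=
  Or.inl (Set.mem_iUnion.2 ⟨l, Set.mem_iUnion.2 ⟨k, β, h, rfl⟩⟩)

theorem mem_supp_Z {c : Code K I} {α : K} {l k : ℕ} {ξ : I} (h : ξ ∈ (c α l k).1.Z) :
    (Sum.inr ξ : K ⊕ I) ∈ supp c α :=
  Or.inr (Set.mem_iUnion.2 ⟨l, Set.mem_iUnion.2 ⟨k, ξ, h, rfl⟩⟩)

/-- the operation -/
def G (code : I → Code K I) (H : I → ℕ → K) (ζ : Option I) : K ⊕ I → K ⊕ I → Set (K ⊕ I)
  | Sum.inr η, Sum.inr _ => Set.range fun k => Sum.inl (H η k)
  | Sum.inr η, Sum.inl α => supp (code η) α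
  | Sum.inl α, Sum.inl _ => ζ.elim ∅ fun z => supp (code z) α
  | Sum.inl _, Sum.inr _ => ∅

theorem G_countable (code : I → Code K I) (H : I → ℕ → K) (ζ : Option I) (p q : K ⊕ I) :
    (G code H ζ p q).Countable := by
  rcases p with α | η <;> rcases q with β | ξ
  · cases ζ with
    | none => simp [G]
    | some z => simpa [G] using supp_countable (code z) α
  · simp [G]
  · simpa [G] using supp_countable (code η) β
  · simpa [G] using Set.countable_range _

/-- countably many finite subsets -/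
theorem finsets_countable {T : Type} {A : Set T} (hA : A.Countable) :
    {F : Finset T | (F : Set T) ⊆ A}.Countable := by
  have h := Set.countable_ofPred_finite_subset hA
  refine Set.MapsTo.countable_of_injOn (f := fun F : Finset T => (F : Set T)) ?_ ?_ h
  · intro F hF
    exact ⟨F.finite_toSet, hF⟩
  · exact Finset.coe_injective.injOn

end ClCount

theorem Cl_countable {K I : Type} [LinearOrder I] (code : I → Code K I)
    (H : I → ℕ → K) (ζ : I) {e : Set (K ⊕ I)} (he : e.Countable) :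
    {x | Cl code H ζ e x}.Countable := by
  obtain ⟨X, heX, hX, hcl⟩ := ClCount.exists_closed (ClCount.G code H (some ζ))
    (ClCount.G_countable code H (some ζ)) he
  refine hX.mono ?_
  intro x hx
  induction hx with
  | base h => exact heX h
  | @node η h _ k ih => exact hcl _ ih _ ih ⟨k, rfl⟩
  | @suppK η α h _ _ l k β hβ ih1 ih2 => exact hcl _ ih1 _ ih2 (ClCount.mem_supp_D hβ)
  | @suppI η α h _ _ l k ξ hξ _ ih1 ih2 => exact hcl _ ih1 _ ih2 (ClCount.mem_supp_Z hξ)
  | @topK α _ l k β hβ ih => exact hcl _ ih _ ih (ClCount.mem_supp_D hβ)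
  | @topI α _ l k ξ hξ _ ih => exact hcl _ ih _ ih (ClCount.mem_supp_Z hξ)

section

variable {K I : Type} [LinearOrder I] [WellFoundedLT I] (S : Sys K I)

namespace Sys

theorem exists_closed_countable {e : Set (K ⊕ I)} (he : e.Countable) :
    ∃ X : Set (K ⊕ I), e ⊆ X ∧ X.Countable ∧ S.Closed X := by
  obtain ⟨X, heX, hX, hcl⟩ := ClCount.exists_closed (ClCount.G S.code S.H none)
    (ClCount.G_countable S.code S.H none) he
  refine ⟨X, heX, hX, ?_, ?_⟩
  · intro η hη k
    exact hcl _ hη _ hη ⟨k, rfl⟩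
  · intro η α hη hα l k
    exact ⟨fun β hβ => hcl _ hη _ hα (ClCount.mem_supp_D hβ),
      fun ξ hξ _ => hcl _ hη _ hα (ClCount.mem_supp_Z hξ)⟩

theorem countable_conds {X : Set (K ⊕ I)} (hX : X.Countable) :
    {r : Cond K I | (∀ α ∈ r.D, Sum.inl α ∈ X) ∧ ∀ η ∈ r.Z, Sum.inr η ∈ X}.Countable := by
  have hXK : {α : K | (Sum.inl α : K ⊕ I) ∈ X}.Countable :=
    hX.preimage_of_injOn Sum.inl_injective.injOn
  have hXI : {η : I | (Sum.inr η : K ⊕ I) ∈ X}.Countable :=
    hX.preimage_of_injOn Sum.inr_injective.injOn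
  have h1 := ClCount.finsets_countable hXK
  have h3 : {F : Finset (K × ℕ) | (F : Set (K × ℕ)) ⊆
      {α : K | (Sum.inl α : K ⊕ I) ∈ X} ×ˢ (Set.univ : Set ℕ)}.Countable :=
    ClCount.finsets_countable (hXK.prod Set.countable_univ)
  have h5 : {F : Finset (I × (List ℕ × Finset K × Finset ℕ)) |
      (F : Set (I × (List ℕ × Finset K × Finset ℕ))) ⊆
      {η : I | (Sum.inr η : K ⊕ I) ∈ X} ×ˢ ((Set.univ : Set (List ℕ)) ×ˢ
        ({F : Finset K | (F : Set K) ⊆ {α : K | (Sum.inl α : K ⊕ I) ∈ X}} ×ˢ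
          (Set.univ : Set (Finset ℕ))))}.Countable :=
    ClCount.finsets_countable (hXI.prod (Set.countable_univ.prod (h1.prod Set.countable_univ)))
  refine Set.MapsTo.countable_of_injOn
    (f := fun r : Cond K I => (r.n, (r.D ×ˢ Finset.range r.n).filter (fun p => p.2 ∈ r.a p.1),
      r.D, r.Z.image fun ζ => (ζ, (r.s ζ, r.E ζ, r.M ζ)))) ?_ ?_
    ((Set.countable_univ (α := ℕ)).prod (h3.prod (h1.prod h5)))
  · intro r hr
    refine ⟨Set.mem_univ _, ?_, ?_, ?_⟩
    · intro p hp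
      have hp' := (Finset.mem_filter.1 (Finset.mem_coe.1 hp)).1
      exact ⟨hr.1 _ (Finset.mem_product.1 hp').1, Set.mem_univ _⟩
    · intro α hα
      exact hr.1 α (Finset.mem_coe.1 hα)
    · intro p hp
      obtain ⟨ζ, hζ, rfl⟩ := Finset.mem_image.1 (Finset.mem_coe.1 hp)
      refine ⟨hr.2 ζ hζ, Set.mem_univ _, ?_, Set.mem_univ _⟩
      intro α hα
      exact hr.1 α (r.hE ζ α (Finset.mem_coe.1 hα))
  · intro r hr r' hr' h
    simp only [Prod.mk.injEq] at h
    obtain ⟨hn, ha, hD, hZ⟩ := h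
    have hmem : ∀ ζ, ζ ∈ r.Z → ζ ∈ r'.Z ∧ r.s ζ = r'.s ζ ∧ r.E ζ = r'.E ζ ∧ r.M ζ = r'.M ζ := by
      intro ζ hζ
      have h1 : (ζ, (r.s ζ, r.E ζ, r.M ζ)) ∈ r'.Z.image fun ζ => (ζ, (r'.s ζ, r'.E ζ, r'.M ζ)) := by
        rw [← hZ]
        exact Finset.mem_image.2 ⟨ζ, hζ, rfl⟩
      obtain ⟨ζ', hζ', he⟩ := Finset.mem_image.1 h1
      simp only [Prod.mk.injEq] at he
      obtain ⟨rfl, e1, e2, e3⟩ := he
      exact ⟨hζ', e1.symm, e2.symm, e3.symm⟩
    have hmem' : ∀ ζ, ζ ∈ r'.Z → ζ ∈ r.Z := by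
      intro ζ hζ
      have h1 : (ζ, (r'.s ζ, r'.E ζ, r'.M ζ)) ∈ r.Z.image fun ζ => (ζ, (r.s ζ, r.E ζ, r.M ζ)) := by
        rw [hZ]
        exact Finset.mem_image.2 ⟨ζ, hζ, rfl⟩
      obtain ⟨ζ', hζ', he⟩ := Finset.mem_image.1 h1
      simp only [Prod.mk.injEq] at he
      obtain ⟨rfl, -⟩ := he
      exact hζ'
    have hall : ∀ ζ, r.s ζ = r'.s ζ ∧ r.E ζ = r'.E ζ ∧ r.M ζ = r'.M ζ := by
      intro ζ
      by_cases hζ : ζ ∈ r.Z
      · exact (hmem ζ hζ).2
      · have hζ' : ζ ∉ r'.Z := fun h => hζ (hmem' ζ h)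
        obtain ⟨e1, e2, e3⟩ := r.hZ ζ hζ
        obtain ⟨f1, f2, f3⟩ := r'.hZ ζ hζ'
        exact ⟨e1.trans f1.symm, e2.trans f2.symm, e3.trans f3.symm⟩
    have haa : r.a = r'.a := by
      funext α
      ext i
      have key : ∀ q : Cond K I, i ∈ q.a α ↔
          (α, i) ∈ (q.D ×ˢ Finset.range q.n).filter (fun p => p.2 ∈ q.a p.1) := by
        intro q
        simp only [Finset.mem_filter, Finset.mem_product, Finset.mem_range]
        exact ⟨fun h => ⟨q.ha α i h, h⟩, fun h => h.2⟩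
      rw [key r, key r', ha]
    have hZZ : r.Z = r'.Z := by
      ext ζ
      exact ⟨fun h => (hmem ζ h).1, hmem' ζ⟩
    have hss : r.s = r'.s := funext fun ζ => (hall ζ).1
    have hEE : r.E = r'.E := funext fun ζ => (hall ζ).2.1
    have hMM : r.M = r'.M := funext fun ζ => (hall ζ).2.2
    cases r
    cases r'
    simp only at hn hD haa hZZ hss hEE hMM
    subst hn hD haa hZZ hss hEE hMM
    rfl

end Sys

end

end Pool.Agent.StarHur
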