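import Mathlib

/-! # Module II10: the regular open algebra of a preorder -/

set_option autoImplicit false

namespace Pool.Agent.StarHur

open Classical

namespace RO

variable (P : Type) [Preorder P]

/-- The algebra of regular lower sets. -/
abbrev Alg := Heyting.Regular (LowerSet P)

noncomputable instance completeBooleanAlgebra : CompleteBooleanAlgebra (Alg P) where
  __ := (inferInstance : BooleanAlgebra (Heyting.Regular (LowerSet P)))
  sSup s := Heyting.Regular.toRegular (sSup (Heyting.Regular.val '' s))
  sInf s := Heyting.Regular.toRegular (sInf (Heyting.Regular.val '' s))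
  isLUB_sSup s := by
    constructor
    · intro a ha
      have h : (a : LowerSet P) ≤ sSup (Heyting.Regular.val '' s) := le_sSup ⟨a, ha, rfl⟩
      exact (Heyting.Regular.toRegular_coe a).symm.le.trans (Heyting.Regular.toRegular.monotone h)
    · intro b hb
      apply (Heyting.Regular.gi.gc _ _).mpr
      apply sSup_le
      rintro _ ⟨a, ha, rfl⟩
      exact hb ha
  isGLB_sInf s := by
    constructor
    · intro a ha
      apply (Heyting.Regular.gi.gc _ _).mpr
      exact sInf_le ⟨a, ha, rfl⟩
    · intro b hb
      have h : (b : LowerSet P) ≤ sInf (Heyting.Regular.val '' s) := by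
        apply le_sInf
        rintro _ ⟨a, ha, rfl⟩
        exact hb ha
      exact (Heyting.Regular.toRegular_coe b).symm.le.trans (Heyting.Regular.toRegular.monotone h)
  le_top a := le_top
  bot_le a := bot_le

end RO

theorem exists_RO (P : Type) [Preorder P] : ∃ (𝔹 : Type) (_ : CompleteBooleanAlgebra 𝔹) (e : P → 𝔹),
    (∀ p, e p ≠ ⊥) ∧ (∀ p q, p ≤ q → e p ≤ e q) ∧ (∀ b : 𝔹, b ≠ ⊥ → ∃ p, e p ≤ b) ∧
    ∀ p q, e p ⊓ e q ≠ ⊥ → ∃ r, r ≤ p ∧ r ≤ q := by
  refine ⟨RO.Alg P, RO.completeBooleanAlgebra P,
    fun p => Heyting.Regular.toRegular (LowerSet.Iic p), ?_, ?_, ?_, ?_⟩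
  · intro p h
    have h1 : (Heyting.Regular.toRegular (LowerSet.Iic p) : Heyting.Regular (LowerSet P)).val =
        (⊥ : LowerSet P) := congrArg Heyting.Regular.val h
    have h2 : LowerSet.Iic p ≤ (⊥ : LowerSet P) := by
      rw [← h1]
      exact le_compl_compl
    have h3 : p ∈ (⊥ : LowerSet P) := h2 (le_refl p)
    exact h3
  · intro p q hpq
    exact Heyting.Regular.toRegular.monotone (LowerSet.Iic_le.mpr hpq)
  · intro b hb
    have hne : ∃ p, p ∈ b.val := by
      by_contra hcon
      push Not at hcon
      apply hb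
      apply Heyting.Regular.coe_injective
      change b.val = (⊥ : LowerSet P)
      ext p
      constructor
      · intro hp; exact absurd hp (hcon p)
      · intro hp; exact absurd hp (by simp)
    obtain ⟨p, hp⟩ := hne
    refine ⟨p, (Heyting.Regular.gi.gc _ _).mpr ?_⟩
    exact LowerSet.Iic_le.mpr hp
  · intro p q hpq
    by_contra hcon
    push Not at hcon
    apply hpq
    apply Heyting.Regular.coe_injective
    change (LowerSet.Iic p)ᶜᶜ ⊓ (LowerSet.Iic q)ᶜᶜ = (⊥ : LowerSet P)
    rw [← compl_compl_inf_distrib]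
    have h1 : LowerSet.Iic p ⊓ LowerSet.Iic q = (⊥ : LowerSet P) := by
      ext r
      constructor
      · rintro ⟨h2, h3⟩
        exact absurd h3 (hcon r h2)
      · intro hp; exact absurd hp (by simp)
    rw [h1, compl_bot, compl_top]

end Pool.Agent.StarHur
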