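import Pool.Agent.MP_b1d3ea_lc.Decide

/-!
# Extending a stem by one entry (module II5)
-/

set_option autoImplicit false

namespace Pool.Agent.StarHur

open Classical

section

variable {K I : Type} [LinearOrder I] [WellFoundedLT I] (S : Sys K I)

namespace Sys

namespace Stem

/-- Two conditions agree below `ζ`. -/
structure Agree (ζ : WithTop I) (g g' : Cond K I) : Prop where
  D : g.D = g'.D
  n : g.n = g'.n
  a : ∀ α, g.a α = g'.a α
  s : ∀ η : I, (η : WithTop I) < ζ → g.s η = g'.s η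
  E : ∀ η : I, (η : WithTop I) < ζ → g.E η = g'.E η
  M : ∀ η : I, (η : WithTop I) < ζ → g.M η = g'.M η

omit [WellFoundedLT I] in
theorem Agree.symm {ζ : WithTop I} {g g' : Cond K I} (h : Agree ζ g g') : Agree ζ g' g :=
  ⟨h.D.symm, h.n.symm, fun α => (h.a α).symm, fun η hη => (h.s η hη).symm,
    fun η hη => (h.E η hη).symm, fun η hη => (h.M η hη).symm⟩

omit [WellFoundedLT I] in
theorem Agree.mono {ζ ξ : WithTop I} {g g' : Cond K I} (h : Agree ζ g g') (hξ : ξ ≤ ζ) :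
    Agree ξ g g' :=
  ⟨h.D, h.n, h.a, fun η hη => h.s η (lt_of_lt_of_le hη hξ),
    fun η hη => h.E η (lt_of_lt_of_le hη hξ), fun η hη => h.M η (lt_of_lt_of_le hη hξ)⟩

theorem LE_congr_left {ζ : WithTop I} : ∀ {g g' q : Cond K I}, Agree ζ g g' →
    S.LE ζ g q → S.LE ζ g' q := by
  induction ζ using WellFoundedLT.induction with
  | _ ζ ih =>
    intro g g' q hg h
    rw [S.LE_iff] at h ⊢
    obtain ⟨⟨hD, hn, ha, had⟩, hS⟩ := h
    refine ⟨⟨?_, ?_, ?_, ?_⟩, ?_⟩
    · rw [← hg.D]; exact hD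
    · rw [← hg.n]; exact hn
    · intro α hα i hi
      rw [← hg.a]
      exact ha α hα i hi
    · intro α hα β hβ hαβ i hi hi'
      rw [← hg.a] at hi hi'
      exact had α hα β hβ hαβ i hi hi'
    · intro η hη
      obtain ⟨h1, h2, h3, h4⟩ := hS η hη
      refine ⟨?_, ?_, ?_, ?_⟩
      · rw [← hg.s η hη]; exact h1
      · rw [← hg.E η hη]; exact h2
      · rw [← hg.M η hη]; exact h3
      · intro l k hl hk
        rw [← hg.s η hη] at hk
        obtain ⟨h5, h6, h7⟩ := h4 l k hl hk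
        refine ⟨h5, h6, ?_⟩
        intro α hα hα'
        obtain ⟨i, hi1, hi2, ⟨k1, hi3, hi3'⟩, ⟨k2, hi4, hi4'⟩⟩ := h7 α hα hα'
        refine ⟨i, ?_, ?_, ⟨k1, ih _ hη (hg.mono hη.le) hi3, hi3'⟩,
          ⟨k2, ih _ hη (hg.mono hη.le) hi4, hi4'⟩⟩
        · rw [← hg.a]; exact hi1
        · rw [← hg.a]; exact hi2

theorem LE_congr_right {ζ : WithTop I} {g q q' : Cond K I} (hq : Agree ζ q q')
    (h : S.LE ζ g q) : S.LE ζ g q' := by
  rw [S.LE_iff] at h ⊢
  obtain ⟨⟨hD, hn, ha, had⟩, hS⟩ := h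
  refine ⟨⟨?_, ?_, ?_, ?_⟩, ?_⟩
  · rw [← hq.D]; exact hD
  · rw [← hq.n]; exact hn
  · intro α hα i hi
    rw [← hq.a]
    rw [← hq.D] at hα
    rw [← hq.n] at hi
    exact ha α hα i hi
  · intro α hα β hβ hαβ i hi hi'
    rw [← hq.D] at hα hβ
    rw [← hq.n]
    exact had α hα β hβ hαβ i hi hi'
  · intro η hη
    obtain ⟨h1, h2, h3, h4⟩ := hS η hη
    refine ⟨?_, ?_, ?_, ?_⟩
    · rw [← hq.s η hη]; exact h1
    · rw [← hq.E η hη]; exact h2
    · rw [← hq.M η hη]; exact h3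
    · intro l k hl hk
      rw [← hq.s η hη] at hl
      rw [← hq.M η hη, ← hq.E η hη]
      exact h4 l k hl hk

/-- The condition `g` below `ζ`, with `(s₀, E₀, M₀)` at `ζ` and `r` above `ζ`. -/
noncomputable def glue (ζ : I) (g r : Cond K I) (s₀ : List ℕ) (E₀ : Finset K) (M₀ : Finset ℕ)
    (hE₀ : E₀ ⊆ g.D) (hr : r.D ⊆ g.D) : Cond K I where
  D := g.D
  n := g.n
  a := g.a
  Z := (g.Z.filter (· < ζ)) ∪ insert ζ (r.Z.filter (ζ < ·))
  s := fun η => if η < ζ then g.s η else if η = ζ then s₀ else r.s η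
  E := fun η => if η < ζ then g.E η else if η = ζ then E₀ else r.E η
  M := fun η => if η < ζ then g.M η else if η = ζ then M₀ else r.M η
  ha := g.ha
  hE := by
    intro η α hα
    split_ifs at hα with h1 h2
    · exact g.hE η α hα
    · exact hE₀ hα
    · exact hr (r.hE η α hα)
  hZ := by
    intro η hη
    simp only [Finset.mem_union, Finset.mem_filter, Finset.mem_insert, not_or, not_and] at hη
    obtain ⟨h1, h2, h3⟩ := hη
    by_cases h4 : η < ζ
    · have h5 : η ∉ g.Z := fun h => h1 h h4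
      simpa [h4] using g.hZ η h5
    · have h6 : ζ < η := lt_of_le_of_ne (not_lt.1 h4) (Ne.symm h2)
      have h5 : η ∉ r.Z := fun h => h3 h h6
      simpa [h4, h2] using r.hZ η h5

omit [WellFoundedLT I] in
theorem glue_agree (ζ : I) (g r : Cond K I) (s₀ : List ℕ) (E₀ : Finset K) (M₀ : Finset ℕ)
    (hE₀ : E₀ ⊆ g.D) (hr : r.D ⊆ g.D) : Agree (ζ : WithTop I) g (glue ζ g r s₀ E₀ M₀ hE₀ hr) := by
  refine ⟨rfl, rfl, fun α => rfl, ?_, ?_, ?_⟩
  all_goals
    intro η hη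
    have hη' : η < ζ := WithTop.coe_lt_coe.1 hη
    simp [glue, hη']

omit [WellFoundedLT I] in
theorem mem_finset_of_domLt (ζ : WithTop I) (r : Cond K I) :
    ∃ e : Finset (K ⊕ I), (e : Set (K ⊕ I)) = domLt ζ r ∧
      ∀ η, Sum.inr η ∈ e → (η : WithTop I) < ζ := by
  refine ⟨r.D.image Sum.inl ∪ (r.Z.filter (fun η : I => (η : WithTop I) < ζ)).image Sum.inr, ?_, ?_⟩
  · ext x
    simp only [Finset.coe_union, Finset.coe_image, Finset.coe_filter, Set.mem_union, Set.mem_image,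
      Set.mem_ofPred_eq, domLt, Finset.mem_coe]
    constructor
    · rintro (⟨α, hα, rfl⟩ | ⟨η, ⟨hη, hη'⟩, rfl⟩)
      · exact Or.inl ⟨α, hα, rfl⟩
      · exact Or.inr ⟨η, hη, hη', rfl⟩
    · rintro (⟨α, hα, rfl⟩ | ⟨η, hη, hη', rfl⟩)
      · exact Or.inl ⟨α, hα, rfl⟩
      · exact Or.inr ⟨η, ⟨hη, hη'⟩, rfl⟩
  · intro η hη
    simp only [Finset.mem_union, Finset.mem_image, Finset.mem_filter, reduceCtorEq, and_false,
      exists_false, Sum.inr.injEq, exists_eq_right, false_or] at hη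
    exact hη.2

end Stem

open Stem

theorem stem_extend {ζ : I} (hA : S.Act ζ) {r : Cond K I} (hr : S.LE ⊤ r Cond.triv) :
    ∃ r', S.LE ⊤ r' Cond.triv ∧ S.LE ⊤ r' r ∧ (r'.s ζ).length = (r.s ζ).length + 1 := by
  -- the closure of the coordinates of `r` below `ζ`
  obtain ⟨e, he, he'⟩ := mem_finset_of_domLt (ζ : WithTop I) r
  have he'' : ∀ η, Sum.inr η ∈ e → η < ζ := fun η hη => WithTop.coe_lt_coe.1 (he' η hη)
  set W : Set (K ⊕ I) := {x | Cl S.code S.H ζ (domLt (ζ : WithTop I) r) x} with hWdef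
  have hdom : ∀ η, Sum.inr η ∈ domLt (ζ : WithTop I) r → η < ζ := by
    intro η hη
    rw [← he] at hη
    exact he'' η hη
  have hWc : S.Closed W := S.Cl_closed ζ hdom
  have hWt : S.TopClosed ζ W := S.Cl_topClosed ζ _
  have hfin := S.ad ζ e he''
  rw [he] at hfin
  obtain ⟨k, hk⟩ := (hfin.union (r.M ζ).finite_toSet).exists_notMem
  rw [Set.mem_union, not_or] at hk
  obtain ⟨hkW, hkM⟩ := hk
  set X : Set (K ⊕ I) := {x | Cl S.code S.H ζ {Sum.inl (S.H ζ k)} x} with hXdef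
  have hX0 : ∀ η, (Sum.inr η : K ⊕ I) ∈ ({Sum.inl (S.H ζ k)} : Set (K ⊕ I)) → η < ζ := by
    intro η hη
    simp at hη
  have hXc : S.Closed X := S.Cl_closed ζ hX0
  have hXt : S.TopClosed ζ X := S.Cl_topClosed ζ _
  have hkX : Sum.inl (S.H ζ k) ∈ X := Cl.base (Set.mem_singleton _)
  have hrζ : S.LE (ζ : WithTop I) r Cond.triv := S.LE_mono le_top hr
  -- decide the relevant values
  obtain ⟨g1, N, hg1, hg1r, hdec⟩ := S.exists_dec hA hrζ
    (insert (S.H ζ k, (r.s ζ).length) ((r.E ζ).image fun α => (α, (r.s ζ).length)))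
  have hdk := hdec (S.H ζ k, (r.s ζ).length) (Finset.mem_insert_self _ _)
  have hdα : ∀ α ∈ r.E ζ, α ∈ g1.D ∧ S.Dec ζ g1 α (r.s ζ).length N := fun α hα =>
    hdec (α, (r.s ζ).length) (Finset.mem_insert_of_mem (Finset.mem_image_of_mem _ hα))
  have hrD : ∀ α ∈ r.D, Sum.inl α ∈ W := fun α hα => Cl.base (Or.inl ⟨α, hα, rfl⟩)
  have hrZ : ∀ η ∈ r.Z, (η : WithTop I) < ζ → Sum.inr η ∈ W := fun η hη hη' =>
    Cl.base (Or.inr ⟨η, hη, hη', rfl⟩)
  have hEp : ∀ α ∈ r.E ζ, α ∉ S.Hp ζ → Sum.inl α ∉ X := by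
    intro α _ hα hαX
    exact hα ⟨k, hαX⟩
  obtain ⟨g2, hg2, hg2W, hg2X, hcom⟩ := S.free_amalg W X hg1
    (((r.E ζ).filter (fun α => α ∉ S.Hp ζ)).image fun α => (α, S.H ζ k)) (by
      intro p hp
      rw [Finset.mem_image] at hp
      obtain ⟨α, hα, rfl⟩ := hp
      rw [Finset.mem_filter] at hα
      exact ⟨(hdα α hα.1).1, hdk.1, hrD α (r.hE ζ α hα.1), hEp α hα.1 hα.2, hkX, hkW⟩) N
  have hg2r : S.LE (ζ : WithTop I) g2 r := S.LE_trans hg2W (S.restr_le hWc hrD hrZ hg1r)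
  have hBase : Base g2 r := ((S.LE_iff _ _ _).1 hg2r).1
  have hE₀ : r.E ζ ⊆ g2.D := fun α hα => hBase.1 (r.hE ζ α hα)
  set r' := glue ζ g2 r (r.s ζ ++ [k]) (r.E ζ) (r.M ζ) hE₀ hBase.1 with hr'
  have hag : Agree (ζ : WithTop I) g2 r' := glue_agree ζ g2 r _ _ _ hE₀ hBase.1
  have hsζ : r'.s ζ = r.s ζ ++ [k] := by simp [hr', glue]
  have hEζ : r'.E ζ = r.E ζ := by simp [hr', glue]
  have hMζ : r'.M ζ = r.M ζ := by simp [hr', glue]
  have hsgt : ∀ η, ζ < η → r'.s η = r.s η := by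
    intro η hη
    simp [hr', glue, not_lt.2 hη.le, hη.ne']
  have hEgt : ∀ η, ζ < η → r'.E η = r.E η := by
    intro η hη
    simp [hr', glue, not_lt.2 hη.le, hη.ne']
  have hMgt : ∀ η, ζ < η → r'.M η = r.M η := by
    intro η hη
    simp [hr', glue, not_lt.2 hη.le, hη.ne']
  have hr'ζ : S.LE (ζ : WithTop I) r' r := LE_congr_left S hag hg2r
  have hr't : S.LE (ζ : WithTop I) r' Cond.triv := LE_congr_left S hag hg2
  refine ⟨r', ?_, ?_, ?_⟩
  · rw [S.le_triv_iff]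
    intro η _ hη
    rcases lt_trichotomy η ζ with h | h | h
    · exact (S.le_triv_iff _ _).1 hr't η (WithTop.coe_lt_coe.2 h) hη
    · rw [h]; exact hA
    · rw [hsgt η h] at hη
      exact (S.le_triv_iff _ _).1 hr η (WithTop.coe_lt_top η) hη
  · rw [S.LE_iff]
    refine ⟨((S.LE_iff _ _ _).1 hr'ζ).1, ?_⟩
    intro η _
    rcases lt_trichotomy η ζ with h | h | h
    · exact ((S.LE_iff _ _ _).1 hr'ζ).2 η (WithTop.coe_lt_coe.2 h)
    · subst h
      refine ⟨?_, ?_, ?_, ?_⟩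
      · rw [hsζ]; exact List.prefix_append _ _
      · rw [hEζ]
      · rw [hMζ]
      · intro l k' hl hk'
        rw [hsζ] at hk'
        have hl' : l = (r.s η).length := by
          by_contra hne
          have hlt : (r.s η).length < l := lt_of_le_of_ne hl (Ne.symm hne)
          have : (r.s η ++ [k])[l]? = none := by
            apply List.getElem?_eq_none
            simp
            omega
          rw [this] at hk'
          exact absurd hk' (by simp)
        subst hl'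
        have hkk : k' = k := by
          simpa using hk'.symm
        subst hkk
        refine ⟨hkM, hA, ?_⟩
        intro α hα hα'
        obtain ⟨i, hNi, hi1, hi2⟩ := hcom (α, S.H η k') (Finset.mem_image_of_mem _
          (Finset.mem_filter.2 ⟨hα, hα'⟩))
        refine ⟨i, hi1, hi2, ?_, ?_⟩
        · have h1 : S.Dec η (g1.restr W) α (r.s η).length N :=
            S.restr_dec hWc hWt (hrD α (r.hE η α hα)) (hdα α hα).2
          obtain ⟨k1, hk1, hk1'⟩ := S.Dec_mono hg2W h1 hNi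
          exact ⟨k1, LE_congr_left S hag hk1, hk1'⟩
        · have h1 : S.Dec η (g1.restr X) (S.H η k') (r.s η).length N :=
            S.restr_dec hXc hXt hkX hdk.2
          obtain ⟨k1, hk1, hk1'⟩ := S.Dec_mono hg2X h1 hNi
          exact ⟨k1, LE_congr_left S hag hk1, hk1'⟩
    · refine ⟨?_, ?_, ?_, ?_⟩
      · rw [hsgt η h]
      · rw [hEgt η h]
      · rw [hMgt η h]
      · intro l k' hl hk'
        rw [hsgt η h, List.getElem?_eq_none hl] at hk'
        exact absurd hk' (by simp)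
  · rw [hsζ]
    simp

end Sys

end

end Pool.Agent.StarHur
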