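import Pool.Agent.MP_b1d3ea_lc.ClCount

/-!
# Existence of the system of parameters
-/

set_option autoImplicit false

namespace Pool.Agent.StarHur

open Classical Cardinal

namespace SysEx

/-- iterated power sets of the natural numbers -/
def Bt : ℕ → Type
  | 0 => ℕ
  | n + 1 => Set (Bt n)

/-- the disjoint union; its cardinality is the `ω`-th beth number -/
abbrev T : Type := Σ n, Bt n

abbrev KT : Type := List T

/-- the branch through the finite sequences given by `b` -/
def node (b : ℕ → T) (k : ℕ) : KT := List.ofFn (fun i : Fin (k + 1) => b i)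

theorem node_length (b : ℕ → T) (k : ℕ) : (node b k).length = k + 1 := by simp [node]

theorem node_inj (b : ℕ → T) : Function.Injective (node b) := by
  intro k l h
  have := congrArg List.length h
  rw [node_length, node_length] at this
  omega

theorem eq_of_node {b c : ℕ → T} {k : ℕ} (h : node b k = node c k) : ∀ i ≤ k, b i = c i := by
  intro i hi
  have h' : (fun i : Fin (k + 1) => b i) = fun i : Fin (k + 1) => c i := List.ofFn_injective h
  exact congrFun h' ⟨i, by omega⟩

theorem mk_inj (n : ℕ) : Function.Injective (fun x : Bt n => (⟨n, x⟩ : T)) := by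
  intro a b h
  simpa using h

theorem aleph0_le_T : ℵ₀ ≤ #T := by
  rw [← mk_nat]
  exact mk_le_of_injective (mk_inj 0)

instance : Infinite T := infinite_iff.2 aleph0_le_T

theorem mk_KT : #KT = #T := mk_list_eq_mk T

theorem cont_le_T : (2 : Cardinal) ^ ℵ₀ ≤ #T := by
  have h : #(Set ℕ) = 2 ^ ℵ₀ := by simp
  rw [← h]
  exact mk_le_of_injective (mk_inj 1)

/-- `λ = κ ^ ω = 2 ^ κ` -/
theorem mk_branch : #(ℕ → T) = 2 ^ #T := by
  apply le_antisymm
  · have h1 : #(ℕ → T) = #T ^ ℵ₀ := by simp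
    rw [h1]
    calc #T ^ ℵ₀ ≤ #T ^ #T := power_le_power_left (by
            have := aleph0_le_T
            intro h
            rw [h] at this
            exact absurd this (not_le.2 aleph0_pos)) aleph0_le_T
      _ = 2 ^ #T := power_self_eq aleph0_le_T
  · rw [← mk_set]
    refine mk_le_of_injective (f := fun (s : Set T) (n : ℕ) =>
      (⟨n + 1, {x : Bt n | (⟨n, x⟩ : T) ∈ s}⟩ : T)) ?_
    intro s t h
    ext ⟨n, x⟩
    have h1 := congrFun h n
    simp only [Sigma.mk.injEq, heq_eq_eq, true_and] at h1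
    exact (Set.ext_iff.1 h1 x)

/-- the length of the well-order -/
noncomputable def lam : Cardinal := #(ℕ → T)

theorem lam_eq : lam = 2 ^ #T := mk_branch

theorem T_lt_lam : #T < lam := by
  rw [lam_eq]
  exact cantor _

theorem aleph0_le_lam : ℵ₀ ≤ lam := aleph0_le_T.trans T_lt_lam.le

theorem T_lt_cof : #T < lam.ord.cof := by
  rw [lam_eq]
  exact lt_cof_ord_power aleph0_le_T (by norm_num)

theorem pow_le {A B : Type} (hA : #A ≤ #T) (hB : #B ≤ lam) : #(A → B) ≤ lam := by
  have h1 : #(A → B) = #B ^ #A := by simp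
  rw [h1]
  calc #B ^ #A ≤ lam ^ #A := power_le_power_right hB
    _ ≤ lam ^ #T := power_le_power_left (by
            have := aleph0_le_lam
            intro h
            rw [h] at this
            exact absurd this (not_le.2 aleph0_pos)) hA
    _ = lam := by rw [lam_eq, ← power_mul, mul_eq_self aleph0_le_T]

theorem prod_le {A B : Type} (hA : #A ≤ lam) (hB : #B ≤ lam) : #(A × B) ≤ lam := by
  rw [mk_prod, lift_id, lift_id]
  exact mul_le_of_le aleph0_le_lam hA hB

theorem fin_le {A : Type} (hA : #A ≤ lam) : #(Finset A) ≤ lam := by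
  rcases finite_or_infinite A with h | h
  · exact (lt_aleph0_of_finite (Finset A)).le.trans aleph0_le_lam
  · rw [mk_finset_of_infinite]
    exact hA

theorem countable_le {A : Type} [Countable A] : #A ≤ lam := mk_le_aleph0.trans aleph0_le_lam

theorem KT_le : #KT ≤ lam := by
  rw [mk_KT]
  exact T_lt_lam.le

section CondCard

variable {K I : Type}

/-- a faithful encoding of conditions -/
noncomputable def enc (r : Cond K I) :
    ℕ × Finset (K × ℕ) × Finset K × Finset (I × (List ℕ × Finset K × Finset ℕ)) :=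
  (r.n, (r.D ×ˢ Finset.range r.n).filter (fun p => p.2 ∈ r.a p.1),
      r.D, r.Z.image fun ζ => (ζ, (r.s ζ, r.E ζ, r.M ζ)))

theorem enc_injective : Function.Injective (enc : Cond K I → _) := by
  intro r r' h
  simp only [enc, Prod.mk.injEq] at h
  obtain ⟨hn, ha, hD, hZ⟩ := h
  have hmem : ∀ ζ, ζ ∈ r.Z → ζ ∈ r'.Z ∧ r.s ζ = r'.s ζ ∧ r.E ζ = r'.E ζ ∧ r.M ζ = r'.M ζ := by
    intro ζ hζ
    have h1 : (ζ, (r.s ζ, r.E ζ, r.M ζ)) ∈ r'.Z.image fun ζ => (ζ, (r'.s ζ, r'.E ζ, r'.M ζ)) := by
      rw [← hZ]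
      exact Finset.mem_image.2 ⟨ζ, hζ, rfl⟩
    obtain ⟨ζ', hζ', he⟩ := Finset.mem_image.1 h1
    simp only [Prod.mk.injEq] at he
    obtain ⟨rfl, e1, e2, e3⟩ := he
    exact ⟨hζ', e1.symm, e2.symm, e3.symm⟩
  have hmem' : ∀ ζ, ζ ∈ r'.Z → ζ ∈ r.Z := by
    intro ζ hζ
    have h1 : (ζ, (r'.s ζ, r'.E ζ, r'.M ζ)) ∈ r.Z.image fun ζ => (ζ, (r.s ζ, r.E ζ, r.M ζ)) := by
      rw [hZ]
      exact Finset.mem_image.2 ⟨ζ, hζ, rfl⟩
    obtain ⟨ζ', hζ', he⟩ := Finset.mem_image.1 h1
    simp only [Prod.mk.injEq] at he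
    obtain ⟨rfl, -⟩ := he
    exact hζ'
  have hall : ∀ ζ, r.s ζ = r'.s ζ ∧ r.E ζ = r'.E ζ ∧ r.M ζ = r'.M ζ := by
    intro ζ
    by_cases hζ : ζ ∈ r.Z
    · exact (hmem ζ hζ).2
    · have hζ' : ζ ∉ r'.Z := fun h => hζ (hmem' ζ h)
      obtain ⟨e1, e2, e3⟩ := r.hZ ζ hζ
      obtain ⟨f1, f2, f3⟩ := r'.hZ ζ hζ'
      exact ⟨e1.trans f1.symm, e2.trans f2.symm, e3.trans f3.symm⟩
  have haa : r.a = r'.a := by
    funext α
    ext i
    have key : ∀ q : Cond K I, i ∈ q.a α ↔
        (α, i) ∈ (q.D ×ˢ Finset.range q.n).filter (fun p => p.2 ∈ q.a p.1) := by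
      intro q
      simp only [Finset.mem_filter, Finset.mem_product, Finset.mem_range]
      exact ⟨fun h => ⟨q.ha α i h, h⟩, fun h => h.2⟩
    rw [key r, key r', ha]
  have hZZ : r.Z = r'.Z := by
    ext ζ
    exact ⟨fun h => (hmem ζ h).1, hmem' ζ⟩
  have hss : r.s = r'.s := funext fun ζ => (hall ζ).1
  have hEE : r.E = r'.E := funext fun ζ => (hall ζ).2.1
  have hMM : r.M = r'.M := funext fun ζ => (hall ζ).2.2
  cases r
  cases r'
  simp only at hn hD haa hZZ hss hEE hMM
  subst hn hD haa hZZ hss hEE hMM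
  rfl

theorem cond_le (hK : #K ≤ lam) (hI : #I ≤ lam) : #(Cond K I) ≤ lam :=
  (mk_le_of_injective enc_injective).trans
    (prod_le countable_le (prod_le (fin_le (prod_le hK countable_le)) (prod_le (fin_le hK)
      (fin_le (prod_le hI (prod_le countable_le (prod_le (fin_le hK) countable_le)))))))

end CondCard

/-- the well-order -/
abbrev IT : Type := lam.ord.ToType

theorem mk_IT : #IT = lam := mk_ord_toType lam

theorem Iio_lt (ζ : IT) : #(Set.Iio ζ) < lam := by
  simpa using Cardinal.mk_Iio_lt ζ (by simp)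

theorem code_le : #(Code KT IT) ≤ lam :=
  pow_le mk_KT.le (pow_le (mk_le_aleph0.trans aleph0_le_T)
    (pow_le (mk_le_aleph0.trans aleph0_le_T) (prod_le (cond_le KT_le mk_IT.le) countable_le)))

/-- every code is listed cofinally often -/
theorem exists_code : ∃ code : IT → Code KT IT, ∀ (c : Code KT IT) (ζ₀ : IT),
    ∃ ζ, ζ₀ ≤ ζ ∧ code ζ = c := by
  have h : #(Code KT IT × IT) ≤ #IT := by
    rw [mk_IT]
    exact prod_le code_le mk_IT.le
  obtain ⟨f⟩ := h
  haveI : Nonempty (Code KT IT × IT) := by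
    have : Nonempty IT := by
      rw [← mk_ne_zero_iff, mk_IT]
      intro h0
      have := aleph0_le_lam
      rw [h0] at this
      exact absurd this (not_le.2 aleph0_pos)
    exact ⟨(fun _ _ _ => (Cond.triv, 0), this.some)⟩
  refine ⟨fun ζ => (Function.invFun f ζ).1, ?_⟩
  intro c ζ₀
  by_contra hcon
  push Not at hcon
  have hinv : ∀ i : IT, Function.invFun f (f (c, i)) = (c, i) :=
    fun i => Function.leftInverse_invFun f.injective (c, i)
  have hlt : ∀ i : IT, f (c, i) < ζ₀ := by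
    intro i
    by_contra hge
    exact hcon (f (c, i)) (not_lt.1 hge) (by rw [hinv])
  have hinj : Function.Injective (fun i : IT => (⟨f (c, i), hlt i⟩ : Set.Iio ζ₀)) := by
    intro i j hij
    have h1 := congrArg Subtype.val hij
    have h2 := f.injective h1
    exact (Prod.mk.inj h2).2
  have h3 := mk_le_of_injective hinj
  rw [mk_IT] at h3
  exact absurd (Iio_lt ζ₀) (not_lt.2 h3)

/-- a branch which is almost disjoint from all closures -/
theorem exists_branch (code : IT → Code KT IT) (H : IT → ℕ → KT) (ζ : IT) :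
    ∃ b : ℕ → T, ∀ e : Finset (KT ⊕ IT), (∀ η, Sum.inr η ∈ e → η < ζ) →
      {k : ℕ | Cl code H ζ (e : Set (KT ⊕ IT)) (Sum.inl (node b k))}.Finite := by
  by_contra hcon
  push Not at hcon
  choose e he hinf using hcon
  let φ : KT ⊕ Set.Iio ζ → KT ⊕ IT := Sum.map id Subtype.val
  have hφ : Function.Injective φ := Function.Injective.sumMap Function.injective_id
    Subtype.val_injective
  let F : (ℕ → T) → Finset (KT ⊕ Set.Iio ζ) := fun b => (e b).preimage φ hφ.injOn
  have hF : ∀ b, ((F b).image φ : Finset (KT ⊕ IT)) = e b := by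
    intro b
    ext x
    rw [Finset.mem_image]
    constructor
    · rintro ⟨y, hy, rfl⟩
      exact Finset.mem_preimage.1 hy
    · intro hx
      rcases x with α | η
      · exact ⟨Sum.inl α, Finset.mem_preimage.2 hx, rfl⟩
      · exact ⟨Sum.inr ⟨η, he b η hx⟩, Finset.mem_preimage.2 hx, rfl⟩
  let C : Finset (KT ⊕ Set.Iio ζ) → Set (KT ⊕ IT) := fun f =>
    {x | Cl code H ζ ((f.image φ : Finset (KT ⊕ IT)) : Set (KT ⊕ IT)) x}
  have hC : ∀ f, ∃ g : KT ⊕ IT → ℕ, Set.InjOn g (C f) := fun f =>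
    Set.countable_iff_exists_injOn.1 (Cl_countable code H ζ (Finset.countable_toSet _))
  choose g hg using hC
  let Ψ : (ℕ → T) → Finset (KT ⊕ Set.Iio ζ) × Set ℕ := fun b =>
    (F b, {n | ∃ k, Sum.inl (node b k) ∈ C (F b) ∧ g (F b) (Sum.inl (node b k)) = n})
  have hΨ : Function.Injective Ψ := by
    intro b c hbc
    have h1 : F b = F c := (Prod.mk.inj hbc).1
    have h2 := (Prod.mk.inj hbc).2
    funext i
    have hinfb : {k : ℕ | Sum.inl (node b k) ∈ C (F b)}.Infinite := by
      have := hinf b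
      rw [← hF b] at this
      exact this
    obtain ⟨k, hk, hik⟩ := hinfb.exists_gt i
    have h3 : g (F b) (Sum.inl (node b k)) ∈
        {n | ∃ k, Sum.inl (node b k) ∈ C (F b) ∧ g (F b) (Sum.inl (node b k)) = n} := ⟨k, hk, rfl⟩
    rw [h2] at h3
    obtain ⟨k', hk', hgk⟩ := h3
    rw [← h1] at hk' hgk
    have h4 := hg (F b) hk' hk hgk
    have h5 : node c k' = node b k := Sum.inl_injective h4
    have h6 : k' = k := by
      have := congrArg List.length h5
      rw [node_length, node_length] at this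
      omega
    subst h6
    exact (eq_of_node h5 i hik.le).symm
  have h1 := mk_le_of_injective hΨ
  have h2 : #(Finset (KT ⊕ Set.Iio ζ) × Set ℕ) < lam := by
    rw [mk_prod, lift_id, lift_id]
    apply mul_lt_of_lt aleph0_le_lam
    · haveI : Infinite KT := inferInstance
      haveI : Infinite (KT ⊕ Set.Iio ζ) := inferInstance
      rw [mk_finset_of_infinite, mk_sum, lift_id, lift_id]
      apply add_lt_of_lt aleph0_le_lam
      · rw [mk_KT]
        exact T_lt_lam
      · exact Iio_lt ζ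
    · have h : #(Set ℕ) = 2 ^ ℵ₀ := by simp
      rw [h]
      exact cont_le_T.trans_lt T_lt_lam
  exact absurd (h1.trans_lt h2) (lt_irrefl _)

/-- the closure only depends on the earlier sets -/
theorem Cl_congr {K I : Type} [LinearOrder I] {code : I → Code K I} {H H' : I → ℕ → K} {ζ : I}
    (h : ∀ η < ζ, H η = H' η) {e : Set (K ⊕ I)} {x : K ⊕ I} (hx : Cl code H ζ e x) :
    Cl code H' ζ e x := by
  induction hx with
  | base h => exact Cl.base h
  | @node η hη _ k ih =>
    rw [h η hη]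
    exact Cl.node hη ih k
  | @suppK η α hη _ _ l k β hβ ih1 ih2 => exact Cl.suppK hη ih1 ih2 l k hβ
  | @suppI η α hη _ _ l k ξ hξ hlt ih1 ih2 => exact Cl.suppI hη ih1 ih2 l k hξ hlt
  | @topK α _ l k β hβ ih => exact Cl.topK ih l k hβ
  | @topI α _ l k ξ hξ hlt ih => exact Cl.topI ih l k hξ hlt

/-- the branches, by recursion -/
noncomputable def br (code : IT → Code KT IT) : IT → ℕ → T :=
  (wellFounded_lt (α := IT)).fix fun ζ R =>
    Classical.choose (exists_branch code
      (fun η => if h : η < ζ then node (R η h) else fun _ => []) ζ)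

theorem br_spec (code : IT → Code KT IT) (ζ : IT) : ∀ e : Finset (KT ⊕ IT),
    (∀ η, Sum.inr η ∈ e → η < ζ) →
    {k : ℕ | Cl code (fun η => node (br code η)) ζ (e : Set (KT ⊕ IT))
      (Sum.inl (node (br code ζ) k))}.Finite := by
  intro e he
  have h := Classical.choose_spec (exists_branch code
      (fun η => if η < ζ then node (br code η) else fun _ => []) ζ) e he
  have hb : br code ζ = Classical.choose (exists_branch code
      (fun η => if η < ζ then node (br code η) else fun _ => []) ζ) := by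
    unfold br
    rw [WellFounded.fix_eq]
  rw [← hb] at h
  refine h.subset ?_
  intro k hk
  refine Cl_congr ?_ hk
  intro η hη
  simp [hη]

end SysEx

open SysEx in
theorem exists_sys : ∃ (K I : Type) (_ : LinearOrder I) (_ : WellFoundedLT I) (S : Sys K I),
    (∀ (c : Code K I) (ζ₀ : I), ∃ ζ, ζ₀ ≤ ζ ∧ S.code ζ = c) ∧
    (∀ f : K × ℕ × ℕ → Finset I, ∃ ζ₀ : I, ∀ p, ∀ ξ ∈ f p, ξ < ζ₀) ∧
    ∃ ι : (ℕ → ℕ) → K, Function.Injective ι := by
  obtain ⟨code, hcode⟩ := exists_code
  refine ⟨KT, IT, inferInstance, inferInstance,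
    ⟨code, fun η => node (br code η), fun ζ => node_inj _, br_spec code⟩, hcode, ?_, ?_⟩
  · intro f
    have hU : #(⋃ p, ((f p : Finset IT) : Set IT) : Set IT) ≤ #T := by
      refine (mk_iUnion_le _).trans ?_
      have h1 : #(KT × ℕ × ℕ) ≤ #T := by
        rw [mk_prod, lift_id, lift_id, mk_KT]
        exact mul_le_of_le aleph0_le_T le_rfl (mk_le_aleph0.trans aleph0_le_T)
      refine mul_le_of_le aleph0_le_T h1 ?_
      refine ciSup_le' fun p => ?_
      exact (lt_aleph0_of_finite _).le.trans aleph0_le_T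
    have hnc : ¬ IsCofinal (⋃ p, ((f p : Finset IT) : Set IT)) := by
      intro hc
      have h1 := Order.cof_le hc
      rw [Ordinal.cof_toType] at h1
      exact absurd (T_lt_cof.trans_le (h1.trans hU)) (lt_irrefl _)
    obtain ⟨ζ₀, hζ₀⟩ := not_isCofinal_iff.1 hnc
    exact ⟨ζ₀, fun p ξ hξ => hζ₀ ξ (Set.mem_iUnion.2 ⟨p, hξ⟩)⟩
  · have h1 : #(ℕ → ℕ) ≤ #KT := by
      have h2 : #(ℕ → ℕ) = 2 ^ ℵ₀ := by simp
      rw [h2, mk_KT]
      exact cont_le_T
    obtain ⟨f⟩ := h1
    exact ⟨f, f.injective⟩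

end Pool.Agent.StarHur
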