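import Pool.Agent.MP_b1d3ea_lc.Reduct
import Pool.Agent.MP_b1d3ea_lc.ClCount

/-!
# Ground model functions stay unbounded
-/

set_option autoImplicit false

namespace Pool.Agent.StarHur

open Classical

section

variable {K I : Type} [LinearOrder I] [WellFoundedLT I] (S : Sys K I)

namespace Sys

theorem unb_poset (c : ℕ → ℕ → Cond K I × ℕ) (h1 : ∀ n k, S.LE ⊤ (c n k).1 Cond.triv)
    (h2 : ∀ n r, S.LE ⊤ r Cond.triv → ∃ k g, S.LE ⊤ g r ∧ S.LE ⊤ g (c n k).1) :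
    ∃ x : ℕ → ℕ, ∀ r, S.LE ⊤ r Cond.triv → ∀ N, ∃ n, N ≤ n ∧
      ∃ k g, S.LE ⊤ g r ∧ S.LE ⊤ g (c n k).1 ∧ (c n k).2 < x n := by
  -- a countable closed set with all coordinates
  have he : (⋃ n, ⋃ k, (Sum.inl '' (((c n k).1.D : Finset K) : Set K) ∪
      Sum.inr '' (((c n k).1.Z : Finset I) : Set I)) : Set (K ⊕ I)).Countable :=
    Set.countable_iUnion fun n => Set.countable_iUnion fun k =>
      ((Finset.countable_toSet _).image _).union ((Finset.countable_toSet _).image _)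
  obtain ⟨X, heX, hXc, hX⟩ := S.exists_closed_countable he
  have hXD : ∀ n k, ∀ α ∈ (c n k).1.D, (Sum.inl α : K ⊕ I) ∈ X := fun n k α hα =>
    heX (Set.mem_iUnion.2 ⟨n, Set.mem_iUnion.2 ⟨k, Or.inl ⟨α, hα, rfl⟩⟩⟩)
  have hXZ : ∀ n k, ∀ η ∈ (c n k).1.Z, (Sum.inr η : K ⊕ I) ∈ X := fun n k η hη =>
    heX (Set.mem_iUnion.2 ⟨n, Set.mem_iUnion.2 ⟨k, Or.inr ⟨η, hη, rfl⟩⟩⟩)
  -- the valid conditions over this set
  have hV : {v : Cond K I | ((∀ α ∈ v.D, Sum.inl α ∈ X) ∧ ∀ η ∈ v.Z, Sum.inr η ∈ X) ∧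
      S.LE ⊤ v Cond.triv}.Countable := (countable_conds hXc).mono fun v hv => hv.1
  have hVne : {v : Cond K I | ((∀ α ∈ v.D, Sum.inl α ∈ X) ∧ ∀ η ∈ v.Z, Sum.inr η ∈ X) ∧
      S.LE ⊤ v Cond.triv}.Nonempty :=
    ⟨Cond.triv, ⟨by simp [Cond.triv], by simp [Cond.triv]⟩, S.LE_refl ⊤ _⟩
  obtain ⟨v, hv⟩ := hV.exists_eq_range hVne
  have hvm : ∀ j, ((∀ α ∈ (v j).D, Sum.inl α ∈ X) ∧ ∀ η ∈ (v j).Z, Sum.inr η ∈ X) ∧
      S.LE ⊤ (v j) Cond.triv := fun j => by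
    have : v j ∈ Set.range v := ⟨j, rfl⟩
    rw [← hv] at this
    exact this
  choose kk gg hg1 hg2 using fun n j => h2 n (v j) (hvm j).2
  refine ⟨fun n => 1 + (Finset.range (n + 1)).sup fun j => (c n (kk n j)).2, ?_⟩
  intro r hr N
  obtain ⟨r', hr', hr'r, ht⟩ := S.exists_tidy hr
  have hres : S.LE ⊤ (r'.restr X) Cond.triv := S.restr_le hX (by simp [Cond.triv])
    (by simp [Cond.triv]) hr'
  have hmem : r'.restr X ∈ Set.range v := by
    rw [← hv]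
    refine ⟨⟨?_, ?_⟩, hres⟩
    · intro α hα
      exact (Finset.mem_filter.1 hα).2
    · intro η hη
      exact (Finset.mem_filter.1 hη).2
  obtain ⟨j, hj⟩ := hmem
  refine ⟨max N j, le_max_left _ _, kk (max N j) j, ?_⟩
  have hgr : S.LE ⊤ (gg (max N j) j) (v j) := hg1 _ _
  have hgc : S.LE ⊤ (gg (max N j) j) (c (max N j) (kk (max N j) j)).1 := hg2 _ _
  -- restrict the common extension
  have hu1 : S.LE ⊤ ((gg (max N j) j).restr X) (v j) :=
    S.restr_le hX (hvm j).1.1 (fun η hη _ => (hvm j).1.2 η hη) hgr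
  have hu2 : S.LE ⊤ ((gg (max N j) j).restr X) (c (max N j) (kk (max N j) j)).1 :=
    S.restr_le hX (hXD _ _) (fun η hη _ => hXZ _ _ η hη) hgc
  have hu : S.LE ⊤ ((gg (max N j) j).restr X) Cond.triv := S.LE_trans hu1 (hvm j).2
  obtain ⟨g, -, hgr', hgu⟩ := S.reduct hX hr' ht hu
    (fun α hα => (Finset.mem_filter.1 hα).2) (fun η hη => (Finset.mem_filter.1 hη).2)
    (hj ▸ hu1)
  refine ⟨g, S.LE_trans hgr' hr'r, S.LE_trans hgu hu2, ?_⟩
  have hle : (c (max N j) (kk (max N j) j)).2 ≤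
      (Finset.range (max N j + 1)).sup fun j' => (c (max N j) (kk (max N j) j')).2 :=
    Finset.le_sup (f := fun j' => (c (max N j) (kk (max N j) j')).2)
      (Finset.mem_range.2 (Nat.lt_succ_of_le (le_max_right N j)))
  show (c (max N j) (kk (max N j) j)).2 < 1 + _
  omega

end Sys

end

end Pool.Agent.StarHur
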