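import Pool.Agent.MP_b1d3ea_lc.BInternal
import Pool.Agent.MP_b1d3ea_lc.Stem
import Pool.Agent.MP_b1d3ea_lc.CCC
import Pool.Agent.MP_b1d3ea_lc.Unb
import Pool.Agent.MP_b1d3ea_lc.SysEx
import Pool.Agent.MP_b1d3ea_lc.RO

/-!
# The Boolean-algebra core (module II11)

The forcing of Part II, transported to a complete Boolean algebra, satisfies `Core`.
-/

set_option autoImplicit false

namespace Pool.Agent.StarHur

open Classical

namespace CoreThm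

section Abstract

variable {P 𝔹 : Type} [Preorder P] [CompleteBooleanAlgebra 𝔹] {e : P → 𝔹}

/-- The embedding properties used below. -/
structure Emb (e : P → 𝔹) : Prop where
  ne : ∀ p, e p ≠ ⊥
  mono : ∀ p q, p ≤ q → e p ≤ e q
  dense : ∀ b : 𝔹, b ≠ ⊥ → ∃ p, e p ≤ b
  sep : ∀ p q, e p ⊓ e q ≠ ⊥ → ∃ r, r ≤ p ∧ r ≤ q

theorem Emb.below (h : Emb e) {p : P} {b : 𝔹} (hb : e p ⊓ b ≠ ⊥) : ∃ q, q ≤ p ∧ e q ≤ b := by
  obtain ⟨p', hp'⟩ := h.dense _ hb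
  have h1 : e p' ⊓ e p ≠ ⊥ := by
    rw [inf_eq_left.2 (hp'.trans inf_le_left)]
    exact h.ne p'
  obtain ⟨r, hr1, hr2⟩ := h.sep _ _ h1
  exact ⟨r, hr2, (h.mono _ _ hr1).trans (hp'.trans inf_le_right)⟩

theorem Emb.common (h : Emb e) {p q : P} (hpq : e p ≤ e q) : ∃ r, r ≤ p ∧ r ≤ q := by
  apply h.sep
  rw [inf_eq_left.2 hpq]
  exact h.ne p

theorem Emb.le_of (h : Emb e) {b c : 𝔹} (H : ∀ p, e p ≤ b → ∃ q, q ≤ p ∧ e q ≤ c) : b ≤ c := by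
  by_contra hbc
  have h1 : b ⊓ cᶜ ≠ ⊥ := by
    intro h0
    apply hbc
    rw [← sdiff_eq_bot_iff, sdiff_eq]
    exact h0
  obtain ⟨p, hp⟩ := h.dense _ h1
  obtain ⟨q, hq, hqc⟩ := H p (hp.trans inf_le_left)
  have h2 : e q ≤ cᶜ := (h.mono _ _ hq).trans (hp.trans inf_le_right)
  have h3 : e q ≤ c ⊓ cᶜ := le_inf hqc h2
  rw [inf_compl_eq_bot, le_bot_iff] at h3
  exact h.ne q h3

theorem Emb.eq_top (h : Emb e) {c : 𝔹} (H : ∀ p, ∃ q, q ≤ p ∧ e q ≤ c) : c = ⊤ :=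
  top_le_iff.1 (h.le_of fun p _ => H p)

theorem Emb.le_iSup (h : Emb e) {ι : Sort*} {b : ι → 𝔹} {p : P} (hp : e p ≤ ⨆ i, b i) :
    ∃ i, ∃ q, q ≤ p ∧ e q ≤ b i := by
  by_contra hcon
  push Not at hcon
  have h1 : ∀ i, e p ⊓ b i = ⊥ := by
    intro i
    by_contra h2
    obtain ⟨q, hq, hq'⟩ := h.below h2
    exact hcon i q hq hq'
  have h2 : e p ⊓ ⨆ i, b i = ⊥ := by
    rw [inf_iSup_eq]
    simp [h1]
  rw [inf_eq_left.2 hp] at h2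
  exact h.ne p h2

theorem Emb.eq_bot (h : Emb e) {b : 𝔹} (H : ∀ p, ¬ e p ≤ b) : b = ⊥ := by
  by_contra hb
  obtain ⟨p, hp⟩ := h.dense b hb
  exact H p hp

theorem Emb.le_compl (h : Emb e) {p : P} {b : 𝔹} (H : ∀ q, q ≤ p → ¬ e q ≤ b) : e p ≤ bᶜ := by
  rw [le_compl_iff_disjoint_right, disjoint_iff]
  by_contra h1
  obtain ⟨q, hq, hq'⟩ := h.below h1
  exact H q hq hq'

/-- Countable names: if `P` is ccc, every partition is given by a predense sequence. -/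
theorem Emb.exists_seq (h : Emb e) [Nonempty P]
    (hccc : ∀ 𝒜 : Set P, (∀ r ∈ 𝒜, ∀ r' ∈ 𝒜, r ≠ r' → ¬ ∃ g, g ≤ r ∧ g ≤ r') → 𝒜.Countable)
    (b : ℕ → 𝔹) (hb : ⨆ m, b m = ⊤) :
    ∃ c : ℕ → P × ℕ, (∀ k, e (c k).1 ≤ b (c k).2) ∧ ∀ r, ∃ k g, g ≤ r ∧ g ≤ (c k).1 := by
  let F : Set (Set P) := {A | (∀ r ∈ A, ∃ m, e r ≤ b m) ∧
    ∀ r ∈ A, ∀ r' ∈ A, r ≠ r' → ¬ ∃ g, g ≤ r ∧ g ≤ r'}
  obtain ⟨A, hA⟩ := zorn_subset F (by
    intro c hc hchain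
    refine ⟨⋃₀ c, ⟨?_, ?_⟩, fun s hs => Set.subset_sUnion_of_mem hs⟩
    · rintro r ⟨s, hs, hr⟩
      exact (hc hs).1 r hr
    · rintro r ⟨s, hs, hr⟩ r' ⟨s', hs', hr'⟩ hne
      rcases hchain.total hs hs' with hss | hss
      · exact (hc hs').2 r (hss hr) r' hr' hne
      · exact (hc hs).2 r hr r' (hss hr') hne)
  have hAF : A ∈ F := hA.prop
  have hpre : ∀ r : P, ∃ s ∈ A, ∃ g, g ≤ r ∧ g ≤ s := by
    intro r
    obtain ⟨m, r', hr', hm⟩ := h.le_iSup (p := r) (b := b) (by rw [hb]; exact le_top)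
    by_cases hr'A : r' ∈ A
    · exact ⟨r', hr'A, r', hr', le_rfl⟩
    · by_contra hcon
      push Not at hcon
      have hins : insert r' A ∈ F := by
        refine ⟨?_, ?_⟩
        · intro s hs
          rcases hs with rfl | hs
          · exact ⟨m, hm⟩
          · exact hAF.1 s hs
        · intro s hs s' hs' hne
          rcases hs with rfl | hs
          · rcases hs' with rfl | hs'
            · exact absurd rfl hne
            · rintro ⟨g, hg1, hg2⟩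
              exact hcon s' hs' g (hg1.trans hr') hg2
          · rcases hs' with rfl | hs'
            · rintro ⟨g, hg1, hg2⟩
              exact hcon s hs g (hg2.trans hr') hg1
            · exact hAF.2 s hs s' hs' hne
      have hsub : insert r' A ⊆ A := hA.le_of_ge hins (Set.subset_insert _ _)
      exact hr'A (hsub (Set.mem_insert _ _))
  have hAne : A.Nonempty := by
    obtain ⟨p⟩ := ‹Nonempty P›
    obtain ⟨s, hs, -⟩ := hpre p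
    exact ⟨s, hs⟩
  have hAc : A.Countable := hccc A hAF.2
  obtain ⟨u, hu⟩ := hAc.exists_eq_range hAne
  have hmem : ∀ k, u k ∈ A := fun k => by rw [hu]; exact Set.mem_range_self k
  choose m hm using fun k => hAF.1 (u k) (hmem k)
  refine ⟨fun k => (u k, m k), hm, ?_⟩
  intro r
  obtain ⟨s, hs, g, hg1, hg2⟩ := hpre r
  rw [hu] at hs
  obtain ⟨k, rfl⟩ := hs
  exact ⟨k, g, hg1, hg2⟩

end Abstract

section

variable {K I : Type} [LinearOrder I] [WellFoundedLT I] (S : Sys K I)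

/-- The valid conditions. -/
def Pos : Type := {r : Cond K I // S.LE ⊤ r Cond.triv}

instance : Preorder (Pos S) where
  le p q := S.LE ⊤ p.1 q.1
  le_refl p := S.LE_refl ⊤ p.1
  le_trans _ _ _ h1 h2 := S.LE_trans h1 h2

instance : Nonempty (Pos S) := ⟨⟨Cond.triv, S.LE_refl ⊤ _⟩⟩

theorem le_def (p q : Pos S) : p ≤ q ↔ S.LE ⊤ p.1 q.1 := Iff.rfl

variable {S}

/-- a common or smaller condition is valid -/
theorem valid_of_le {g r : Cond K I} (hr : S.LE ⊤ r Cond.triv) (h : S.LE ⊤ g r) :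
    S.LE ⊤ g Cond.triv := S.LE_trans h hr

theorem pos_ccc (𝒜 : Set (Pos S))
    (h : ∀ r ∈ 𝒜, ∀ r' ∈ 𝒜, r ≠ r' → ¬ ∃ g, g ≤ r ∧ g ≤ r') : 𝒜.Countable := by
  have h1 : (Subtype.val '' 𝒜 : Set (Cond K I)).Countable := by
    apply S.ccc
    · rintro _ ⟨r, _, rfl⟩
      exact r.2
    · rintro _ ⟨r, hr, rfl⟩ _ ⟨r', hr', rfl⟩ hne ⟨g, hg, hg1, hg2⟩
      exact h r hr r' hr' (fun h0 => hne (by rw [h0])) ⟨⟨g, hg⟩, hg1, hg2⟩
  exact Set.countable_of_injective_of_countable_image (Subtype.val_injective.injOn) h1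

theorem mem_mono {p q : Pos S} (h : p ≤ q) {α : K} {i : ℕ} (hi : i ∈ q.1.a α) : i ∈ p.1.a α := by
  have hb := ((S.LE_iff _ _ _).1 h).1
  obtain ⟨h1, h2⟩ := q.1.ha α i hi
  exact (hb.2.2.1 α h1 i h2).2 hi

theorem stem_mono {p q : Pos S} (h : p ≤ q) (ζ : I) : q.1.s ζ <+: p.1.s ζ :=
  (((S.LE_iff _ _ _).1 h).2 ζ (WithTop.coe_lt_top ζ)).1

theorem stem_get_mono {p q : Pos S} (h : p ≤ q) {ζ : I} {n k : ℕ} (hk : (q.1.s ζ)[n]? = some k) :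
    (p.1.s ζ)[n]? = some k := by
  obtain ⟨t, ht⟩ := stem_mono h ζ
  rw [← ht]
  have hn : n < (q.1.s ζ).length := by
    by_contra h0
    rw [List.getElem?_eq_none (not_lt.1 h0)] at hk
    exact absurd hk (by simp)
  rw [List.getElem?_append_left hn]
  exact hk

theorem stem_long {ζ : I} (hA : S.Act ζ) (n : ℕ) (p : Pos S) :
    ∃ q, q ≤ p ∧ n ≤ (q.1.s ζ).length := by
  induction n with
  | zero => exact ⟨p, le_rfl, Nat.zero_le _⟩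
  | succ n ih =>
    obtain ⟨q, hq, hn⟩ := ih
    obtain ⟨r, hr, hrq, hl⟩ := S.stem_extend hA q.2
    let r₁ : Pos S := ⟨r, hr⟩
    have h1 : r₁ ≤ q := hrq
    refine ⟨r₁, h1.trans hq, ?_⟩
    show n + 1 ≤ (r.s ζ).length
    omega

theorem stem_entry {ζ : I} (hA : S.Act ζ) (n : ℕ) (p : Pos S) :
    ∃ q k, q ≤ p ∧ (q.1.s ζ)[n]? = some k := by
  obtain ⟨q, hq, hn⟩ := stem_long hA (n + 1) p
  exact ⟨q, (q.1.s ζ)[n], hq, List.getElem?_eq_getElem (by omega)⟩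

end

section Main

variable {K I : Type} [LinearOrder I] [WellFoundedLT I] {S : Sys K I} {𝔹 : Type}
  [CompleteBooleanAlgebra 𝔹] {e : Pos S → 𝔹}

/-- the Boolean value of `i ∈ A α` -/
def av (e : Pos S → 𝔹) (α : K) (i : ℕ) : 𝔹 := ⨆ r : Pos S, ⨆ _ : i ∈ r.1.a α, e r

theorem le_av {α : K} {i : ℕ} {q : Pos S} (h : i ∈ q.1.a α) : e q ≤ av e α i :=
  le_iSup_of_le q (le_iSup_of_le h le_rfl)

theorem of_le_av (he : Emb e) {α : K} {i : ℕ} {p : Pos S} (h : e p ≤ av e α i) :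
    ∃ q, q ≤ p ∧ i ∈ q.1.a α := by
  obtain ⟨r, p1, hp1, h1⟩ := he.le_iSup h
  obtain ⟨hr, p2, hp2, h2⟩ := he.le_iSup h1
  obtain ⟨q, hq1, hq2⟩ := he.common h2
  exact ⟨q, hq1.trans (hp2.trans hp1), mem_mono hq2 hr⟩

theorem inf_av (he : Emb e) (α : K) (n : ℕ) : ⨆ i, ⨆ _ : n ≤ i, av e α i = ⊤ := by
  apply he.eq_top
  intro p
  obtain ⟨r, hr, hrp, i, hi, hir⟩ := S.add_elem p.2 α n
  exact ⟨⟨r, hr⟩, hrp, le_iSup_of_le i (le_iSup_of_le hi (le_av hir))⟩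

theorem ad_av (he : Emb e) (α β : K) (hne : α ≠ β) :
    ⨆ n : ℕ, ⨅ i, ⨅ _ : n ≤ i, (av e α i ⊓ av e β i)ᶜ = ⊤ := by
  apply he.eq_top
  intro p
  obtain ⟨r1, hr1, hr1p, hα⟩ := S.add_dom p.2 α
  obtain ⟨r2, hr2, hr2r1, hβ⟩ := S.add_dom hr1 β
  have hα2 : α ∈ r2.D := ((S.LE_iff _ _ _).1 hr2r1).1.1 hα
  let q : Pos S := ⟨r2, hr2⟩
  have hqp : q ≤ p := S.LE_trans hr2r1 hr1p
  refine ⟨q, hqp, le_iSup_of_le r2.n (le_iInf fun i => le_iInf fun hi => ?_)⟩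
  apply he.le_compl
  intro q1 hq1 h1
  obtain ⟨q2, hq2, h2⟩ := of_le_av he (h1.trans inf_le_left)
  obtain ⟨q3, hq3, h3⟩ := of_le_av he (((he.mono _ _ hq2).trans h1).trans inf_le_right)
  have h4 : i ∈ q3.1.a α := mem_mono hq3 h2
  have h5 : q3 ≤ q := hq3.trans (hq2.trans hq1)
  have h6 := ((S.LE_iff _ _ _).1 h5).1.2.2.2 α hα2 β hβ hne i h4 h3
  exact absurd h6 (not_lt.2 hi)

theorem unb_av (he : Emb e) (h : ℕ → ℕ → 𝔹) (h1 : ∀ n, ⨆ m, h n m = ⊤) :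
    ∃ x : ℕ → ℕ, ∀ N : ℕ, ⨆ n, ⨆ _ : N ≤ n, ⨆ m, ⨆ _ : m < x n, h n m = ⊤ := by
  choose c hc1 hc2 using fun n => he.exists_seq pos_ccc (h n) (h1 n)
  obtain ⟨x, hx⟩ := S.unb_poset (fun n k => ((c n k).1.1, (c n k).2)) (fun n k => (c n k).1.2)
    (by
      intro n r hr
      obtain ⟨k, g, hg1, hg2⟩ := hc2 n ⟨r, hr⟩
      exact ⟨k, g.1, hg1, hg2⟩)
  refine ⟨x, fun N => he.eq_top fun p => ?_⟩
  obtain ⟨n, hn, k, g, hg1, hg2, hlt⟩ := hx p.1 p.2 N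
  let q : Pos S := ⟨g, valid_of_le p.2 hg1⟩
  refine ⟨q, hg1, ?_⟩
  refine le_iSup_of_le n (le_iSup_of_le hn (le_iSup_of_le (c n k).2 (le_iSup_of_le hlt ?_)))
  exact (he.mono q (c n k).1 hg2).trans (hc1 n k)

/-- the Boolean value of `s(n) = k` for the generic stem at `ζ` -/
def sv (e : Pos S → 𝔹) (ζ : I) (n k : ℕ) : 𝔹 := ⨆ r : Pos S, ⨆ _ : (r.1.s ζ)[n]? = some k, e r

theorem le_sv {ζ : I} {n k : ℕ} {q : Pos S} (h : (q.1.s ζ)[n]? = some k) : e q ≤ sv e ζ n k :=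
  le_iSup_of_le q (le_iSup_of_le h le_rfl)

theorem of_le_sv (he : Emb e) {ζ : I} {n k : ℕ} {p : Pos S} (h : e p ≤ sv e ζ n k) :
    ∃ q, q ≤ p ∧ (q.1.s ζ)[n]? = some k := by
  obtain ⟨r, p1, hp1, h1⟩ := he.le_iSup h
  obtain ⟨hr, p2, hp2, h2⟩ := he.le_iSup h1
  obtain ⟨q, hq1, hq2⟩ := he.common h2
  exact ⟨q, hq1.trans (hp2.trans hp1), stem_get_mono hq2 hr⟩

theorem sv_disj (he : Emb e) {ζ : I} {n k k' : ℕ} (hk : k ≠ k') :
    sv e ζ n k ⊓ sv e ζ n k' = ⊥ := by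
  apply he.eq_bot
  intro p hp
  obtain ⟨q, hq, h1⟩ := of_le_sv he (hp.trans inf_le_left)
  obtain ⟨q', hq', h2⟩ := of_le_sv he (((he.mono _ _ hq).trans hp).trans inf_le_right)
  have h3 := stem_get_mono hq' h1
  rw [h2] at h3
  exact hk (Option.some.inj h3).symm

theorem sv_top (he : Emb e) {ζ : I} (hA : S.Act ζ) (n : ℕ) : ⨆ k, sv e ζ n k = ⊤ := by
  apply he.eq_top
  intro p
  obtain ⟨q, k, hq, hk⟩ := stem_entry hA n p
  exact ⟨q, hq, le_iSup_of_le k (le_sv hk)⟩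

/-- the finite set chosen at step `n` when the entry of the stem is `k` -/
noncomputable def eB (H : ℕ → K) (t : ℕ → K) (n k : ℕ) : Finset K :=
  insert (H k) ((Finset.range n).image t)

/-- the Boolean value of `B_n = E` -/
noncomputable def Bv (e : Pos S → 𝔹) (ζ : I) (t : ℕ → K) (n : ℕ) (E : Finset K) : 𝔹 :=
  ⨆ k, ⨆ _ : E = eB (S.H ζ) t n k, sv e ζ n k

theorem sv_le_Bv (ζ : I) (t : ℕ → K) (n k : ℕ) :
    sv e ζ n k ≤ Bv e ζ t n (eB (S.H ζ) t n k) :=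
  le_iSup_of_le k (le_iSup_of_le rfl le_rfl)

theorem Bv_top (he : Emb e) {ζ : I} (hA : S.Act ζ) (t : ℕ → K) (n : ℕ) :
    ⨆ E, Bv e ζ t n E = ⊤ := by
  rw [← top_le_iff, ← sv_top he hA n]
  exact iSup_le fun k => (sv_le_Bv ζ t n k).trans (le_iSup (fun E => Bv e ζ t n E) _)

theorem Bv_disj (he : Emb e) {ζ : I} (t : ℕ → K) (n : ℕ) (E E' : Finset K) (hE : E ≠ E') :
    Bv e ζ t n E ⊓ Bv e ζ t n E' = ⊥ := by
  unfold Bv
  rw [eq_bot_iff, iSup_inf_eq]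
  refine iSup_le fun k => ?_
  rw [iSup_inf_eq]
  refine iSup_le fun hk => ?_
  rw [inf_iSup_eq]
  refine iSup_le fun k' => ?_
  rw [inf_iSup_eq]
  refine iSup_le fun hk' => ?_
  have hne : k ≠ k' := by
    rintro rfl
    exact hE (hk.trans hk'.symm)
  rw [sv_disj he hne]

omit [WellFoundedLT I] in
theorem Hp_countable (S : Sys K I) (ζ : I) : (S.Hp ζ).Countable := by
  have h1 : S.Hp ζ = ⋃ k, {α | Cl S.code S.H ζ {Sum.inl (S.H ζ k)} (Sum.inl α)} := by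
    ext α
    simp [Sys.Hp]
  rw [h1]
  refine Set.countable_iUnion fun k => ?_
  have h2 := Cl_countable S.code S.H ζ
    (Set.countable_singleton (Sum.inl (S.H ζ k) : K ⊕ I))
  exact h2.preimage Sum.inl_injective

omit [WellFoundedLT I] in
theorem Hp_nonempty (S : Sys K I) (ζ : I) : (S.Hp ζ).Nonempty :=
  ⟨S.H ζ 0, 0, Cl.base (Set.mem_singleton _)⟩

theorem hur_av (he : Emb e)
    (hcode : ∀ (c : Code K I) (ζ₀ : I), ∃ ζ, ζ₀ ≤ ζ ∧ S.code ζ = c)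
    (hbdd : ∀ f : K × ℕ × ℕ → Finset I, ∃ ζ₀ : I, ∀ p, ∀ ξ ∈ f p, ξ < ζ₀)
    (f : K → ℕ → ℕ → 𝔹) (hf : ∀ α n, ⨆ m, f α n m = ⊤) :
    ∃ B : ℕ → Finset K → 𝔹, (∀ n, ⨆ E, B n E = ⊤) ∧ (∀ n E E', E ≠ E' → B n E ⊓ B n E' = ⊥) ∧
      ∀ α, ⨆ N : ℕ, ⨅ n, ⨅ _ : N ≤ n, ⨆ E, B n E ⊓
        (if α ∈ E then ⊤ else ⨆ β ∈ E, ⨆ i, ⨆ m, ⨆ m', ⨆ _ : m ≤ i ∧ m' ≤ i,
          (av e α i ⊓ av e β i) ⊓ (f α n m ⊓ f β n m')) = ⊤ := by
  choose c hc1 hc2 using fun α n => he.exists_seq pos_ccc (f α n) (hf α n)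
  obtain ⟨ζ₀, hζ₀⟩ := hbdd fun p => (c p.1 p.2.1 p.2.2).1.1.Z
  obtain ⟨ζ, hζ, hcζ⟩ := hcode (fun α n k => ((c α n k).1.1, (c α n k).2)) ζ₀
  have hcod : ∀ α n k, S.code ζ α n k = ((c α n k).1.1, (c α n k).2) := fun α n k => by rw [hcζ]
  have hZ : ∀ α n k, ∀ ξ ∈ (c α n k).1.1.Z, ξ < ζ := fun α n k ξ hξ =>
    lt_of_lt_of_le (hζ₀ (α, n, k) ξ hξ) hζ
  have hA : S.Act ζ := by
    apply S.act_of_top
    · intro α l k
      rw [hcod]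
      exact ⟨hZ α l k, (c α l k).1.2⟩
    · intro α l r hr
      obtain ⟨k, g, hg1, hg2⟩ := hc2 α l ⟨r, hr⟩
      refine ⟨k, g.1, hg1, ?_⟩
      rw [hcod]
      exact hg2
  obtain ⟨t, ht⟩ := (Hp_countable S ζ).exists_eq_range (Hp_nonempty S ζ)
  refine ⟨fun n E => Bv e ζ t n E, fun n => Bv_top he hA t n, fun n E E' hE =>
    Bv_disj he t n E E' hE, ?_⟩
  intro α
  by_cases hα : α ∈ S.Hp ζ
  · rw [ht] at hα
    obtain ⟨j, rfl⟩ := hα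
    rw [← top_le_iff]
    refine le_iSup_of_le (j + 1) (le_iInf fun n => le_iInf fun hn => ?_)
    refine (sv_top he hA n).symm.le.trans ?_
    refine iSup_le fun k => le_iSup_of_le (eB (S.H ζ) t n k) ?_
    have hmem : t j ∈ eB (S.H ζ) t n k :=
      Finset.mem_insert_of_mem (Finset.mem_image_of_mem _ (Finset.mem_range.2 (by omega)))
    rw [if_pos hmem, inf_top_eq]
    exact sv_le_Bv ζ t n k
  · apply he.eq_top
    intro p
    obtain ⟨r, hr, hrp, hαr⟩ := S.add_promise p.2 ζ α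
    let q : Pos S := ⟨r, hr⟩
    refine ⟨q, hrp, le_iSup_of_le (r.s ζ).length (le_iInf fun n => le_iInf fun hn => ?_)⟩
    apply he.le_of
    intro p' hp'
    obtain ⟨p2, hp2, hp2q⟩ := he.common hp'
    obtain ⟨p3, k, hp3, hk⟩ := stem_entry hA n p2
    refine ⟨p3, hp3.trans hp2, ?_⟩
    have hp3q : p3 ≤ q := hp3.trans hp2q
    obtain ⟨-, -, -, hstep⟩ := ((S.LE_iff _ _ _).1 hp3q).2 ζ (WithTop.coe_lt_top ζ)
    obtain ⟨-, -, hprom⟩ := hstep n k hn hk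
    obtain ⟨i, hi1, hi2, ⟨k1, hk1, hk1'⟩, ⟨k2, hk2, hk2'⟩⟩ := hprom α hαr hα
    rw [hcod] at hk1 hk1' hk2 hk2'
    have hle1 : p3 ≤ (c α n k1).1 := S.LE_top_of_LE p3.2 (hZ α n k1) hk1
    have hle2 : p3 ≤ (c (S.H ζ k) n k2).1 := S.LE_top_of_LE p3.2 (hZ _ n k2) hk2
    have hf1 : e p3 ≤ f α n (c α n k1).2 := (he.mono _ _ hle1).trans (hc1 α n k1)
    have hf2 : e p3 ≤ f (S.H ζ k) n (c (S.H ζ k) n k2).2 := (he.mono _ _ hle2).trans (hc1 _ n k2)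
    refine le_iSup_of_le (eB (S.H ζ) t n k) (le_inf ((le_sv hk).trans (sv_le_Bv ζ t n k)) ?_)
    split_ifs with hmem
    · exact le_top
    · refine le_iSup_of_le (S.H ζ k) (le_iSup_of_le (Finset.mem_insert_self _ _)
        (le_iSup_of_le i (le_iSup_of_le (c α n k1).2 (le_iSup_of_le (c (S.H ζ k) n k2).2
          (le_iSup_of_le ⟨hk1', hk2'⟩ (le_inf (le_inf (le_av hi1) (le_av hi2))
            (le_inf hf1 hf2)))))))

end Main

end CoreThm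

open CoreThm in
theorem exists_core : ∃ (𝔹 : Type) (_ : CompleteBooleanAlgebra 𝔹) (_ : Nontrivial 𝔹) (K : Type)
    (a : K → ℕ → 𝔹), Core 𝔹 K a ∧ ∃ ι : (ℕ → ℕ) → K, Function.Injective ι := by
  obtain ⟨K, I, lo, wf, S, hcode, hbdd, ι, hι⟩ := exists_sys
  obtain ⟨𝔹, cba, e, h1, h2, h3, h4⟩ := exists_RO (Pos S)
  have he : Emb e := ⟨h1, h2, h3, h4⟩
  have hnt : Nontrivial 𝔹 := by
    obtain ⟨p⟩ := (inferInstance : Nonempty (Pos S))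
    exact ⟨⟨e p, ⊥, he.ne p⟩⟩
  refine ⟨𝔹, cba, hnt, K, av e, ⟨inf_av he, ad_av he, ?_, ?_⟩, ι, hι⟩
  · intro f hf _
    exact hur_av he hcode hbdd f hf
  · intro h hh _
    exact unb_av he h hh

end Pool.Agent.StarHur
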