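import Pool.Agent.MP_b1d3ea_lc.Restrict

set_option autoImplicit false

namespace Pool.Agent.StarHur

open Classical

set_option linter.unusedSectionVars false

variable {K I : Type} [LinearOrder I] [WellFoundedLT I] (S : Sys K I)

/-- Add an index to the domain of a condition. -/
noncomputable def Cond.addDom (g : Cond K I) (T : Finset K) : Cond K I :=
  { g with
    D := g.D ∪ T
    ha := fun α i hi => ⟨Finset.mem_union_left _ (g.ha α i hi).1, (g.ha α i hi).2⟩
    hE := fun ζ α hα => Finset.mem_union_left _ (g.hE ζ α hα) }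

namespace Sys

namespace Deci

theorem a_of_notMem {g : Cond K I} {α : K} (h : α ∉ g.D) {i : ℕ} : i ∉ g.a α :=
  fun hi => h (g.ha α i hi).1

theorem LE_addDom (ζ : WithTop I) (g : Cond K I) (T : Finset K) : S.LE ζ (g.addDom T) g := by
  rw [LE_iff]
  refine ⟨⟨Finset.subset_union_left, le_rfl, fun _ _ _ _ => Iff.rfl, ?_⟩, ?_⟩
  · intro α _ β _ _ i hi _
    exact (g.ha α i hi).2
  · intro η _
    refine ⟨List.prefix_rfl, subset_rfl, subset_rfl, ?_⟩
    intro l k hl hk
    rw [show (g.addDom T).s η = g.s η from rfl, List.getElem?_eq_none hl] at hk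
    simp at hk

end Deci

open Deci

theorem exists_dec {ζ : I} (hA : S.Act ζ) {g : Cond K I} (hg : S.LE ζ g Cond.triv)
    (T : Finset (K × ℕ)) : ∃ g' N, S.LE ζ g' Cond.triv ∧ S.LE ζ g' g ∧
      ∀ p ∈ T, p.1 ∈ g'.D ∧ S.Dec ζ g' p.1 p.2 N := by
  classical
  induction T using Finset.induction_on with
  | empty => exact ⟨g, 0, hg, S.LE_refl _ _, by simp⟩
  | insert p T hp ih =>
    obtain ⟨g1, N, h1t, h1g, h1T⟩ := ih
    obtain ⟨k, g2, h21, h2c⟩ := hA.2 p.1 p.2 g1 h1t
    have h3 : S.LE ζ (g2.addDom {p.1}) g2 := LE_addDom S ζ g2 {p.1}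
    have h31 : S.LE ζ (g2.addDom {p.1}) g1 := S.LE_trans h3 h21
    refine ⟨g2.addDom {p.1}, max N (S.code ζ p.1 p.2 k).2, S.LE_trans h31 h1t,
      S.LE_trans h31 h1g, ?_⟩
    intro q hq
    rcases Finset.mem_insert.1 hq with rfl | hq
    · refine ⟨?_, k, S.LE_trans h3 h2c, le_max_right _ _⟩
      exact Finset.mem_union_right _ (Finset.mem_singleton_self _)
    · obtain ⟨hq1, hq2⟩ := h1T q hq
      exact ⟨((S.LE_iff _ _ _).1 h31).1.1 hq1, S.Dec_mono h31 hq2 (le_max_left _ _)⟩

theorem act_of_top {ζ : I} (h1 : ∀ α l k, (∀ ξ ∈ (S.code ζ α l k).1.Z, ξ < ζ) ∧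
      S.LE ⊤ (S.code ζ α l k).1 Cond.triv)
    (h2 : ∀ α l r, S.LE ⊤ r Cond.triv → ∃ k g, S.LE ⊤ g r ∧ S.LE ⊤ g (S.code ζ α l k).1) :
    S.Act ζ := by
  refine ⟨fun α l k => ⟨(h1 α l k).1, S.LE_mono le_top (h1 α l k).2⟩, ?_⟩
  intro α l r hr
  set r0 : Cond K I := r.restr (below (ζ : WithTop I)) with hr0
  have hrt : S.LE ⊤ r0 Cond.triv := by
    rw [le_triv_iff]
    intro η _ hne
    by_cases hη : (Sum.inr η : K ⊕ I) ∈ below (ζ : WithTop I)
    · refine (S.le_triv_iff ζ r).1 hr η (hη η rfl) ?_
      intro hs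
      apply hne
      simp [hr0, Cond.restr, hs]
    · exfalso
      apply hne
      simp [hr0, Cond.restr, hη]
  have hle : S.LE ζ r0 r := by
    rw [LE_iff]
    have hin : ∀ α : K, (Sum.inl α : K ⊕ I) ∈ below (ζ : WithTop I) := by
      intro α ξ hξ
      simp at hξ
    refine ⟨⟨?_, le_rfl, ?_, ?_⟩, ?_⟩
    · intro α hα
      exact Finset.mem_filter.2 ⟨hα, hin α⟩
    · intro α _ i _
      simp [hr0, Cond.restr, hin]
    · intro α _ β _ _ i hi _
      have hi' : i ∈ r.a α := by simpa [hr0, Cond.restr, hin] using hi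
      exact (r.ha α i hi').2
    · intro η hη
      have hm : (Sum.inr η : K ⊕ I) ∈ below (ζ : WithTop I) := by
        intro ξ hξ
        rw [Sum.inr.injEq] at hξ
        rw [← hξ]
        exact hη
      have e1 : r0.s η = r.s η := by simp [hr0, Cond.restr, hm]
      have e2 : r0.E η = r.E η := by
        simp only [hr0, Cond.restr, hm, if_true]
        exact Finset.filter_true_of_mem fun α _ => hin α
      have e3 : r0.M η = r.M η := by simp [hr0, Cond.restr, hm]
      refine ⟨by rw [e1], by rw [e2], by rw [e3], ?_⟩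
      intro l k hl hk
      rw [e1, List.getElem?_eq_none hl] at hk
      simp at hk
  obtain ⟨k, g, hg1, hg2⟩ := h2 α l r0 hrt
  exact ⟨k, g, S.LE_trans (S.LE_mono le_top hg1) hle, S.LE_mono le_top hg2⟩

theorem add_dom {r : Cond K I} (hr : S.LE ⊤ r Cond.triv) (α : K) :
    ∃ r', S.LE ⊤ r' Cond.triv ∧ S.LE ⊤ r' r ∧ α ∈ r'.D := by
  have h := LE_addDom S ⊤ r {α}
  exact ⟨r.addDom {α}, S.LE_trans h hr, h,
    Finset.mem_union_right _ (Finset.mem_singleton_self _)⟩

theorem add_promise {r : Cond K I} (hr : S.LE ⊤ r Cond.triv) (ζ : I) (α : K) :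
    ∃ r', S.LE ⊤ r' Cond.triv ∧ S.LE ⊤ r' r ∧ α ∈ r'.E ζ := by
  classical
  obtain ⟨r1, h1t, h1r, h1α⟩ := S.add_dom hr α
  let r' : Cond K I :=
    { r1 with
      Z := insert ζ r1.Z
      E := Function.update r1.E ζ (insert α (r1.E ζ))
      hE := by
        intro ξ β hβ
        by_cases hξ : ξ = ζ
        · subst hξ
          rw [Function.update_self, Finset.mem_insert] at hβ
          rcases hβ with rfl | hβ
          · exact h1α
          · exact r1.hE ξ β hβ
        · rw [Function.update_of_ne hξ] at hβ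
          exact r1.hE ξ β hβ
      hZ := by
        intro ξ hξ
        rw [Finset.mem_insert, not_or] at hξ
        rw [Function.update_of_ne hξ.1]
        exact r1.hZ ξ hξ.2 }
  have hle : S.LE ⊤ r' r1 := by
    rw [LE_iff]
    refine ⟨⟨subset_rfl, le_rfl, fun _ _ _ _ => Iff.rfl, ?_⟩, ?_⟩
    · intro α _ β _ _ i hi _
      exact (r1.ha α i hi).2
    · intro η _
      refine ⟨List.prefix_rfl, ?_, subset_rfl, ?_⟩
      · show r1.E η ⊆ Function.update r1.E ζ (insert α (r1.E ζ)) η
        by_cases hη : η = ζ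
        · subst hη
          rw [Function.update_self]
          exact Finset.subset_insert _ _
        · rw [Function.update_of_ne hη]
      · intro l k hl hk
        rw [show r'.s η = r1.s η from rfl, List.getElem?_eq_none hl] at hk
        simp at hk
  refine ⟨r', S.LE_trans hle h1t, S.LE_trans hle h1r, ?_⟩
  show α ∈ Function.update r1.E ζ (insert α (r1.E ζ)) ζ
  rw [Function.update_self]
  exact Finset.mem_insert_self _ _

theorem add_elem {r : Cond K I} (hr : S.LE ⊤ r Cond.triv) (α : K) (N : ℕ) :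
    ∃ r', S.LE ⊤ r' Cond.triv ∧ S.LE ⊤ r' r ∧ ∃ i, N ≤ i ∧ i ∈ r'.a α := by
  classical
  obtain ⟨r1, h1t, h1r, h1α⟩ := S.add_dom hr α
  let m := max N r1.n
  let r' : Cond K I :=
    { r1 with
      n := m + 1
      a := Function.update r1.a α (insert m (r1.a α))
      ha := by
        intro β i hi
        by_cases hβ : β = α
        · subst hβ
          rw [Function.update_self, Finset.mem_insert] at hi
          rcases hi with rfl | hi
          · exact ⟨h1α, Nat.lt_succ_self _⟩
          · exact ⟨h1α, lt_of_lt_of_le (r1.ha β i hi).2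
              ((le_max_right _ _).trans (Nat.le_succ _))⟩
        · rw [Function.update_of_ne hβ] at hi
          exact ⟨(r1.ha β i hi).1, lt_of_lt_of_le (r1.ha β i hi).2
            ((le_max_right _ _).trans (Nat.le_succ _))⟩ }
  have hle : S.LE ⊤ r' r1 := by
    rw [LE_iff]
    refine ⟨⟨subset_rfl, (le_max_right _ _).trans (Nat.le_succ _), ?_, ?_⟩, ?_⟩
    · intro β _ i hi
      show i ∈ Function.update r1.a α (insert m (r1.a α)) β ↔ i ∈ r1.a β
      by_cases hβ : β = α
      · subst hβ
        rw [Function.update_self, Finset.mem_insert]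
        constructor
        · rintro (h | h)
          · exfalso
            have : r1.n ≤ m := le_max_right _ _
            omega
          · exact h
        · exact Or.inr
      · rw [Function.update_of_ne hβ]
    · intro β _ γ _ hβγ i hi hi'
      have hi1 : i ∈ Function.update r1.a α (insert m (r1.a α)) β := hi
      have hi2 : i ∈ Function.update r1.a α (insert m (r1.a α)) γ := hi'
      by_cases hβ : β = α
      · have hγ : γ ≠ α := fun h => hβγ (hβ.trans h.symm)
        rw [Function.update_of_ne hγ] at hi2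
        exact (r1.ha γ i hi2).2
      · rw [Function.update_of_ne hβ] at hi1
        exact (r1.ha β i hi1).2
    · intro η _
      refine ⟨List.prefix_rfl, subset_rfl, subset_rfl, ?_⟩
      intro l k hl hk
      rw [show r'.s η = r1.s η from rfl, List.getElem?_eq_none hl] at hk
      simp at hk
  refine ⟨r', S.LE_trans hle h1t, S.LE_trans hle h1r, m, le_max_left _ _, ?_⟩
  show m ∈ Function.update r1.a α (insert m (r1.a α)) α
  rw [Function.update_self]
  exact Finset.mem_insert_self _ _

end Sys

end Pool.Agent.StarHur
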