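import Mathlib

/-!
# A star-Hurewicz Psi-space of size at least b: the forcing (definitions)

`K` indexes the generic almost disjoint family, `I` is a well-order of coordinates.  A condition is a
finite object: a finite approximation of the sets `A α` (`α ∈ D`), and for finitely many coordinates
`ζ ∈ Z` a finite stem `s ζ` (a list of natural numbers `k`, meaning the member `H ζ k`), a finite set
`E ζ` of promises and a finite set `M ζ` of forbidden values.
-/

set_option autoImplicit false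

namespace Pool.Agent.StarHur

open Classical

variable {K I : Type}

/-- The finite conditions (before the order is defined). -/
structure Cond (K I : Type) where
  /-- the finitely many indices mentioned -/
  D : Finset K
  /-- height -/
  n : ℕ
  /-- approximations to the sets `A α` -/
  a : K → Finset ℕ
  /-- the finitely many active coordinates -/
  Z : Finset I
  /-- stems -/
  s : I → List ℕ
  /-- promises -/
  E : I → Finset K
  /-- forbidden values -/
  M : I → Finset ℕ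
  ha : ∀ α i, i ∈ a α → α ∈ D ∧ i < n
  hE : ∀ ζ α, α ∈ E ζ → α ∈ D
  hZ : ∀ ζ, ζ ∉ Z → s ζ = [] ∧ E ζ = ∅ ∧ M ζ = ∅

/-- The trivial condition. -/
def Cond.triv : Cond K I where
  D := ∅
  n := 0
  a := fun _ => ∅
  Z := ∅
  s := fun _ => []
  E := fun _ => ∅
  M := fun _ => ∅
  ha := by simp
  hE := by simp
  hZ := by simp

/-- A code for a name of a function `K → ℕ → ℕ`: for `α` and `l` a sequence of pairs
(condition, value). -/
abbrev Code (K I : Type) := K → ℕ → ℕ → Cond K I × ℕ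

section Closure

variable [LinearOrder I] (code : I → Code K I) (H : I → ℕ → K)

/-- Closure of a set of coordinates at stage `ζ`: closed under the sets `H η` and under the supports of the
names `code η` for `η < ζ` in the set, and under the supports of the names `code ζ`. -/
inductive Cl (ζ : I) (e : Set (K ⊕ I)) : K ⊕ I → Prop
  | base {x : K ⊕ I} (h : x ∈ e) : Cl ζ e x
  | node {η : I} (h : η < ζ) (hη : Cl ζ e (Sum.inr η)) (k : ℕ) : Cl ζ e (Sum.inl (H η k))
  | suppK {η : I} {α : K} (h : η < ζ) (hη : Cl ζ e (Sum.inr η)) (hα : Cl ζ e (Sum.inl α)) (l k : ℕ)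
      {β : K} (hβ : β ∈ (code η α l k).1.D) : Cl ζ e (Sum.inl β)
  | suppI {η : I} {α : K} (h : η < ζ) (hη : Cl ζ e (Sum.inr η)) (hα : Cl ζ e (Sum.inl α)) (l k : ℕ)
      {ξ : I} (hξ : ξ ∈ (code η α l k).1.Z) (hlt : ξ < η) : Cl ζ e (Sum.inr ξ)
  | topK {α : K} (hα : Cl ζ e (Sum.inl α)) (l k : ℕ)
      {β : K} (hβ : β ∈ (code ζ α l k).1.D) : Cl ζ e (Sum.inl β)
  | topI {α : K} (hα : Cl ζ e (Sum.inl α)) (l k : ℕ)
      {ξ : I} (hξ : ξ ∈ (code ζ α l k).1.Z) (hlt : ξ < ζ) : Cl ζ e (Sum.inr ξ)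

end Closure

/-- The parameters of the forcing: names `code ζ` and countable sets `H ζ` of indices which are almost
disjoint from the closure of every finite set of earlier coordinates. -/
structure Sys (K I : Type) [LinearOrder I] where
  code : I → Code K I
  H : I → ℕ → K
  Hinj : ∀ ζ, Function.Injective (H ζ)
  ad : ∀ (ζ : I) (e : Finset (K ⊕ I)), (∀ η, Sum.inr η ∈ e → η < ζ) →
    {k : ℕ | Cl code H ζ (e : Set (K ⊕ I)) (Sum.inl (H ζ k))}.Finite

namespace Sys

variable [LinearOrder I] [WellFoundedLT I] (S : Sys K I)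

/-- Indices to which the promise of coordinate `ζ` does not apply. -/
def Hp (ζ : I) : Set K := {α | ∃ k, Cl S.code S.H ζ {Sum.inl (S.H ζ k)} (Sum.inl α)}

/-- `R q q'` is the order below `ζ`; `Dec R ζ q α l i`: `q` decides that the value of the `ζ`-th name at
`(α, l)` is some number at most `i`. -/
def DecR (R : Cond K I → Cond K I → Prop) (ζ : I) (q : Cond K I) (α : K) (l i : ℕ) : Prop :=
  ∃ k, R q (S.code ζ α l k).1 ∧ (S.code ζ α l k).2 ≤ i

/-- The `ζ`-th code is a name for a function with respect to the forcing below `ζ`. -/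
def ActR (R : Cond K I → Cond K I → Prop) (ζ : I) : Prop :=
  (∀ α l k, (∀ ξ ∈ (S.code ζ α l k).1.Z, ξ < ζ) ∧ R (S.code ζ α l k).1 Cond.triv) ∧
  ∀ α l r, R r Cond.triv → ∃ k g, R g r ∧ R g (S.code ζ α l k).1

/-- Order at coordinate `ζ` (given the order `R` below `ζ`). -/
def StepR (R : Cond K I → Cond K I → Prop) (ζ : I) (r' r : Cond K I) : Prop :=
  r.s ζ <+: r'.s ζ ∧ r.E ζ ⊆ r'.E ζ ∧ r.M ζ ⊆ r'.M ζ ∧
  ∀ l k, (r.s ζ).length ≤ l → (r'.s ζ)[l]? = some k →
    k ∉ r.M ζ ∧ S.ActR R ζ ∧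
    ∀ α ∈ r.E ζ, α ∉ S.Hp ζ → ∃ i, i ∈ r'.a α ∧ i ∈ r'.a (S.H ζ k) ∧
      S.DecR R ζ r' α l i ∧ S.DecR R ζ r' (S.H ζ k) l i

/-- The order of the first forcing (Hechler's forcing for an almost disjoint family). -/
def Base (r' r : Cond K I) : Prop :=
  r.D ⊆ r'.D ∧ r.n ≤ r'.n ∧
  (∀ α ∈ r.D, ∀ i < r.n, (i ∈ r'.a α ↔ i ∈ r.a α)) ∧
  ∀ α ∈ r.D, ∀ β ∈ r.D, α ≠ β → ∀ i, i ∈ r'.a α → i ∈ r'.a β → i < r.n

/-- The order below `ζ`, by recursion on `ζ`. -/
def LE : WithTop I → Cond K I → Cond K I → Prop :=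
  (wellFounded_lt (α := WithTop I)).fix fun ζ R r' r =>
    Base r' r ∧ ∀ (η : I) (h : (η : WithTop I) < ζ), S.StepR (R η h) η r' r

/-- decision at coordinate `ζ` -/
def Dec (ζ : I) (q : Cond K I) (α : K) (l i : ℕ) : Prop := S.DecR (S.LE ζ) ζ q α l i

/-- active coordinates -/
def Act (ζ : I) : Prop := S.ActR (S.LE ζ) ζ

/-- Sets of coordinates closed under the sets `H η` and the supports of names. -/
def Closed (W : Set (K ⊕ I)) : Prop :=
  (∀ η, Sum.inr η ∈ W → ∀ k, Sum.inl (S.H η k) ∈ W) ∧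
  ∀ η α, Sum.inr η ∈ W → Sum.inl α ∈ W → ∀ l k,
    (∀ β ∈ (S.code η α l k).1.D, Sum.inl β ∈ W) ∧
    ∀ ξ ∈ (S.code η α l k).1.Z, ξ < η → Sum.inr ξ ∈ W

/-- Closed under the supports of the names `code ζ`. -/
def TopClosed (ζ : I) (W : Set (K ⊕ I)) : Prop :=
  ∀ α, Sum.inl α ∈ W → ∀ l k,
    (∀ β ∈ (S.code ζ α l k).1.D, Sum.inl β ∈ W) ∧
    ∀ ξ ∈ (S.code ζ α l k).1.Z, ξ < ζ → Sum.inr ξ ∈ W

end Sys

/-- Restriction of a condition to a set of coordinates. -/
noncomputable def Cond.restr (g : Cond K I) (W : Set (K ⊕ I)) : Cond K I where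
  D := g.D.filter (fun α => Sum.inl α ∈ W)
  n := g.n
  a := fun α => if Sum.inl α ∈ W then g.a α else ∅
  Z := g.Z.filter (fun ζ => Sum.inr ζ ∈ W)
  s := fun ζ => if Sum.inr ζ ∈ W then g.s ζ else []
  E := fun ζ => if Sum.inr ζ ∈ W then (g.E ζ).filter (fun α => Sum.inl α ∈ W) else ∅
  M := fun ζ => if Sum.inr ζ ∈ W then g.M ζ else ∅
  ha := by
    intro α i hi
    split_ifs at hi with h
    · exact ⟨Finset.mem_filter.2 ⟨(g.ha α i hi).1, h⟩, (g.ha α i hi).2⟩
    · simp at hi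
  hE := by
    intro ζ α hα
    split_ifs at hα with h
    · rw [Finset.mem_filter] at hα
      exact Finset.mem_filter.2 ⟨g.hE ζ α hα.1, hα.2⟩
    · simp at hα
  hZ := by
    intro ζ hζ
    by_cases h : (Sum.inr ζ : K ⊕ I) ∈ W
    · have h' : ζ ∉ g.Z := fun h' => hζ (Finset.mem_filter.2 ⟨h', h⟩)
      obtain ⟨h1, h2, h3⟩ := g.hZ ζ h'
      simp [h, h1, h2, h3]
    · simp [h]

/-- The coordinates of a condition below `ζ` (all coordinates in `K`). -/
def domLt [LinearOrder I] (ζ : WithTop I) (r : Cond K I) : Set (K ⊕ I) :=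
  {x | (∃ α ∈ r.D, x = Sum.inl α) ∨ ∃ η ∈ r.Z, (η : WithTop I) < ζ ∧ x = Sum.inr η}

/-- The coordinates below `ζ`. -/
def below [LinearOrder I] (ζ : WithTop I) : Set (K ⊕ I) :=
  {x | ∀ η, x = Sum.inr η → (η : WithTop I) < ζ}

/-- Tidy conditions: at each coordinate the members of `H ζ` in the closure of the earlier coordinates are
forbidden. -/
def Sys.Tidy [LinearOrder I] (S : Sys K I) (r : Cond K I) : Prop :=
  ∀ ζ ∈ r.Z, ∀ k, Cl S.code S.H ζ (domLt (ζ : WithTop I) r) (Sum.inl (S.H ζ k)) → k ∈ r.M ζ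

end Pool.Agent.StarHur
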