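import Pool.Agent.BVM.AxInf
import Pool.Agent.MP_b1d3ea_lc.Pairs

/-! # Names for the almost disjoint family and for the ground model functions -/

set_option autoImplicit false

namespace Pool.Agent.StarHur

open Pool.Agent.BVM Classical

variable {𝔹 : Type} [CompleteBooleanAlgebra 𝔹]

/-- name of `A α` -/
def aN {K : Type} (a : K → ℕ → 𝔹) (α : K) : BSet 𝔹 := ⟨ℕ, num, a α⟩
/-- name of the family -/
def famN {K : Type} (a : K → ℕ → 𝔹) : BSet 𝔹 := ⟨K, aN a, fun _ => ⊤⟩
/-- name of a ground model function -/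
def funN (x : ℕ → ℕ) : BSet 𝔹 := ⟨ℕ, fun n => opair (num n) (num (x n)), fun _ => ⊤⟩
/-- name of the set of ground model functions -/
def groundN : BSet 𝔹 := ⟨ℕ → ℕ, funN, fun _ => ⊤⟩

end Pool.Agent.StarHur
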