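import Pool.Agent.MP_b1d3ea_lc.Defs

/-!
# MP_b1d3ea_lc, module II1: the order of the forcing
-/

set_option autoImplicit false

namespace Pool.Agent.StarHur

open Classical

namespace OrderAux

open Sys

variable {K I : Type}

theorem Base_refl (r : Cond K I) : Base r r :=
  ⟨Finset.Subset.refl _, le_rfl, fun _ _ _ _ => Iff.rfl, fun α _ _ _ _ i hi _ => (r.ha α i hi).2⟩

theorem Base_trans {r'' r' r : Cond K I} (h1 : Base r'' r') (h2 : Base r' r) : Base r'' r := by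
  refine ⟨h2.1.trans h1.1, h2.2.1.trans h1.2.1, fun α hα i hi => ?_, fun α hα β hβ hne i hiα hiβ => ?_⟩
  · exact (h1.2.2.1 α (h2.1 hα) i (lt_of_lt_of_le hi h2.2.1)).trans (h2.2.2.1 α hα i hi)
  · have h3 : i < r'.n := h1.2.2.2 α (h2.1 hα) β (h2.1 hβ) hne i hiα hiβ
    exact h2.2.2.2 α hα β hβ hne i ((h1.2.2.1 α (h2.1 hα) i h3).1 hiα)
      ((h1.2.2.1 β (h2.1 hβ) i h3).1 hiβ)

theorem Base_mem {r' r : Cond K I} (h : Base r' r) {α : K} {i : ℕ} (hi : i ∈ r.a α) :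
    i ∈ r'.a α :=
  (h.2.2.1 α (r.ha α i hi).1 i (r.ha α i hi).2).2 hi

theorem Base_triv (r : Cond K I) : Base r Cond.triv := by
  refine ⟨by simp [Cond.triv], by simp [Cond.triv], ?_, ?_⟩
  · intro α hα
    simp [Cond.triv] at hα
  · intro α hα
    simp [Cond.triv] at hα

end OrderAux

section

variable {K I : Type} [LinearOrder I] [WellFoundedLT I] (S : Sys K I)

namespace Sys

open OrderAux

theorem LE_iff (ζ : WithTop I) (r' r : Cond K I) : S.LE ζ r' r ↔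
    Base r' r ∧ ∀ η : I, (η : WithTop I) < ζ → S.StepR (S.LE η) η r' r := by
  unfold LE
  rw [WellFounded.fix_eq]

theorem LE_mono {ζ ξ : WithTop I} (h : ζ ≤ ξ) {r' r : Cond K I} (H : S.LE ξ r' r) : S.LE ζ r' r := by
  rw [LE_iff] at H ⊢
  exact ⟨H.1, fun η hη => H.2 η (lt_of_lt_of_le hη h)⟩

theorem LE_refl (ζ : WithTop I) (r : Cond K I) : S.LE ζ r r := by
  rw [LE_iff]
  refine ⟨Base_refl r, fun η _ => ⟨List.prefix_refl _, Finset.Subset.refl _, Finset.Subset.refl _,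
    fun l k hl hk => ?_⟩⟩
  rw [List.getElem?_eq_none hl] at hk
  exact absurd hk (by simp)

theorem LE_trans {ζ : WithTop I} {r'' r' r : Cond K I} (h1 : S.LE ζ r'' r') (h2 : S.LE ζ r' r) :
    S.LE ζ r'' r := by
  induction ζ using (wellFounded_lt (α := WithTop I)).induction generalizing r'' r' r with
  | _ ζ ih =>
    rw [LE_iff] at h1 h2 ⊢
    refine ⟨Base_trans h1.1 h2.1, fun η hη => ?_⟩
    obtain ⟨p1, e1, m1, s1⟩ := h1.2 η hη
    obtain ⟨p2, e2, m2, s2⟩ := h2.2 η hη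
    have h1η : S.LE η r'' r' := by
      rw [LE_iff]
      exact ⟨h1.1, fun ξ hξ => h1.2 ξ (hξ.trans hη)⟩
    refine ⟨p2.trans p1, e2.trans e1, m2.trans m1, fun l k hl hk => ?_⟩
    rcases lt_or_ge l (r'.s η).length with hlt | hge
    · have hk' : (r'.s η)[l]? = some k := by
        obtain ⟨t, ht⟩ := p1
        rwa [← ht, List.getElem?_append_left hlt] at hk
      obtain ⟨q1, q2, q3⟩ := s2 l k hl hk'
      refine ⟨q1, q2, fun α hα hH => ?_⟩
      obtain ⟨i, i1, i2, ⟨k1, d1, v1⟩, ⟨k2, d2, v2⟩⟩ := q3 α hα hH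
      exact ⟨i, Base_mem h1.1 i1, Base_mem h1.1 i2, ⟨k1, ih η hη h1η d1, v1⟩,
        ⟨k2, ih η hη h1η d2, v2⟩⟩
    · obtain ⟨q1, q2, q3⟩ := s1 l k hge hk
      exact ⟨fun h => q1 (m2 h), q2, fun α hα hH => q3 α (e2 hα) hH⟩

theorem Dec_mono {ζ : I} {q' q : Cond K I} {α : K} {l i i' : ℕ} (h : S.LE ζ q' q)
    (hd : S.Dec ζ q α l i) (hi : i ≤ i') : S.Dec ζ q' α l i' := by
  obtain ⟨k, h1, h2⟩ := hd
  exact ⟨k, S.LE_trans h h1, h2.trans hi⟩

theorem le_triv_iff (ζ : WithTop I) (r : Cond K I) : S.LE ζ r Cond.triv ↔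
    ∀ η : I, (η : WithTop I) < ζ → r.s η ≠ [] → S.Act η := by
  rw [LE_iff]
  constructor
  · rintro ⟨_, h⟩ η hη hne
    obtain ⟨k, t, hs⟩ := List.exists_cons_of_ne_nil hne
    exact ((h η hη).2.2.2 0 k (by simp [Cond.triv]) (by simp [hs])).2.1
  · intro h
    refine ⟨Base_triv r, fun η hη => ⟨by simp [Cond.triv], by simp [Cond.triv],
      by simp [Cond.triv], fun l k _ hk => ?_⟩⟩
    refine ⟨by simp [Cond.triv], h η hη ?_, fun α hα => ?_⟩
    · intro h0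
      simp [h0] at hk
    · simp [Cond.triv] at hα

/-- the order below `ζ` only depends on the coordinates below `ζ` -/
theorem LE_top_of_LE {ζ : I} {g c : Cond K I} (hg : S.LE ⊤ g Cond.triv) (hc : ∀ ξ ∈ c.Z, ξ < ζ)
    (h : S.LE ζ g c) : S.LE ⊤ g c := by
  rw [LE_iff] at h ⊢
  refine ⟨h.1, fun η hη => ?_⟩
  by_cases hlt : η < ζ
  · exact h.2 η (WithTop.coe_lt_coe.2 hlt)
  · have hnZ : η ∉ c.Z := fun hZ => hlt (hc η hZ)
    obtain ⟨h1, h2, h3⟩ := c.hZ η hnZ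
    refine ⟨by simp [h1], by simp [h2], by simp [h3], fun l k _ hk => ⟨by simp [h3], ?_, ?_⟩⟩
    · refine (S.le_triv_iff ⊤ g).1 hg η hη ?_
      intro h0
      simp [h0] at hk
    · intro α hα
      simp [h2] at hα

end Sys

end

end Pool.Agent.StarHur
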