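import Pool.Agent.MP_b1d3ea_lc.Decide

set_option autoImplicit false

namespace Pool.Agent.StarHur

open Classical

set_option linter.unusedSectionVars false

variable {K I : Type} [LinearOrder I] [WellFoundedLT I] (S : Sys K I)

/-- Replace the data at coordinate `η`. -/
noncomputable def Cond.upd (g : Cond K I) (η : I) (s : List ℕ) (E : Finset K) (M : Finset ℕ)
    (h : E ⊆ g.D) : Cond K I where
  D := g.D
  n := g.n
  a := g.a
  Z := insert η g.Z
  s := Function.update g.s η s
  E := Function.update g.E η E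
  M := Function.update g.M η M
  ha := g.ha
  hE := by
    intro ζ α hα
    by_cases hζ : ζ = η
    · subst hζ
      rw [Function.update_self] at hα
      exact h hα
    · rw [Function.update_of_ne hζ] at hα
      exact g.hE ζ α hα
  hZ := by
    intro ζ hζ
    rw [Finset.mem_insert, not_or] at hζ
    simp only [Function.update_of_ne hζ.1]
    exact g.hZ ζ hζ.2

namespace Sys

namespace Red

/-- same base part and same data below `ζ` -/
theorem LE_of_agree {ζ : WithTop I} {g' g : Cond K I} (hD : g'.D = g.D) (hn : g'.n = g.n)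
    (ha : g'.a = g.a) (h : ∀ η : I, (η : WithTop I) < ζ → g'.s η = g.s η ∧ g'.E η = g.E η ∧
      g'.M η = g.M η) : S.LE ζ g' g := by
  rw [LE_iff]
  refine ⟨⟨by rw [hD], by rw [hn], ?_, ?_⟩, ?_⟩
  · intro α _ i _
    rw [ha]
  · intro α _ β _ _ i hi _
    rw [ha] at hi
    exact (g.ha α i hi).2
  · intro η hη
    obtain ⟨h1, h2, h3⟩ := h η hη
    refine ⟨by rw [h1], by rw [h2], by rw [h3], ?_⟩
    intro l k hl hk
    rw [h1] at hk
    rw [List.getElem?_eq_none hl] at hk
    simp at hk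

theorem step_triv {R : Cond K I → Cond K I → Prop} {η : I} {g r : Cond K I} (h1 : r.s η = [])
    (h2 : r.E η = ∅) (h3 : r.M η = ∅) (h4 : g.s η = []) : S.StepR R η g r := by
  refine ⟨by rw [h1]; exact List.nil_prefix, by rw [h2]; exact Finset.empty_subset _,
    by rw [h3]; exact Finset.empty_subset _, ?_⟩
  intro l k _ hk
  rw [h4] at hk
  simp at hk

theorem step_act {R : Cond K I → Cond K I → Prop} {η : I} {g r : Cond K I} (h1 : r.s η = [])
    (h2 : r.E η = ∅) (h3 : r.M η = ∅) (h4 : g.s η ≠ [] → S.ActR R η) : S.StepR R η g r := by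
  refine ⟨by rw [h1]; exact List.nil_prefix, by rw [h2]; exact Finset.empty_subset _,
    by rw [h3]; exact Finset.empty_subset _, ?_⟩
  intro l k _ hk
  refine ⟨by rw [h3]; simp, h4 ?_, by rw [h2]; simp⟩
  intro h
  rw [h] at hk
  simp at hk

theorem LE_base {ζ : WithTop I} {g r : Cond K I} (h : S.LE ζ g r) : Base g r :=
  ((S.LE_iff ζ g r).1 h).1

theorem LE_step {ζ : WithTop I} {g r : Cond K I} (h : S.LE ζ g r) {η : I}
    (hη : (η : WithTop I) < ζ) : S.StepR (S.LE η) η g r :=
  ((S.LE_iff ζ g r).1 h).2 η hη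

theorem base_mem {g r : Cond K I} (h : Base g r) {α : K} {i : ℕ} (hi : i ∈ r.a α) : i ∈ g.a α := by
  obtain ⟨h1, h2⟩ := r.ha α i hi
  exact (h.2.2.1 α h1 i h2).2 hi

end Red

open Red

theorem exists_tidy {r : Cond K I} (hr : S.LE ⊤ r Cond.triv) :
    ∃ r', S.LE ⊤ r' Cond.triv ∧ S.LE ⊤ r' r ∧ S.Tidy r' := by
  classical
  have hfin : ∀ ζ : I, {k : ℕ | Cl S.code S.H ζ (domLt (ζ : WithTop I) r)
      (Sum.inl (S.H ζ k))}.Finite := by
    intro ζ
    have h := S.ad ζ (r.D.image Sum.inl ∪ (r.Z.filter (fun η => η < ζ)).image Sum.inr) (by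
      intro η hη
      simp only [Finset.mem_union, Finset.mem_image, reduceCtorEq, and_false, exists_false,
        Finset.mem_filter, Sum.inr.injEq, exists_eq_right, false_or] at hη
      exact hη.2)
    have he : ((r.D.image Sum.inl ∪ (r.Z.filter (fun η => η < ζ)).image Sum.inr :
        Finset (K ⊕ I)) : Set (K ⊕ I)) = domLt (ζ : WithTop I) r := by
      ext x
      simp only [Finset.coe_union, Finset.coe_image, Finset.coe_filter, Set.mem_union,
        Set.mem_image, Finset.mem_coe, Set.mem_ofPred_eq, domLt, WithTop.coe_lt_coe]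
      constructor
      · rintro (⟨α, h1, h2⟩ | ⟨η, ⟨h1, h2⟩, h3⟩)
        · exact Or.inl ⟨α, h1, h2.symm⟩
        · exact Or.inr ⟨η, h1, h2, h3.symm⟩
      · rintro (⟨α, h1, h2⟩ | ⟨η, h1, h2, h3⟩)
        · exact Or.inl ⟨α, h1, h2.symm⟩
        · exact Or.inr ⟨η, ⟨h1, h2⟩, h3.symm⟩
    rw [he] at h
    exact h
  let r' : Cond K I :=
    { r with
      M := fun ζ => if ζ ∈ r.Z then r.M ζ ∪ (hfin ζ).toFinset else ∅
      hZ := by
        intro ζ hζ
        obtain ⟨h1, h2, h3⟩ := r.hZ ζ hζ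
        simp [hζ, h1, h2] }
  have hle : S.LE ⊤ r' r := by
    rw [LE_iff]
    refine ⟨⟨subset_rfl, le_rfl, fun _ _ _ _ => Iff.rfl, ?_⟩, ?_⟩
    · intro α _ β _ _ i hi _
      exact (r.ha α i hi).2
    · intro η _
      refine ⟨List.prefix_rfl, subset_rfl, ?_, ?_⟩
      · intro k hk
        have hη : η ∈ r.Z := by
          by_contra hη
          rw [(r.hZ η hη).2.2] at hk
          simp at hk
        show k ∈ if η ∈ r.Z then r.M η ∪ (hfin η).toFinset else ∅
        rw [if_pos hη]
        exact Finset.mem_union_left _ hk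
      · intro l k hl hk
        rw [show r'.s η = r.s η from rfl, List.getElem?_eq_none hl] at hk
        simp at hk
  refine ⟨r', S.LE_trans hle hr, hle, ?_⟩
  intro ζ hζ k hk
  show k ∈ if ζ ∈ r.Z then r.M ζ ∪ (hfin ζ).toFinset else ∅
  rw [if_pos (show ζ ∈ r.Z from hζ)]
  refine Finset.mem_union_right _ ?_
  rw [Set.Finite.mem_toFinset]
  exact hk

namespace Red

variable {S}

theorem aux {X : Set (K ⊕ I)} (hX : S.Closed X) {r u : Cond K I} (hr : S.LE ⊤ r Cond.triv)
    (ht : S.Tidy r) (hu : S.LE ⊤ u Cond.triv) (hD : ∀ α ∈ u.D, Sum.inl α ∈ X)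
    (hZ : ∀ η ∈ u.Z, Sum.inr η ∈ X) (ζ : WithTop I) : S.LE ζ u (r.restr X) →
    ∃ g : Cond K I, (∀ η ∈ g.Z, (η : WithTop I) < ζ) ∧ S.LE ζ g Cond.triv ∧ S.LE ζ g r ∧
      S.LE ζ g u := by
  classical
  induction ζ using WellFoundedLT.induction with
  | ind ζ ih =>
  intro h
  have hb : Base u (r.restr X) := LE_base S h
  have hru : r.n ≤ u.n := hb.2.1
  -- promised sets
  by_cases hY : ∃ η ∈ r.Z ∪ u.Z, (η : WithTop I) < ζ
  swap
  · -- no coordinates below ζ
    push Not at hY
    have hYr : ∀ η : I, (η : WithTop I) < ζ → r.s η = [] ∧ r.E η = ∅ ∧ r.M η = ∅ := by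
      intro η hη
      refine r.hZ η ?_
      intro hη'
      exact absurd hη (not_lt.2 (hY η (Finset.mem_union_left _ hη')))
    have hYu : ∀ η : I, (η : WithTop I) < ζ → u.s η = [] ∧ u.E η = ∅ ∧ u.M η = ∅ := by
      intro η hη
      refine u.hZ η ?_
      intro hη'
      exact absurd hη (not_lt.2 (hY η (Finset.mem_union_right _ hη')))
    let g : Cond K I :=
      { D := r.D ∪ u.D
        n := u.n
        a := fun α => if α ∈ u.D then u.a α else r.a α
        Z := ∅
        s := fun _ => []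
        E := fun _ => ∅
        M := fun _ => ∅
        ha := by
          intro α i hi
          split_ifs at hi with hα
          · exact ⟨Finset.mem_union_right _ hα, (u.ha α i hi).2⟩
          · exact ⟨Finset.mem_union_left _ (r.ha α i hi).1,
              lt_of_lt_of_le (r.ha α i hi).2 hru⟩
        hE := by simp
        hZ := by simp }
    have hga : ∀ α, g.a α = if α ∈ u.D then u.a α else r.a α := fun _ => rfl
    have hbr : Base g r := by
      refine ⟨Finset.subset_union_left, hru, ?_, ?_⟩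
      · intro α hα i hi
        rw [hga]
        split_ifs with hαu
        · have hαX := hD α hαu
          have := hb.2.2.1 α (Finset.mem_filter.2 ⟨hα, hαX⟩) i hi
          rw [this]
          simp [Cond.restr, hαX]
        · rfl
      · intro α hα β hβ hαβ i hi hi'
        rw [hga] at hi hi'
        by_cases hαu : α ∈ u.D
        · by_cases hβu : β ∈ u.D
          · rw [if_pos hαu] at hi
            rw [if_pos hβu] at hi'
            exact hb.2.2.2 α (Finset.mem_filter.2 ⟨hα, hD α hαu⟩) β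
              (Finset.mem_filter.2 ⟨hβ, hD β hβu⟩) hαβ i hi hi'
          · rw [if_neg hβu] at hi'
            exact (r.ha β i hi').2
        · rw [if_neg hαu] at hi
          exact (r.ha α i hi).2
    have hbu : Base g u := by
      refine ⟨Finset.subset_union_right, le_rfl, ?_, ?_⟩
      · intro α hα i _
        rw [hga, if_pos hα]
      · intro α hα β _ _ i hi _
        rw [hga, if_pos hα] at hi
        exact (u.ha α i hi).2
    refine ⟨g, by simp [g], ?_, ?_, ?_⟩
    · rw [le_triv_iff]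
      intro η _ hη
      exact absurd rfl hη
    · rw [LE_iff]
      refine ⟨hbr, ?_⟩
      intro η hη
      obtain ⟨h1, h2, h3⟩ := hYr η hη
      exact step_triv S h1 h2 h3 rfl
    · rw [LE_iff]
      refine ⟨hbu, ?_⟩
      intro η hη
      obtain ⟨h1, h2, h3⟩ := hYu η hη
      exact step_triv S h1 h2 h3 rfl
  -- the largest coordinate below ζ
  obtain ⟨Y, hYdef⟩ : ∃ Y : Finset I,
      Y = (r.Z ∪ u.Z).filter (fun ξ : I => (ξ : WithTop I) < ζ) := ⟨_, rfl⟩
  obtain ⟨η, hηY, hηmax⟩ : ∃ η : I, η ∈ Y ∧ ∀ ξ ∈ Y, ξ ≤ η := by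
    obtain ⟨η, h1, h2⟩ := hY
    have hne : Y.Nonempty := ⟨η, by rw [hYdef]; exact Finset.mem_filter.2 ⟨h1, h2⟩⟩
    exact ⟨_, Finset.max'_mem _ hne, fun ξ hξ => Finset.le_max' _ ξ hξ⟩
  rw [hYdef] at hηmax hηY
  rw [Finset.mem_filter] at hηY
  have hηζ := hηY.2
  have hbig : ∀ ξ : I, (ξ : WithTop I) < ζ → η < ξ → ξ ∉ r.Z ∧ ξ ∉ u.Z := by
    intro ξ hξ hηξ
    refine ⟨fun hr' => ?_, fun hu' => ?_⟩
    · exact absurd hηξ (not_lt.2 (hηmax ξ (Finset.mem_filter.2
        ⟨Finset.mem_union_left _ hr', hξ⟩)))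
    · exact absurd hηξ (not_lt.2 (hηmax ξ (Finset.mem_filter.2
        ⟨Finset.mem_union_right _ hu', hξ⟩)))
  obtain ⟨g0, hg0Z, hg0t, hg0r, hg0u⟩ := ih η hηζ (S.LE_mono hηζ.le h)
  -- assembling lemma
  have assemble : ∀ (g2 : Cond K I) (s : List ℕ) (E : Finset K) (M : Finset ℕ) (hE : E ⊆ g2.D),
      (∀ ξ ∈ g2.Z, ξ < η) → S.LE η g2 Cond.triv → S.LE η g2 r → S.LE η g2 u →
      (s ≠ [] → S.Act η) →
      S.StepR (S.LE η) η (g2.upd η s E M hE) r →
      S.StepR (S.LE η) η (g2.upd η s E M hE) u →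
      ∃ g : Cond K I, (∀ η ∈ g.Z, (η : WithTop I) < ζ) ∧ S.LE ζ g Cond.triv ∧ S.LE ζ g r ∧
        S.LE ζ g u := by
    intro g2 s E M hE hg2Z h2t h2r h2u hact hsr hsu
    have hup : S.LE η (g2.upd η s E M hE) g2 := by
      refine LE_of_agree S rfl rfl rfl ?_
      intro ξ hξ
      have hne : ξ ≠ η := (WithTop.coe_lt_coe.1 hξ).ne
      simp [Cond.upd, Function.update_of_ne hne]
    have htr : ∀ ξ : I, η < ξ → (g2.upd η s E M hE).s ξ = [] := by
      intro ξ hξ
      have hne : ξ ≠ η := hξ.ne'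
      show Function.update g2.s η s ξ = []
      rw [Function.update_of_ne hne]
      exact (g2.hZ ξ (fun h' => absurd (hg2Z ξ h') hξ.not_gt)).1
    refine ⟨g2.upd η s E M hE, ?_, ?_, ?_, ?_⟩
    · intro ξ hξ
      rcases Finset.mem_insert.1 hξ with rfl | hξ
      · exact hηζ
      · exact lt_trans (WithTop.coe_lt_coe.2 (hg2Z ξ hξ)) hηζ
    · rw [le_triv_iff]
      intro ξ _ hne
      rcases lt_trichotomy ξ η with hlt | heq | hgt
      · exact (S.le_triv_iff η _).1 (S.LE_trans hup h2t) ξ (WithTop.coe_lt_coe.2 hlt) hne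
      · subst heq
        refine hact ?_
        intro hs
        refine hne ?_
        show Function.update g2.s ξ s ξ = []
        rw [Function.update_self, hs]
      · exact absurd (htr ξ hgt) hne
    · rw [LE_iff]
      refine ⟨LE_base S (S.LE_trans hup h2r), ?_⟩
      intro ξ hξ
      rcases lt_trichotomy ξ η with hlt | heq | hgt
      · exact LE_step S (S.LE_trans hup h2r) (WithTop.coe_lt_coe.2 hlt)
      · subst heq; exact hsr
      · obtain ⟨h1, h2, h3⟩ := r.hZ ξ (hbig ξ hξ hgt).1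
        exact step_triv S h1 h2 h3 (htr ξ hgt)
    · rw [LE_iff]
      refine ⟨LE_base S (S.LE_trans hup h2u), ?_⟩
      intro ξ hξ
      rcases lt_trichotomy ξ η with hlt | heq | hgt
      · exact LE_step S (S.LE_trans hup h2u) (WithTop.coe_lt_coe.2 hlt)
      · subst heq; exact hsu
      · obtain ⟨h1, h2, h3⟩ := u.hZ ξ (hbig ξ hξ hgt).2
        exact step_triv S h1 h2 h3 (htr ξ hgt)
  by_cases hηX : (Sum.inr η : K ⊕ I) ∈ X
  swap
  · -- coordinate outside X
    have hηu : η ∉ u.Z := fun h' => hηX (hZ η h')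
    obtain ⟨hu1, hu2, hu3⟩ := u.hZ η hηu
    have hact : r.s η ≠ [] → S.Act η := (S.le_triv_iff ⊤ r).1 hr η (WithTop.coe_lt_top η)
    refine assemble g0 (r.s η) (r.E η) (r.M η)
      (fun α hα => (LE_base S hg0r).1 (r.hE η α hα))
      (fun ξ hξ => WithTop.coe_lt_coe.1 (hg0Z ξ hξ)) hg0t hg0r hg0u hact ?_ ?_
    · refine ⟨?_, ?_, ?_, ?_⟩
      · show r.s η <+: Function.update g0.s η (r.s η) η
        rw [Function.update_self]
      · show r.E η ⊆ Function.update g0.E η (r.E η) η
        rw [Function.update_self]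
      · show r.M η ⊆ Function.update g0.M η (r.M η) η
        rw [Function.update_self]
      · intro l k hl hk
        have hk' : (Function.update g0.s η (r.s η) η)[l]? = some k := hk
        rw [Function.update_self, List.getElem?_eq_none hl] at hk'
        simp at hk'
    · refine step_act S hu1 hu2 hu3 ?_
      intro hne
      refine hact ?_
      intro hs
      refine hne ?_
      show Function.update g0.s η (r.s η) η = []
      rw [Function.update_self, hs]
  -- coordinate in X
  have hstep := LE_step S h hηζ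
  have hrs : (r.restr X).s η = r.s η := by simp [Cond.restr, hηX]
  have hrE : (r.restr X).E η = (r.E η).filter (fun α => Sum.inl α ∈ X) := by
    simp [Cond.restr, hηX]
  have hrM : (r.restr X).M η = r.M η := by simp [Cond.restr, hηX]
  obtain ⟨hs1, hs2, hs3, hs4⟩ := hstep
  rw [hrs] at hs1 hs4
  rw [hrM] at hs3 hs4
  rw [hrE] at hs4
  have hactu : u.s η ≠ [] → S.Act η := (S.le_triv_iff ⊤ u).1 hu η (WithTop.coe_lt_top η)
  -- the main construction of g2
  obtain ⟨g2, hg2Z, h2t, h2r, h2u, hkey⟩ : ∃ g2 : Cond K I, (∀ ξ ∈ g2.Z, ξ < η) ∧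
      S.LE η g2 Cond.triv ∧ S.LE η g2 r ∧ S.LE η g2 u ∧
      ∀ l k, (u.s η)[l]? = some k → k ∉ r.M η → ∀ α ∈ r.E η, (Sum.inl α : K ⊕ I) ∉ X →
        ∃ i, i ∈ g2.a α ∧ i ∈ g2.a (S.H η k) ∧ S.Dec η g2 α l i ∧ S.Dec η g2 (S.H η k) l i := by
    by_cases hne : u.s η = []
    · refine ⟨g0, fun ξ hξ => WithTop.coe_lt_coe.1 (hg0Z ξ hξ), hg0t, hg0r, hg0u, ?_⟩
      intro l k hk
      rw [hne] at hk
      simp at hk
    have hA : S.Act η := hactu hne
    set Bs : Finset K := (u.s η).toFinset.image (S.H η) with hBs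
    set T : Finset (K × ℕ) := (r.E η ∪ Bs) ×ˢ Finset.range (u.s η).length with hT
    obtain ⟨g1, N, h1t, h10, h1T⟩ := S.exists_dec hA hg0t T
    set W : Set (K ⊕ I) := {x | Cl S.code S.H η (domLt (η : WithTop I) r) x} with hWdef
    have hlt : ∀ ξ, (Sum.inr ξ : K ⊕ I) ∈ domLt (η : WithTop I) r → ξ < η := by
      rintro ξ (⟨α, _, h'⟩ | ⟨ξ', _, h', h''⟩)
      · simp at h'
      · rw [Sum.inr.injEq] at h''
        rw [h'']
        exact WithTop.coe_lt_coe.1 h'
    have hWc : S.Closed W := S.Cl_closed η hlt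
    have hWt : S.TopClosed η W := S.Cl_topClosed η _
    set X' : Set (K ⊕ I) := X ∩ below (η : WithTop I) with hX'
    have hXc : S.Closed X' := S.Closed_inter_below hX _
    have hXt : S.TopClosed η X' := S.TopClosed_inter_below hX hηX
    have hinl : ∀ α : K, (Sum.inl α : K ⊕ I) ∈ X → (Sum.inl α : K ⊕ I) ∈ X' := by
      intro α hα
      exact ⟨hα, fun ξ hξ => by simp at hξ⟩
    have hpos : 0 < (u.s η).length := List.length_pos_iff.2 hne
    set F : Finset (K × K) := (r.E η ×ˢ Bs).filter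
      (fun p => (Sum.inl p.1 : K ⊕ I) ∉ X ∧ (Sum.inl p.2 : K ⊕ I) ∉ W) with hF
    obtain ⟨g2, h2t, h2W, h2X, h2F⟩ := S.free_amalg W X' h1t F (by
      intro p hp
      rw [hF, Finset.mem_filter, Finset.mem_product] at hp
      obtain ⟨⟨hp1, hp2⟩, hp3, hp4⟩ := hp
      refine ⟨(h1T (p.1, 0) ?_).1, (h1T (p.2, 0) ?_).1, ?_, fun h' => hp3 h'.1, ?_, hp4⟩
      · exact Finset.mem_product.2 ⟨Finset.mem_union_left _ hp1, Finset.mem_range.2 hpos⟩
      · exact Finset.mem_product.2 ⟨Finset.mem_union_right _ hp2, Finset.mem_range.2 hpos⟩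
      · exact Cl.base (Or.inl ⟨p.1, r.hE η _ hp1, rfl⟩)
      · rw [hBs, Finset.mem_image] at hp2
        obtain ⟨k, _, hk⟩ := hp2
        rw [← hk]
        exact hinl _ (hX.1 η hηX k)) N
    have h1r : S.LE η g1 r := S.LE_trans h10 hg0r
    have h1u : S.LE η g1 u := S.LE_trans h10 hg0u
    have hWr : S.LE η (g1.restr W) r := by
      refine S.restr_le hWc ?_ ?_ h1r
      · intro α hα
        exact Cl.base (Or.inl ⟨α, hα, rfl⟩)
      · intro ξ hξ hξη
        exact Cl.base (Or.inr ⟨ξ, hξ, hξη, rfl⟩)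
    have hXu : S.LE η (g1.restr X') u := by
      refine S.restr_le hXc ?_ ?_ h1u
      · intro α hα
        exact hinl α (hD α hα)
      · intro ξ hξ hξη
        refine ⟨hZ ξ hξ, ?_⟩
        intro ξ' hξ'
        rw [Sum.inr.injEq] at hξ'
        rw [← hξ']
        exact hξη
    -- cut off coordinates ≥ η
    set g3 := g2.restr (below (η : WithTop I)) with hg3
    have h32 : S.LE η g3 g2 := by
      refine LE_of_agree S ?_ rfl ?_ ?_
      · ext α
        simp [hg3, Cond.restr, below]
      · funext α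
        simp [hg3, Cond.restr, below]
      · intro ξ hξ
        have hm : (Sum.inr ξ : K ⊕ I) ∈ below (η : WithTop I) := by
          intro ξ' hξ'
          rw [Sum.inr.injEq] at hξ'
          rw [← hξ']
          exact hξ
        refine ⟨?_, ?_, ?_⟩
        · simp [hg3, Cond.restr, hm]
        · simp only [hg3, Cond.restr, hm, if_true]
          refine Finset.filter_true_of_mem ?_
          intro α _ ξ' hξ'
          simp at hξ'
        · simp [hg3, Cond.restr, hm]
    refine ⟨g3, ?_, S.LE_trans h32 h2t, S.LE_trans h32 (S.LE_trans h2W hWr),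
      S.LE_trans h32 (S.LE_trans h2X hXu), ?_⟩
    · intro ξ hξ
      have := (Finset.mem_filter.1 hξ).2
      exact WithTop.coe_lt_coe.1 (this ξ rfl)
    · intro l k hk hkM α hα hαX
      have hkmem : k ∈ (u.s η).toFinset := by
        rw [List.mem_toFinset]
        exact List.mem_of_getElem? hk
      have hlen : l < (u.s η).length := by
        by_contra hcon
        rw [List.getElem?_eq_none (not_lt.1 hcon)] at hk
        simp at hk
      have hβ : S.H η k ∈ Bs := Finset.mem_image.2 ⟨k, hkmem, rfl⟩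
      have hηr : η ∈ r.Z := by
        by_contra hcon
        rw [(r.hZ η hcon).2.1] at hα
        simp at hα
      have hβW : (Sum.inl (S.H η k) : K ⊕ I) ∉ W := fun hcon => hkM (ht η hηr k hcon)
      obtain ⟨i, hi, hi1, hi2⟩ := h2F (α, S.H η k)
        (Finset.mem_filter.2 ⟨Finset.mem_product.2 ⟨hα, hβ⟩, hαX, hβW⟩)
      have e32 : g3.a = g2.a := by
        funext α
        simp [hg3, Cond.restr, below]
      refine ⟨i, by rw [e32]; exact hi1, by rw [e32]; exact hi2, ?_, ?_⟩
      · have hd := (h1T (α, l) (Finset.mem_product.2 ⟨Finset.mem_union_left _ hα,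
          Finset.mem_range.2 hlen⟩)).2
        have hαW : (Sum.inl α : K ⊕ I) ∈ W := Cl.base (Or.inl ⟨α, r.hE η _ hα, rfl⟩)
        exact S.Dec_mono (S.LE_trans h32 h2W) (S.restr_dec hWc hWt hαW hd) hi
      · have hd := (h1T (S.H η k, l) (Finset.mem_product.2 ⟨Finset.mem_union_right _ hβ,
          Finset.mem_range.2 hlen⟩)).2
        exact S.Dec_mono (S.LE_trans h32 h2X) (S.restr_dec hXc hXt (hinl _ (hX.1 η hηX k)) hd) hi
  have hEsub : r.E η ∪ u.E η ⊆ g2.D := by
    intro α hα
    rcases Finset.mem_union.1 hα with hα | hα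
    · exact (LE_base S h2r).1 (r.hE η α hα)
    · exact (LE_base S h2u).1 (u.hE η α hα)
  have hup : S.LE η (g2.upd η (u.s η) (r.E η ∪ u.E η) (r.M η ∪ u.M η) hEsub) g2 := by
    refine LE_of_agree S rfl rfl rfl ?_
    intro ξ hξ
    have hne : ξ ≠ η := (WithTop.coe_lt_coe.1 hξ).ne
    simp [Cond.upd, Function.update_of_ne hne]
  refine assemble g2 (u.s η) (r.E η ∪ u.E η) (r.M η ∪ u.M η) hEsub hg2Z h2t h2r h2u hactu ?_ ?_
  · refine ⟨?_, ?_, ?_, ?_⟩
    · show r.s η <+: Function.update g2.s η (u.s η) η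
      rw [Function.update_self]
      exact hs1
    · show r.E η ⊆ Function.update g2.E η (r.E η ∪ u.E η) η
      rw [Function.update_self]
      exact Finset.subset_union_left
    · show r.M η ⊆ Function.update g2.M η (r.M η ∪ u.M η) η
      rw [Function.update_self]
      exact Finset.subset_union_left
    · intro l k hl hk
      have hk' : (Function.update g2.s η (u.s η) η)[l]? = some k := hk
      rw [Function.update_self] at hk'
      obtain ⟨hkM, hA, hprom⟩ := hs4 l k hl hk'
      refine ⟨hkM, hA, ?_⟩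
      intro α hα hαp
      by_cases hαX : (Sum.inl α : K ⊕ I) ∈ X
      · obtain ⟨i, hi1, hi2, hi3, hi4⟩ := hprom α (Finset.mem_filter.2 ⟨hα, hαX⟩) hαp
        have hle : S.LE η (g2.upd η (u.s η) (r.E η ∪ u.E η) (r.M η ∪ u.M η) hEsub) u :=
          S.LE_trans hup h2u
        exact ⟨i, base_mem (LE_base S hle) hi1, base_mem (LE_base S hle) hi2,
          S.Dec_mono hle hi3 le_rfl, S.Dec_mono hle hi4 le_rfl⟩
      · obtain ⟨i, hi1, hi2, hi3, hi4⟩ := hkey l k hk' hkM α hα hαX
        exact ⟨i, hi1, hi2, S.Dec_mono hup hi3 le_rfl, S.Dec_mono hup hi4 le_rfl⟩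
  · refine ⟨?_, ?_, ?_, ?_⟩
    · show u.s η <+: Function.update g2.s η (u.s η) η
      rw [Function.update_self]
    · show u.E η ⊆ Function.update g2.E η (r.E η ∪ u.E η) η
      rw [Function.update_self]
      exact Finset.subset_union_right
    · show u.M η ⊆ Function.update g2.M η (r.M η ∪ u.M η) η
      rw [Function.update_self]
      exact Finset.subset_union_right
    · intro l k hl hk
      have hk' : (Function.update g2.s η (u.s η) η)[l]? = some k := hk
      rw [Function.update_self, List.getElem?_eq_none hl] at hk'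
      simp at hk'

end Red

/-- complete embedding: the restriction of a tidy condition to a closed set is a reduction -/
theorem reduct {X : Set (K ⊕ I)} (hX : S.Closed X) {r u : Cond K I} (hr : S.LE ⊤ r Cond.triv)
    (ht : S.Tidy r) (hu : S.LE ⊤ u Cond.triv) (hD : ∀ α ∈ u.D, Sum.inl α ∈ X)
    (hZ : ∀ η ∈ u.Z, Sum.inr η ∈ X) (h : S.LE ⊤ u (r.restr X)) :
    ∃ g, S.LE ⊤ g Cond.triv ∧ S.LE ⊤ g r ∧ S.LE ⊤ g u := by
  obtain ⟨g, _, h1, h2, h3⟩ := Red.aux hX hr ht hu hD hZ ⊤ h
  exact ⟨g, h1, h2, h3⟩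

end Sys

end Pool.Agent.StarHur
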