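import Pool.Agent.MP_b1d3ea_lc.Order

/-!
# MP_b1d3ea_lc, module II2: restriction and free amalgamation
-/

set_option autoImplicit false

namespace Pool.Agent.StarHur

open Classical

section

variable {K I : Type} [LinearOrder I] [WellFoundedLT I] (S : Sys K I)

namespace Sys

open OrderAux

theorem Cl_lt (ζ : I) {e : Set (K ⊕ I)} (he : ∀ η, Sum.inr η ∈ e → η < ζ) :
    ∀ η, Cl S.code S.H ζ e (Sum.inr η) → η < ζ := by
  have h : ∀ x, Cl S.code S.H ζ e x → ∀ η, x = Sum.inr η → η < ζ := by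
    intro x hx
    induction hx with
    | base h => rintro η rfl; exact he η h
    | node => rintro η h; cases h
    | suppK => rintro η h; cases h
    | suppI h _ _ _ _ _ hlt => rintro η h'; cases h'; exact hlt.trans h
    | topK => rintro η h; cases h
    | topI _ _ _ _ hlt => rintro η h'; cases h'; exact hlt
  exact fun η hη => h _ hη η rfl

theorem Cl_closed (ζ : I) {e : Set (K ⊕ I)} (he : ∀ η, Sum.inr η ∈ e → η < ζ) :
    S.Closed {x | Cl S.code S.H ζ e x} := by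
  refine ⟨fun η hη k => Cl.node (S.Cl_lt ζ he η hη) hη k, fun η α hη hα l k =>
    ⟨fun β hβ => Cl.suppK (S.Cl_lt ζ he η hη) hη hα l k hβ,
    fun ξ hξ hlt => Cl.suppI (S.Cl_lt ζ he η hη) hη hα l k hξ hlt⟩⟩

theorem Cl_topClosed (ζ : I) (e : Set (K ⊕ I)) : S.TopClosed ζ {x | Cl S.code S.H ζ e x} :=
  fun _ hα l k => ⟨fun _ hβ => Cl.topK hα l k hβ, fun _ hξ hlt => Cl.topI hα l k hξ hlt⟩

theorem Closed_inter_below {X : Set (K ⊕ I)} (hX : S.Closed X) (ζ : WithTop I) :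
    S.Closed (X ∩ below ζ) := by
  refine ⟨fun η hη k => ⟨hX.1 η hη.1 k, fun ξ h => by cases h⟩, fun η α hη hα l k => ⟨fun β hβ => ?_,
    fun ξ hξ hlt => ?_⟩⟩
  · exact ⟨(hX.2 η α hη.1 hα.1 l k).1 β hβ, fun ξ h => by cases h⟩
  · refine ⟨(hX.2 η α hη.1 hα.1 l k).2 ξ hξ hlt, fun ξ' h => ?_⟩
    cases h
    exact (WithTop.coe_lt_coe.2 hlt).trans (hη.2 η rfl)

theorem TopClosed_inter_below {X : Set (K ⊕ I)} (hX : S.Closed X) {ζ : I} (hζ : Sum.inr ζ ∈ X) :
    S.TopClosed ζ (X ∩ below (ζ : WithTop I)) := by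
  refine fun α hα l k => ⟨fun β hβ => ⟨(hX.2 ζ α hζ hα.1 l k).1 β hβ, fun ξ h => by cases h⟩,
    fun ξ hξ hlt => ⟨(hX.2 ζ α hζ hα.1 l k).2 ξ hξ hlt, fun ξ' h => ?_⟩⟩
  cases h
  exact WithTop.coe_lt_coe.2 hlt

theorem Closed_below (ζ : WithTop I) : S.Closed (below ζ) := by
  refine ⟨fun η _ k ξ h => (by cases h), fun η α hη _ l k => ⟨fun β _ ξ h => (by cases h),
    fun ξ _ hlt ξ' h => ?_⟩⟩
  cases h
  exact (WithTop.coe_lt_coe.2 hlt).trans (hη η rfl)

theorem LE_restr_self {ζ : WithTop I} {g : Cond K I} (W : Set (K ⊕ I)) (hg : S.LE ζ g Cond.triv) :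
    S.LE ζ g (g.restr W) := by
  rw [LE_iff]
  refine ⟨⟨Finset.filter_subset _ _, le_rfl, fun α hα i _ => ?_, fun α _ β _ _ i hi _ =>
    (g.ha α i hi).2⟩, fun η hη => ?_⟩
  · have hW : Sum.inl α ∈ W := (Finset.mem_filter.1 hα).2
    simp [Cond.restr, hW]
  · by_cases hW : (Sum.inr η : K ⊕ I) ∈ W
    · refine ⟨by simp [Cond.restr, hW], by simp [Cond.restr, hW], by simp [Cond.restr, hW],
        fun l k hl hk => ?_⟩
      simp only [Cond.restr, hW, if_true] at hl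
      rw [List.getElem?_eq_none hl] at hk
      exact absurd hk (by simp)
    · refine ⟨by simp [Cond.restr, hW], by simp [Cond.restr, hW], by simp [Cond.restr, hW],
        fun l k _ hk => ⟨by simp [Cond.restr, hW], ?_, fun α hα => ?_⟩⟩
      · refine (S.le_triv_iff ζ g).1 hg η hη ?_
        intro h0
        simp [h0] at hk
      · simp [Cond.restr, hW] at hα

/-- restriction lemma -/
theorem restr_le {ζ : WithTop I} {g q : Cond K I} {W : Set (K ⊕ I)} (hW : S.Closed W)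
    (hD : ∀ α ∈ q.D, Sum.inl α ∈ W) (hZ : ∀ η ∈ q.Z, (η : WithTop I) < ζ → Sum.inr η ∈ W)
    (h : S.LE ζ g q) : S.LE ζ (g.restr W) q := by
  induction ζ using (wellFounded_lt (α := WithTop I)).induction generalizing q with
  | _ ζ ih =>
    rw [LE_iff] at h ⊢
    obtain ⟨⟨b1, b2, b3, b4⟩, hs⟩ := h
    have hr : ∀ α, Sum.inl α ∈ W → (g.restr W).a α = g.a α := fun α hα => by
      simp [Cond.restr, hα]
    refine ⟨⟨fun α hα => Finset.mem_filter.2 ⟨b1 hα, hD α hα⟩, b2, fun α hα i hi => ?_,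
      fun α hα β hβ hne i hiα hiβ => ?_⟩, fun η hη => ?_⟩
    · rw [hr α (hD α hα)]; exact b3 α hα i hi
    · rw [hr α (hD α hα)] at hiα
      rw [hr β (hD β hβ)] at hiβ
      exact b4 α hα β hβ hne i hiα hiβ
    · by_cases hηW : (Sum.inr η : K ⊕ I) ∈ W
      · obtain ⟨p1, e1, m1, s1⟩ := hs η hη
        have hc : ∀ α l i, Sum.inl α ∈ W → S.DecR (S.LE η) η g α l i →
            S.DecR (S.LE η) η (g.restr W) α l i := by
          rintro α l i hα ⟨k, hk1, hk2⟩
          exact ⟨k, ih η hη (fun β hβ => (hW.2 η α hηW hα l k).1 β hβ)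
            (fun ξ hξ hlt => (hW.2 η α hηW hα l k).2 ξ hξ (WithTop.coe_lt_coe.1 hlt)) hk1, hk2⟩
        refine ⟨by simpa [Cond.restr, hηW] using p1, fun α hα => ?_,
          by simpa [Cond.restr, hηW] using m1, fun l k hl hk => ?_⟩
        · simp only [Cond.restr, hηW, if_true]
          exact Finset.mem_filter.2 ⟨e1 hα, hD α (q.hE η α hα)⟩
        · have hk' : (g.s η)[l]? = some k := by simpa [Cond.restr, hηW] using hk
          obtain ⟨q1, q2, q3⟩ := s1 l k hl hk'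
          refine ⟨q1, q2, fun α hα hH => ?_⟩
          obtain ⟨i, i1, i2, d1, d2⟩ := q3 α hα hH
          have hα' := hD α (q.hE η α hα)
          have hβ' := hW.1 η hηW k
          exact ⟨i, by rw [hr _ hα']; exact i1, by rw [hr _ hβ']; exact i2, hc _ _ _ hα' d1,
            hc _ _ _ hβ' d2⟩
      · have hnZ : η ∉ q.Z := fun hq => hηW (hZ η hq hη)
        obtain ⟨h1, h2, h3⟩ := q.hZ η hnZ
        refine ⟨by simp [Cond.restr, hηW, h1], by simp [h2], by simp [h3], fun l k _ hk => ?_⟩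
        simp [Cond.restr, hηW] at hk

theorem restr_dec {ζ : I} {g : Cond K I} {W : Set (K ⊕ I)} (hW : S.Closed W)
    (hW' : S.TopClosed ζ W) {α : K} (hα : Sum.inl α ∈ W) {l i : ℕ} (h : S.Dec ζ g α l i) :
    S.Dec ζ (g.restr W) α l i := by
  obtain ⟨k, h1, h2⟩ := h
  exact ⟨k, S.restr_le hW (fun β hβ => (hW' α hα l k).1 β hβ)
    (fun ξ hξ hlt => (hW' α hα l k).2 ξ hξ (WithTop.coe_lt_coe.1 hlt)) h1, h2⟩

end Sys

/-! ### the amalgam -/

namespace RestrictAux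

variable (g : Cond K I) (W X : Set (K ⊕ I)) (F : Finset (K × K)) (m : ℕ)

/-- the new common element of the pair `p` -/
noncomputable def newI (p : K × K) : ℕ := m + F.toList.idxOf p

theorem newI_lt {p : K × K} (hp : p ∈ F) : newI F m p < m + F.card := by
  have h : F.toList.idxOf p < F.toList.length := List.idxOf_lt_length_of_mem (by simpa using hp)
  rw [Finset.length_toList] at h
  unfold newI
  omega

theorem newI_inj {p q : K × K} (hp : p ∈ F) (h : newI F m p = newI F m q) :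
    p = q := by
  have h' : F.toList.idxOf p = F.toList.idxOf q := by
    unfold newI at h; omega
  exact (List.idxOf_inj (by simpa using hp)).1 h'

/-- the amalgam of the restrictions of `g` to `W` and to `X` -/
noncomputable def am (hm : g.n ≤ m)
    (hF : ∀ p ∈ F, p.1 ∈ g.D ∧ p.2 ∈ g.D ∧ Sum.inl p.1 ∈ W ∧ Sum.inl p.2 ∈ X) : Cond K I where
  D := g.D.filter (fun α => Sum.inl α ∈ W ∨ Sum.inl α ∈ X)
  n := m + F.card
  a := fun α => if Sum.inl α ∈ W ∨ Sum.inl α ∈ X then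
    g.a α ∪ (F.filter (fun p => α = p.1 ∨ α = p.2)).image (newI F m) else ∅
  Z := g.Z.filter (fun ζ => Sum.inr ζ ∈ W ∨ Sum.inr ζ ∈ X)
  s := fun ζ => if Sum.inr ζ ∈ W ∨ Sum.inr ζ ∈ X then g.s ζ else []
  E := fun ζ => (g.E ζ).filter (fun α => (Sum.inr ζ ∈ W ∧ Sum.inl α ∈ W) ∨
    (Sum.inr ζ ∈ X ∧ Sum.inl α ∈ X))
  M := fun ζ => if Sum.inr ζ ∈ W ∨ Sum.inr ζ ∈ X then g.M ζ else ∅
  ha := by
    intro α i hi
    split_ifs at hi with h
    · rcases Finset.mem_union.1 hi with hi | hi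
      · exact ⟨Finset.mem_filter.2 ⟨(g.ha α i hi).1, h⟩, (g.ha α i hi).2.trans_le
          (hm.trans (Nat.le_add_right _ _))⟩
      · obtain ⟨p, hp, rfl⟩ := Finset.mem_image.1 hi
        rw [Finset.mem_filter] at hp
        refine ⟨Finset.mem_filter.2 ⟨?_, h⟩, newI_lt F m hp.1⟩
        rcases hp.2 with h' | h'
        · rw [h']; exact (hF p hp.1).1
        · rw [h']; exact (hF p hp.1).2.1
    · simp at hi
  hE := by
    intro ζ α hα
    rw [Finset.mem_filter] at hα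
    exact Finset.mem_filter.2 ⟨g.hE ζ α hα.1, hα.2.imp And.right And.right⟩
  hZ := by
    intro ζ hζ
    by_cases h : (Sum.inr ζ : K ⊕ I) ∈ W ∨ (Sum.inr ζ : K ⊕ I) ∈ X
    · have h' : ζ ∉ g.Z := fun h' => hζ (Finset.mem_filter.2 ⟨h', h⟩)
      obtain ⟨h1, h2, h3⟩ := g.hZ ζ h'
      simp [h, h1, h2, h3]
    · rw [not_or] at h
      simp [h.1, h.2]

end RestrictAux

namespace Sys

open RestrictAux

/-- free amalgamation -/
theorem free_amalg {ζ : WithTop I} {g : Cond K I} (W X : Set (K ⊕ I)) (hg : S.LE ζ g Cond.triv)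
    (F : Finset (K × K)) (hF : ∀ p ∈ F, p.1 ∈ g.D ∧ p.2 ∈ g.D ∧ Sum.inl p.1 ∈ W ∧ Sum.inl p.1 ∉ X ∧
      Sum.inl p.2 ∈ X ∧ Sum.inl p.2 ∉ W) (N : ℕ) :
    ∃ g2, S.LE ζ g2 Cond.triv ∧ S.LE ζ g2 (g.restr W) ∧ S.LE ζ g2 (g.restr X) ∧
      ∀ p ∈ F, ∃ i, N ≤ i ∧ i ∈ g2.a p.1 ∧ i ∈ g2.a p.2 := by
  obtain ⟨m, hm⟩ : ∃ m, m = max g.n N := ⟨_, rfl⟩
  have hm1 : g.n ≤ m := by rw [hm]; exact le_max_left _ _
  have hm2 : N ≤ m := by rw [hm]; exact le_max_right _ _
  have hF' : ∀ p ∈ F, p.1 ∈ g.D ∧ p.2 ∈ g.D ∧ Sum.inl p.1 ∈ W ∧ Sum.inl p.2 ∈ X := fun p hp =>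
    ⟨(hF p hp).1, (hF p hp).2.1, (hF p hp).2.2.1, (hF p hp).2.2.2.2.1⟩
  obtain ⟨g2, hg2⟩ : ∃ g2, g2 = am g W X F m hm1 hF' := ⟨_, rfl⟩
  have hact : ∀ η : I, (η : WithTop I) < ζ → g2.s η ≠ [] → S.Act η := by
    intro η hη hne
    refine (S.le_triv_iff ζ g).1 hg η hη fun h0 => hne ?_
    rw [hg2]
    simp [am, h0]
  have key : ∀ V : Set (K ⊕ I), (∀ x ∈ V, x ∈ W ∨ x ∈ X) →
      (∀ η α, Sum.inr η ∈ V → Sum.inl α ∈ V → (Sum.inr η ∈ W ∧ Sum.inl α ∈ W) ∨
        (Sum.inr η ∈ X ∧ Sum.inl α ∈ X)) →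
      (∀ p ∈ F, Sum.inl p.1 ∈ V → Sum.inl p.2 ∈ V → False) → S.LE ζ g2 (g.restr V) := by
    intro V hV hV2 hVF
    have hmem : ∀ α i, Sum.inl α ∈ V → (i ∈ g2.a α ↔ i ∈ g.a α ∨ ∃ p ∈ F, (α = p.1 ∨ α = p.2) ∧
        newI F m p = i) := by
      intro α i hα
      rw [hg2]
      simp only [am, hV _ hα, if_true, Finset.mem_union, Finset.mem_image, Finset.mem_filter,
        and_assoc]
    have hr : ∀ α, Sum.inl α ∈ V → (g.restr V).a α = g.a α := fun α hα => by
      simp [Cond.restr, hα]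
    rw [LE_iff]
    refine ⟨⟨fun α hα => ?_, ?_, fun α hα i hi => ?_, fun α hα β hβ hne i hiα hiβ => ?_⟩,
      fun η hη => ?_⟩
    · obtain ⟨h1, h2⟩ := Finset.mem_filter.1 hα
      rw [hg2]
      exact Finset.mem_filter.2 ⟨h1, hV _ h2⟩
    · rw [hg2]
      exact hm1.trans (Nat.le_add_right _ _)
    · obtain ⟨h1, h2⟩ := Finset.mem_filter.1 hα
      rw [hr α h2, hmem α i h2]
      refine ⟨fun h => h.resolve_right ?_, Or.inl⟩
      rintro ⟨p, _, _, rfl⟩
      have : g.n ≤ newI F m p := hm1.trans (Nat.le_add_right _ _)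
      exact absurd hi (not_lt.2 this)
    · obtain ⟨_, h2⟩ := Finset.mem_filter.1 hα
      obtain ⟨_, h2'⟩ := Finset.mem_filter.1 hβ
      rw [hmem α i h2] at hiα
      rw [hmem β i h2'] at hiβ
      rcases hiα with h | ⟨p, hp, hp1, hp2⟩
      · exact (g.ha α i h).2
      · rcases hiβ with h | ⟨q, hq, hq1, hq2⟩
        · exact (g.ha β i h).2
        · have hpq : p = q := newI_inj F m hp (hp2.trans hq2.symm)
          subst hpq
          exfalso
          rcases hp1 with h | h <;> rcases hq1 with h' | h'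
          · exact hne (h.trans h'.symm)
          · exact hVF p hp (h ▸ h2) (h' ▸ h2')
          · exact hVF p hp (h' ▸ h2') (h ▸ h2)
          · exact hne (h.trans h'.symm)
    · by_cases hηV : (Sum.inr η : K ⊕ I) ∈ V
      · refine ⟨?_, fun α hα => ?_, ?_, fun l k hl hk => ?_⟩
        · rw [hg2]; simp [Cond.restr, am, hηV, hV _ hηV]
        · simp only [Cond.restr, hηV, if_true, Finset.mem_filter] at hα
          rw [hg2]
          exact Finset.mem_filter.2 ⟨hα.1, hV2 η α hηV hα.2⟩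
        · rw [hg2]; simp [Cond.restr, am, hηV, hV _ hηV]
        · have h1 : g2.s η = g.s η := by rw [hg2]; simp [am, hV _ hηV]
          have h2 : (g.restr V).s η = g.s η := by simp [Cond.restr, hηV]
          rw [h2] at hl
          rw [h1, List.getElem?_eq_none hl] at hk
          exact absurd hk (by simp)
      · refine ⟨by simp [Cond.restr, hηV], by simp [Cond.restr, hηV], by simp [Cond.restr, hηV],
          fun l k _ hk => ⟨by simp [Cond.restr, hηV], hact η hη ?_, fun α hα => ?_⟩⟩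
        · intro h0
          simp [h0] at hk
        · simp [Cond.restr, hηV] at hα
  refine ⟨g2, (S.le_triv_iff ζ g2).2 hact, key W (fun x hx => Or.inl hx)
    (fun η α h1 h2 => Or.inl ⟨h1, h2⟩) (fun p hp _ h => (hF p hp).2.2.2.2.2 h),
    key X (fun x hx => Or.inr hx) (fun η α h1 h2 => Or.inr ⟨h1, h2⟩)
      (fun p hp h _ => (hF p hp).2.2.2.1 h), fun p hp => ⟨newI F m p, hm2.trans
      (Nat.le_add_right _ _), ?_, ?_⟩⟩
  · rw [hg2]
    simp only [am, (hF' p hp).2.2.1, true_or, if_true, Finset.mem_union, Finset.mem_image,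
      Finset.mem_filter]
    exact Or.inr ⟨p, ⟨hp, Or.inl rfl⟩, rfl⟩
  · rw [hg2]
    simp only [am, (hF' p hp).2.2.2, or_true, if_true, Finset.mem_union, Finset.mem_image,
      Finset.mem_filter]
    exact Or.inr ⟨p, ⟨hp, Or.inr rfl⟩, rfl⟩

end Sys

end

end Pool.Agent.StarHur
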