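import Pool.Agent.BVM.Mix
import Pool.Agent.MP_b1d3ea_lc.Pairs
import Pool.Agent.MP_b1d3ea_lc.Omega
import Pool.Agent.MP_b1d3ea_lc.AD

/-! # Module III6: the Psi-space is star-Hurewicz -/

set_option autoImplicit false

namespace Pool.Agent.StarHur

open Pool.Agent.BVM Classical

variable {𝔹 : Type} [CompleteBooleanAlgebra 𝔹]

namespace SH

/-! ### extensionality -/

theorem ext1_biff {f g : BSet 𝔹 → 𝔹} (hf : Ext1 f) (hg : Ext1 g) : Ext1 (fun x => biff (f x) (g x)) :=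
  (hf.himp hg).inf (hg.himp hf)

theorem ext1_open (w A : BSet 𝔹) : Ext1 (fun O => bOpen w A O) := by
  unfold bOpen
  refine Ext1.inf (Ext1.iInf fun x => ?_) (Ext1.iInf fun a => ?_)
  · exact (ext1_bmem_right x).himp (Ext1.const _)
  · refine (Ext1.const _).himp ((ext1_bmem_right a).himp (Ext1.iSup fun n => ?_))
    refine (Ext1.const _).inf (Ext1.iInf fun k => ?_)
    exact (Ext1.const _).himp ((Ext1.const _).himp (ext1_bmem_right k))

/-! ### reading the cover -/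

/-- `O` contains `A α` above `m` -/
def cont {K : Type} (a : K → ℕ → 𝔹) (α : K) (m : ℕ) (O : BSet 𝔹) : 𝔹 :=
  ⨅ i : ℕ, a α i ⇨ (if i < m then ⊤ else bmem (num i) O)

theorem ext1_cont {K : Type} (a : K → ℕ → 𝔹) (α : K) (m : ℕ) : Ext1 (cont a α m) := by
  unfold cont
  refine Ext1.iInf fun i => (Ext1.const _).himp ?_
  by_cases h : i < m
  · simp only [h, if_true]; exact Ext1.const _
  · simp only [h, if_false]; exact ext1_bmem_right _

/-- good neighbourhoods -/
def gd {K : Type} (a : K → ℕ → 𝔹) (C : BSet 𝔹) (α : K) (n m : ℕ) (O : BSet 𝔹) : 𝔹 :=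
  bPM (num n) O C ⊓ (bmem (aN a α) O ⊓ cont a α m O)

theorem ext1_gd {K : Type} (a : K → ℕ → 𝔹) (C : BSet 𝔹) (α : K) (n m : ℕ) :
    Ext1 (gd a C α n m) :=
  (ext1_bPM2 _ _).inf ((ext1_bmem_right _).inf (ext1_cont a α m))

section cover

variable {K : Type} (a : K → ℕ → 𝔹) (C : BSet 𝔹)

theorem cover_n (n : ℕ) : bCover omegaN (famN a) C ≤
    (⨅ O, bPM (num n) O C ⇨ bOpen omegaN (famN a) O) ⊓
    ⨅ x, bmem x omegaN ⊔ bmem x (famN a) ⇨ ⨆ O, bPM (num n) O C ⊓ bmem x O := by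
  unfold bCover
  rw [ball_omega]
  · exact iInf_le _ n
  · refine Ext1.inf (Ext1.iInf fun O => ?_) (Ext1.iInf fun x => ?_)
    · exact (ext1_bPM1 O C).himp (Ext1.const _)
    · exact (Ext1.const _).himp (Ext1.iSup fun O => (ext1_bPM1 O C).inf (Ext1.const _))

theorem cover_open (n : ℕ) (O : BSet 𝔹) :
    bCover omegaN (famN a) C ⊓ bPM (num n) O C ≤ bOpen omegaN (famN a) O := by
  have h := ((cover_n a C n).trans inf_le_left).trans (iInf_le _ O)
  rwa [le_himp_iff] at h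

theorem cover_num (n i : ℕ) :
    bCover omegaN (famN a) C ≤ ⨆ O, bPM (num n) O C ⊓ bmem (num i) O := by
  have h := ((cover_n a C n).trans inf_le_right).trans (iInf_le _ (num i))
  rw [le_himp_iff] at h
  have h1 : bmem (num i : BSet 𝔹) omegaN = ⊤ := by
    rw [bmem_omegaN, eq_top_iff]
    exact le_trans (by rw [beq_refl]) (le_iSup (fun n : ℕ => beq (num i : BSet 𝔹) (num n)) i)
  rwa [h1, top_sup_eq, inf_top_eq] at h

theorem mem_famN (α : K) : bmem (aN a α) (famN a) = ⊤ := by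
  rw [eq_top_iff]
  exact val_le_bmem (famN a) α

theorem cover_fam (n : ℕ) (α : K) :
    bCover omegaN (famN a) C ≤ ⨆ O, bPM (num n) O C ⊓ bmem (aN a α) O := by
  have h := ((cover_n a C n).trans inf_le_right).trans (iInf_le _ (aN a α))
  rw [le_himp_iff] at h
  rwa [mem_famN, sup_top_eq, inf_top_eq] at h

theorem open_cont (O : BSet 𝔹) (α : K) :
    bOpen omegaN (famN a) O ⊓ bmem (aN a α) O ≤ ⨆ m, cont a α m O := by
  unfold bOpen
  have h1 : (⨅ x, bmem x O ⇨ bmem x omegaN ⊔ bmem x (famN a)) ⊓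
      (⨅ b, bmem b (famN a) ⇨ bmem b O ⇨ ⨆ n, bmem n omegaN ⊓
        ⨅ k, bmem k b ⇨ (bmem k n)ᶜ ⇨ bmem k O) ⊓ bmem (aN a α) O ≤
      ⨆ n, bmem n omegaN ⊓ ⨅ k, bmem k (aN a α) ⇨ (bmem k n)ᶜ ⇨ bmem k O := by
    have h2 := iInf_le (fun b => bmem b (famN a) ⇨ bmem b O ⇨ ⨆ n, bmem n omegaN ⊓
        ⨅ k, bmem k b ⇨ (bmem k n)ᶜ ⇨ bmem k O) (aN a α)
    rw [mem_famN, top_himp] at h2
    exact (inf_le_inf_right _ (inf_le_right.trans h2)).trans himp_inf_le
  refine h1.trans ?_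
  rw [bex_omega]
  · refine iSup_mono fun m => ?_
    unfold cont
    refine le_iInf fun i => ?_
    refine (iInf_le _ (num i)).trans ?_
    rw [bmem_num_aN, bmem_num_num]
    by_cases h : i < m
    · simp [h]
    · simp [h]
  · refine Ext1.iInf fun k => ?_
    exact (Ext1.const _).himp ((ext1_bmem_right k).compl.himp (Ext1.const _))

theorem cover_gd (n : ℕ) (α : K) :
    bCover omegaN (famN a) C ≤ ⨆ m, ⨆ O, gd a C α n m O := by
  have h1 : bCover omegaN (famN a) C ≤ ⨆ O, bCover omegaN (famN a) C ⊓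
      (bPM (num n) O C ⊓ bmem (aN a α) O) := by
    rw [← inf_iSup_eq]
    exact le_inf le_rfl (cover_fam a C n α)
  refine h1.trans (iSup_le fun O => ?_)
  rw [iSup_comm]
  refine le_trans ?_ (le_iSup _ O)
  have h2 : bCover omegaN (famN a) C ⊓ (bPM (num n) O C ⊓ bmem (aN a α) O) ≤
      ⨆ m, cont a α m O := by
    refine le_trans (le_inf ?_ (inf_le_right.trans inf_le_right)) (open_cont a O α)
    exact (inf_le_inf_left _ inf_le_left).trans (cover_open a C n O)
  calc bCover omegaN (famN a) C ⊓ (bPM (num n) O C ⊓ bmem (aN a α) O)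
      ≤ (bPM (num n) O C ⊓ bmem (aN a α) O) ⊓ ⨆ m, cont a α m O := le_inf inf_le_right h2
    _ = ⨆ m, (bPM (num n) O C ⊓ bmem (aN a α) O) ⊓ cont a α m O := inf_iSup_eq _ _
    _ ≤ ⨆ m, gd a C α n m O := iSup_mono fun m => by unfold gd; rw [inf_assoc]

end cover

/-! ### disjointification -/

/-- disjointification of a sequence -/
def disj (f0 : ℕ → 𝔹) (m : ℕ) : 𝔹 := f0 m ⊓ (⨆ m' : ℕ, ⨆ _ : m' < m, f0 m')ᶜ

theorem disj_le (f0 : ℕ → 𝔹) (m : ℕ) : disj f0 m ≤ f0 m := inf_le_left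

theorem disj_inf (f0 : ℕ → 𝔹) {m m' : ℕ} (h : m ≠ m') : disj f0 m ⊓ disj f0 m' = ⊥ := by
  have key : ∀ {m m' : ℕ}, m < m' → disj f0 m ⊓ disj f0 m' = ⊥ := by
    intro m m' h
    rw [eq_bot_iff]
    have h1 : disj f0 m ≤ ⨆ k : ℕ, ⨆ _ : k < m', f0 k :=
      (disj_le f0 m).trans (le_iSup₂ (f := fun k (_ : k < m') => f0 k) m h)
    have h2 : disj f0 m' ≤ (⨆ k : ℕ, ⨆ _ : k < m', f0 k)ᶜ := inf_le_right
    exact (inf_le_inf h1 h2).trans (inf_compl_eq_bot).le
  rcases lt_or_gt_of_ne h with h | h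
  · exact key h
  · rw [inf_comm]; exact key h

theorem iSup_disj (f0 : ℕ → 𝔹) : ⨆ m, disj f0 m = ⨆ m, f0 m := by
  apply le_antisymm (iSup_mono (disj_le f0))
  have key : ∀ m, ⨆ k : ℕ, ⨆ _ : k < m, f0 k ≤ ⨆ m, disj f0 m := by
    intro m
    induction m with
    | zero => exact iSup₂_le fun k hk => absurd hk (Nat.not_lt_zero k)
    | succ m ih =>
      refine iSup₂_le fun k hk => ?_
      rcases Nat.lt_succ_iff_lt_or_eq.mp hk with h | rfl
      · exact (le_iSup₂ (f := fun k (_ : k < m) => f0 k) k h).trans ih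
      · have h1 : f0 k ≤ (⨆ k' : ℕ, ⨆ _ : k' < k, f0 k') ⊔ disj f0 k := by
          unfold disj
          rw [sup_inf_left, sup_compl_eq_top, inf_top_eq]
          exact le_sup_right
        exact h1.trans (sup_le ih (le_iSup _ k))
  exact iSup_le fun m => (le_iSup₂ (f := fun k (_ : k < m + 1) => f0 k) m (Nat.lt_succ_self m)).trans
    (key (m + 1))

/-! ### finiteness -/

theorem bFinite_of_list {ℓ : ℕ} (L : Fin ℓ → BSet 𝔹) (G : BSet 𝔹) {q : 𝔹}
    (h : ∀ t, q ⊓ bmem t G ≤ ⨆ j, beq t (L j)) : q ≤ bFinite omegaN G := by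
  unfold bFinite
  have hE : Ext1 (fun m : BSet 𝔹 => ⨆ g, (⨅ k, ⨅ y, ⨅ z, bPM k y g ⇨ bPM k z g ⇨ beq y z) ⊓
    ⨅ t, bmem t G ⇨ ⨆ k, bmem k m ⊓ bPM k t g) := by
    refine Ext1.iSup fun g => (Ext1.const _).inf (Ext1.iInf fun t => ?_)
    exact (Ext1.const _).himp (Ext1.iSup fun k => (ext1_bmem_right k).inf (Ext1.const _))
  rw [bex_omega hE]
  refine le_trans ?_ (le_iSup _ ℓ)
  set g : BSet 𝔹 := ⟨Fin ℓ, fun j => opair (num j.1) (L j), fun _ => ⊤⟩ with hg
  refine le_trans ?_ (le_iSup _ g)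
  have hPM : ∀ k y : BSet 𝔹, bPM k y g = ⨆ j : Fin ℓ, beq k (num j.1) ⊓ beq y (L j) := by
    intro k y
    rw [bPM_eq, bmem_def]
    change ⨆ j : Fin ℓ, (⊤ : 𝔹) ⊓ beq (opair k y) (opair (num j.1) (L j)) = _
    refine iSup_congr fun j => ?_
    rw [top_inf_eq, beq_opair]
  refine le_inf ?_ ?_
  · refine le_iInf fun k => le_iInf fun y => le_iInf fun z => ?_
    rw [le_himp_iff, le_himp_iff, hPM, hPM]
    refine (inf_le_inf_right _ inf_le_right).trans ?_
    rw [iSup_inf_eq]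
    refine iSup_le fun j => ?_
    rw [inf_iSup_eq]
    refine iSup_le fun j' => ?_
    by_cases hj : j = j'
    · subst hj
      calc beq k (num j.1) ⊓ beq y (L j) ⊓ (beq k (num j.1) ⊓ beq z (L j))
          ≤ beq y (L j) ⊓ beq (L j) z := by
            rw [beq_symm (L j) z]
            exact le_inf (inf_le_left.trans inf_le_right) (inf_le_right.trans inf_le_right)
        _ ≤ beq y z := beq_trans _ _ _
    · have h1 : beq k (num j.1) ⊓ beq y (L j) ⊓ (beq k (num j'.1) ⊓ beq z (L j')) ≤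
          beq (num j.1) k ⊓ beq k (num j'.1) := by
        rw [beq_symm (num j.1) k]
        exact le_inf (inf_le_left.trans inf_le_left) (inf_le_right.trans inf_le_left)
      have h2 : beq (num j.1 : BSet 𝔹) (num j'.1) = ⊥ := by
        rw [beq_num, if_neg]
        exact fun h => hj (Fin.ext h)
      exact (h1.trans (beq_trans _ _ _)).trans (h2.le.trans bot_le)
  · refine le_iInf fun t => ?_
    rw [le_himp_iff]
    refine (h t).trans (iSup_le fun j => ?_)
    refine le_trans ?_ (le_iSup _ (num j.1))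
    refine le_inf ?_ ?_
    · rw [bmem_num_num, if_pos j.2]
      exact le_top
    · rw [hPM]
      refine le_trans ?_ (le_iSup _ j)
      rw [beq_refl, top_inf_eq]

theorem bFinite_of_finite {ι : Type} [Finite ι] (L : ι → BSet 𝔹) (G : BSet 𝔹) {q : 𝔹}
    (h : ∀ t, q ⊓ bmem t G ≤ ⨆ j, beq t (L j)) : q ≤ bFinite omegaN G := by
  obtain ⟨ℓ, ⟨e⟩⟩ := Finite.exists_equiv_fin ι
  refine bFinite_of_list (fun j : Fin ℓ => L (e.symm j)) G fun t => (h t).trans ?_
  refine iSup_le fun j => ?_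
  refine le_trans ?_ (le_iSup _ (e j))
  rw [Equiv.symm_apply_apply]

/-- simultaneous choice on a finite set -/
theorem exists_choice {K : Type} (e : Finset K) (f : K → ℕ → 𝔹) (hf : ∀ β, ⨆ m, f β m = ⊤) {p : 𝔹}
    (hp : p ≠ ⊥) : ∃ (μ : K → ℕ) (q : 𝔹), q ≠ ⊥ ∧ q ≤ p ∧ ∀ β ∈ e, q ≤ f β (μ β) := by
  induction e using Finset.induction_on with
  | empty => exact ⟨fun _ => 0, p, hp, le_rfl, by simp⟩
  | insert b e hb ih =>
    obtain ⟨μ, q, hq, hqp, h⟩ := ih
    obtain ⟨m, hm⟩ := exists_inf_ne_bot hq (le_top.trans (hf b).ge : q ≤ ⨆ m, f b m)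
    refine ⟨Function.update μ b m, q ⊓ f b m, hm, inf_le_left.trans hqp, ?_⟩
    intro β hβ
    by_cases hbb : β = b
    · rw [hbb, Function.update_self]
      exact inf_le_right
    · rw [Function.update_of_ne hbb]
      exact inf_le_left.trans (h β ((Finset.mem_insert.mp hβ).resolve_left hbb))

/-! ### the star property -/

/-- the point `x` lies in the star of the `n`-th choice -/
def star (C F : BSet 𝔹) (n x : BSet 𝔹) : 𝔹 :=
  ⨆ V, bPM n V C ⊓ (bmem x V ⊓ ⨆ O, bPM n O F ⊓ ⨆ y, bmem y O ⊓ bmem y V)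

theorem ext1_star_left (C F x : BSet 𝔹) : Ext1 (fun n => star C F n x) := by
  unfold SH.star
  refine Ext1.iSup fun V => (ext1_bPM1 V C).inf ((Ext1.const _).inf (Ext1.iSup fun O => ?_))
  exact (ext1_bPM1 O F).inf (Ext1.const _)

theorem ext1_star_right (C F n : BSet 𝔹) : Ext1 (fun x => star C F n x) := by
  unfold SH.star
  exact Ext1.iSup fun V => (Ext1.const _).inf ((ext1_bmem_left V).inf (Ext1.const _))

/-- almost all `n` -/
def evt (C F x : BSet 𝔹) : 𝔹 :=
  ⨆ N, bmem N omegaN ⊓ ⨅ n, bmem n omegaN ⇨ (bmem n N)ᶜ ⇨ star C F n x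

theorem ext1_evt (C F : BSet 𝔹) : Ext1 (fun x => evt C F x) := by
  unfold evt
  refine Ext1.iSup fun N => (Ext1.const _).inf (Ext1.iInf fun n => ?_)
  exact (Ext1.const _).himp ((Ext1.const _).himp (ext1_star_right C F n))

theorem le_evt (C F x : BSet 𝔹) (N : ℕ) : (⨅ n : ℕ, ⨅ _ : N ≤ n, star C F (num n) x) ≤ evt C F x := by
  unfold evt
  rw [bex_omega]
  · refine le_trans ?_ (le_iSup _ N)
    rw [ball_omega]
    · refine le_iInf fun n => ?_
      rw [bmem_num_num]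
      by_cases h : n < N
      · simp [h]
      · rw [if_neg h, compl_bot, top_himp]
        exact (iInf_le _ n).trans (iInf_le _ (not_lt.mp h))
    · exact (ext1_bmem_left _).compl.himp (ext1_star_left C F x)
  · exact Ext1.iInf fun n => (Ext1.const _).himp
      ((ext1_bmem_right n).compl.himp (Ext1.const _))

theorem bChoice_eq (A C F : BSet 𝔹) : bChoice omegaN A C F =
    (⨅ n : ℕ, ⨅ O, bPM (num n) O F ⇨ bPM (num n) O C) ⊓
    ((⨅ n : ℕ, ⨆ G, (⨅ O, biff (bmem O G) (bPM (num n) O F)) ⊓ bFinite omegaN G) ⊓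
    ⨅ x, bmem x omegaN ⊔ bmem x A ⇨ evt C F x) := by
  unfold bChoice
  rw [ball_omega, ball_omega]
  · rfl
  · exact Ext1.iSup fun G => (Ext1.iInf fun O => ext1_biff (Ext1.const _) (ext1_bPM1 O F)).inf
      (Ext1.const _)
  · exact Ext1.iInf fun O => (ext1_bPM1 O F).himp (ext1_bPM1 O C)

section main

variable {K : Type} (Γ : 𝔹) (O : K → ℕ → ℕ → BSet 𝔹) (Q : ℕ → ℕ → BSet 𝔹) (wt : K → ℕ → ℕ → 𝔹)

/-- the name of the choice -/
def FN : BSet 𝔹 :=
  ⟨(ℕ × K × ℕ) ⊕ (ℕ × ℕ),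
    Sum.elim (fun p => opair (num p.1) (O p.2.1 p.1 p.2.2)) (fun p => opair (num p.1) (Q p.2 p.1)),
    Sum.elim (fun p => wt p.2.1 p.1 p.2.2) (fun p => if p.2 < p.1 then Γ else ⊥)⟩

/-- its `n`-th section -/
def GN (n : ℕ) : BSet 𝔹 :=
  ⟨(K × ℕ) ⊕ ℕ, Sum.elim (fun p => O p.1 n p.2) (fun i => Q i n),
    Sum.elim (fun p => wt p.1 n p.2) (fun i => if i < n then Γ else ⊥)⟩

theorem bmem_GN (n : ℕ) (x : BSet 𝔹) : bmem x (GN Γ O Q wt n) =
    (⨆ p : K × ℕ, wt p.1 n p.2 ⊓ beq x (O p.1 n p.2)) ⊔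
    ⨆ i : ℕ, (if i < n then Γ else ⊥) ⊓ beq x (Q i n) := by
  rw [bmem_def]
  change (⨆ j : (K × ℕ) ⊕ ℕ, _) = _
  rw [iSup_sum]
  rfl

theorem bPM_FN (n : ℕ) (x : BSet 𝔹) : bPM (num n) x (FN Γ O Q wt) = bmem x (GN Γ O Q wt n) := by
  rw [bPM_eq, bmem_GN, bmem_def]
  change (⨆ j : (ℕ × K × ℕ) ⊕ (ℕ × ℕ), _) = _
  rw [iSup_sum]
  change (⨆ p : ℕ × K × ℕ, wt p.2.1 p.1 p.2.2 ⊓
      beq (opair (num n) x) (opair (num p.1) (O p.2.1 p.1 p.2.2))) ⊔
    (⨆ p : ℕ × ℕ, (if p.2 < p.1 then Γ else ⊥) ⊓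
      beq (opair (num n) x) (opair (num p.1) (Q p.2 p.1))) = _
  congr 1
  · apply le_antisymm
    · refine iSup_le fun p => ?_
      rw [beq_opair, beq_num]
      by_cases h : n = p.1
      · rw [if_pos h, top_inf_eq]
        refine le_trans ?_ (le_iSup _ (p.2.1, p.2.2))
        rw [h]
      · rw [if_neg h, bot_inf_eq, inf_bot_eq]
        exact bot_le
    · refine iSup_le fun p => ?_
      refine le_trans ?_ (le_iSup _ (n, p.1, p.2))
      rw [beq_opair, beq_refl, top_inf_eq]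
  · apply le_antisymm
    · refine iSup_le fun p => ?_
      rw [beq_opair, beq_num]
      by_cases h : n = p.1
      · rw [if_pos h, top_inf_eq]
        refine le_trans ?_ (le_iSup _ p.2)
        rw [h]
      · rw [if_neg h, bot_inf_eq, inf_bot_eq]
        exact bot_le
    · refine iSup_le fun i => ?_
      refine le_trans ?_ (le_iSup _ (n, i))
      rw [beq_opair, beq_refl, top_inf_eq]

theorem wt_le_bPM (β : K) (n m : ℕ) : wt β n m ≤ bPM (num n) (O β n m) (FN Γ O Q wt) := by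
  rw [bPM_FN, bmem_GN]
  refine le_trans ?_ le_sup_left
  refine le_trans ?_ (le_iSup _ (β, m))
  rw [beq_refl, inf_top_eq]

theorem Γ_le_bPM {i n : ℕ} (h : i < n) : Γ ≤ bPM (num n) (Q i n) (FN Γ O Q wt) := by
  rw [bPM_FN, bmem_GN]
  refine le_trans ?_ le_sup_right
  refine le_trans ?_ (le_iSup _ i)
  rw [if_pos h, beq_refl, inf_top_eq]

variable {Γ O Q wt} {C : BSet 𝔹}

theorem sub_C (hO : ∀ β n m, wt β n m ≤ bPM (num n) (O β n m) C)
    (hQ : ∀ i n, Γ ≤ bPM (num n) (Q i n) C) (n : ℕ) (x : BSet 𝔹) :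
    bPM (num n) x (FN Γ O Q wt) ≤ bPM (num n) x C := by
  rw [bPM_FN, bmem_GN]
  refine sup_le (iSup_le fun p => ?_) (iSup_le fun i => ?_)
  · refine le_trans ?_ (ext1_bPM2 (num n) C (O p.1 n p.2) x)
    rw [beq_symm]
    exact le_inf inf_le_right (inf_le_left.trans (hO _ _ _))
  · refine le_trans ?_ (ext1_bPM2 (num n) C (Q i n) x)
    rw [beq_symm]
    refine le_inf inf_le_right (inf_le_left.trans ?_)
    by_cases h : i < n
    · rw [if_pos h]; exact hQ i n
    · rw [if_neg h]; exact bot_le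

theorem fin_G (B : Finset K → 𝔹) (f : K → ℕ → 𝔹) (n : ℕ)
    (hwt : ∀ β m, wt β n m ≤ (⨆ e, ⨆ _ : β ∈ e, B e) ⊓ f β m)
    (hB1 : ⨆ e, B e = ⊤) (hB2 : ∀ e e', e ≠ e' → B e ⊓ B e' = ⊥) (hf1 : ∀ β, ⨆ m, f β m = ⊤)
    (hf2 : ∀ β m m', m ≠ m' → f β m ⊓ f β m' = ⊥) (b : 𝔹) :
    b ≤ bFinite omegaN (GN Γ O Q wt n) := by
  refine le_of_dense fun p hp _ => ?_
  obtain ⟨e, he⟩ := exists_inf_ne_bot hp (le_top.trans hB1.ge : p ≤ ⨆ e, B e)
  obtain ⟨μ, q, hq, hqp, hμ⟩ := exists_choice e f hf1 he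
  refine ⟨q, hq, hqp.trans inf_le_left, ?_⟩
  refine bFinite_of_finite (ι := {β // β ∈ e} ⊕ Fin n)
    (Sum.elim (fun β => O β.1 n (μ β.1)) (fun i => Q i.1 n)) _ fun t => ?_
  rw [bmem_GN, inf_sup_left, inf_iSup_eq, inf_iSup_eq]
  refine sup_le (iSup_le fun p => ?_) (iSup_le fun i => ?_)
  · obtain ⟨β, m⟩ := p
    simp only
    by_cases hβ : β ∈ e
    · by_cases hm : m = μ β
      · subst hm
        refine le_trans ?_ (le_iSup _ (Sum.inl ⟨β, hβ⟩))
        exact inf_le_right.trans inf_le_right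
      · have h1 : q ⊓ (wt β n m ⊓ beq t (O β n m)) ≤ f β (μ β) ⊓ f β m :=
          le_inf (inf_le_left.trans (hμ β hβ))
            ((inf_le_right.trans inf_le_left).trans ((hwt β m).trans inf_le_right))
        rw [hf2 β _ _ (Ne.symm hm)] at h1
        exact h1.trans bot_le
    · have h1 : q ⊓ (wt β n m ⊓ beq t (O β n m)) ≤ B e ⊓ ⨆ e', ⨆ _ : β ∈ e', B e' :=
        le_inf (inf_le_left.trans (hqp.trans inf_le_right))
          ((inf_le_right.trans inf_le_left).trans ((hwt β m).trans inf_le_left))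
      have h2 : (B e ⊓ ⨆ e', ⨆ _ : β ∈ e', B e') = ⊥ := by
        rw [inf_iSup_eq, iSup_eq_bot]
        intro e'
        rw [inf_iSup_eq, iSup_eq_bot]
        intro he'
        apply hB2
        rintro rfl
        exact hβ he'
      exact (h1.trans h2.le).trans bot_le
  · by_cases hi : i < n
    · refine le_trans ?_ (le_iSup _ (Sum.inr ⟨i, hi⟩))
      exact inf_le_right.trans inf_le_right
    · rw [if_neg hi, bot_inf_eq, inf_bot_eq]
      exact bot_le

end main

end SH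

open SH in
theorem bStarHur_top {K : Type} {a : K → ℕ → 𝔹} (h : Core 𝔹 K a) :
    bStarHur omegaN (famN a) = ⊤ := by
  rw [eq_top_iff]
  unfold bStarHur
  refine le_iInf fun C => ?_
  rw [le_himp_iff, top_inf_eq]
  set Γ : 𝔹 := bCover omegaN (famN a) C with hΓ
  -- the neighbourhoods
  have hOex : ∀ α n m, ∃ O, gd a C α n m O = ⨆ O', gd a C α n m O' := fun α n m =>
    full (ext1_gd a C α n m)
  choose O hO using hOex
  have hQex : ∀ i n, ∃ V, Γ ≤ bPM (num n) V C ⊓ bmem (num i) V := fun i n =>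
    full_le ((ext1_bPM2 _ _).inf (ext1_bmem_right _)) (cover_num a C n i)
  choose Q hQ using hQex
  set f0 : K → ℕ → ℕ → 𝔹 := fun α n m => gd a C α n m (O α n m) ⊔ Γᶜ with hf0
  have hf0top : ∀ α n, ⨆ m, f0 α n m = ⊤ := by
    intro α n
    have h1 : Γ ≤ ⨆ m, f0 α n m := by
      refine (cover_gd a C n α).trans (iSup_mono fun m => ?_)
      rw [← hO α n m]
      exact le_sup_left
    have h2 : Γᶜ ≤ ⨆ m, f0 α n m := le_trans le_sup_right (le_iSup (f0 α n) 0)
    rw [eq_top_iff, ← sup_compl_eq_top (x := Γ)]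
    exact sup_le h1 h2
  set f : K → ℕ → ℕ → 𝔹 := fun α n => disj (f0 α n) with hf
  have hf1 : ∀ α n, ⨆ m, f α n m = ⊤ := fun α n => (iSup_disj _).trans (hf0top α n)
  have hf2 : ∀ α n m m', m ≠ m' → f α n m ⊓ f α n m' = ⊥ := fun α n m m' hm => disj_inf _ hm
  obtain ⟨B, hB1, hB2, hB3⟩ := h.hur f hf1 hf2
  set wt : K → ℕ → ℕ → 𝔹 := fun β n m => Γ ⊓ ((⨆ e, ⨆ _ : β ∈ e, B n e) ⊓ f β n m) with hwt
  have hgd : ∀ β n m, Γ ⊓ f β n m ≤ gd a C β n m (O β n m) := by
    intro β n m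
    have h1 : f β n m ≤ gd a C β n m (O β n m) ⊔ Γᶜ := disj_le _ _
    calc Γ ⊓ f β n m ≤ Γ ⊓ (gd a C β n m (O β n m) ⊔ Γᶜ) := inf_le_inf_left _ h1
      _ = Γ ⊓ gd a C β n m (O β n m) := by rw [inf_sup_left, inf_compl_eq_bot, sup_bot_eq]
      _ ≤ _ := inf_le_right
  have hwt1 : ∀ β n m, wt β n m ≤ gd a C β n m (O β n m) := fun β n m =>
    (le_inf inf_le_left (inf_le_right.trans inf_le_right)).trans (hgd β n m)
  have hwtC : ∀ β n m, wt β n m ≤ bPM (num n) (O β n m) C := fun β n m =>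
    (hwt1 β n m).trans inf_le_left
  have hQC : ∀ i n, Γ ≤ bPM (num n) (Q i n) C := fun i n => (hQ i n).trans inf_le_left
  have hwtge : ∀ β n m e, β ∈ e → Γ ⊓ (B n e ⊓ f β n m) ≤ wt β n m := fun β n m e he =>
    inf_le_inf_left _ (inf_le_inf_right _ (le_iSup₂ (f := fun e (_ : β ∈ e) => B n e) e he))
  refine le_trans ?_ (le_iSup _ (FN Γ O Q wt))
  rw [bChoice_eq]
  refine le_inf ?_ (le_inf ?_ ?_)
  · refine le_iInf fun n => le_iInf fun x => ?_
    rw [le_himp_iff]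
    exact inf_le_right.trans (sub_C hwtC hQC n x)
  · refine le_iInf fun n => ?_
    refine le_trans ?_ (le_iSup _ (GN Γ O Q wt n))
    refine le_inf ?_ ?_
    · refine le_iInf fun x => ?_
      rw [bPM_FN]
      unfold biff
      rw [himp_self, inf_top_eq]
      exact le_top
    · exact fin_G (B n) (fun β => f β n) n (fun β m => inf_le_right) (hB1 n) (hB2 n)
        (fun β => hf1 β n) (fun β => hf2 β n) Γ
  · -- the star property
    have hnum : ∀ i : ℕ, Γ ≤ evt C (FN Γ O Q wt) (num i) := by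
      intro i
      refine le_trans ?_ (le_evt C _ _ (i + 1))
      refine le_iInf fun n => le_iInf fun hn => ?_
      unfold SH.star
      refine le_trans ?_ (le_iSup _ (Q i n))
      refine le_inf (hQC i n) (le_inf ((hQ i n).trans inf_le_right) ?_)
      refine le_trans ?_ (le_iSup _ (Q i n))
      refine le_inf (Γ_le_bPM Γ O Q wt (Nat.lt_of_succ_le hn)) ?_
      refine le_trans ?_ (le_iSup _ (num i))
      exact le_inf ((hQ i n).trans inf_le_right) ((hQ i n).trans inf_le_right)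
    have hfam : ∀ α : K, Γ ≤ evt C (FN Γ O Q wt) (aN a α) := by
      intro α
      have h1 : Γ ≤ ⨆ N : ℕ, Γ ⊓ ⨅ n, ⨅ _ : N ≤ n, ⨆ e, B n e ⊓
          (if α ∈ e then ⊤ else ⨆ β ∈ e, ⨆ i, ⨆ m, ⨆ m', ⨆ _ : m ≤ i ∧ m' ≤ i,
            (a α i ⊓ a β i) ⊓ (f α n m ⊓ f β n m')) := by
        rw [← inf_iSup_eq, hB3 α, inf_top_eq]
      refine h1.trans (iSup_le fun N => ?_)
      refine le_trans ?_ (le_evt C _ _ N)
      refine le_iInf fun n => le_iInf fun hn => ?_
      refine (inf_le_inf_left _ ((iInf_le _ n).trans (iInf_le _ hn))).trans ?_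
      rw [inf_iSup_eq]
      refine iSup_le fun e => ?_
      by_cases hα : α ∈ e
      · rw [if_pos hα, inf_top_eq]
        have h2 : Γ ⊓ B n e ≤ ⨆ m, Γ ⊓ (B n e ⊓ f α n m) := by
          rw [← inf_iSup_eq, ← inf_iSup_eq, hf1 α n, inf_top_eq]
        refine h2.trans (iSup_le fun m => ?_)
        have h3 := hwtge α n m e hα
        have h4 := h3.trans (hwt1 α n m)
        unfold SH.star
        refine le_trans ?_ (le_iSup _ (O α n m))
        refine le_inf (h4.trans inf_le_left) (le_inf (h4.trans (inf_le_right.trans inf_le_left)) ?_)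
        refine le_trans ?_ (le_iSup _ (O α n m))
        refine le_inf (h3.trans (wt_le_bPM Γ O Q wt α n m)) ?_
        refine le_trans ?_ (le_iSup _ (aN a α))
        exact le_inf (h4.trans (inf_le_right.trans inf_le_left))
          (h4.trans (inf_le_right.trans inf_le_left))
      · rw [if_neg hα]
        simp only [inf_iSup_eq]
        refine iSup_le fun β => iSup_le fun hβ => iSup_le fun i => iSup_le fun m => iSup_le fun m' =>
          iSup_le fun hm => ?_
        have hL : Γ ⊓ (B n e ⊓ (a α i ⊓ a β i ⊓ (f α n m ⊓ f β n m'))) ≤ Γ ⊓ f α n m :=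
          le_inf inf_le_left (inf_le_right.trans (inf_le_right.trans (inf_le_right.trans
            inf_le_left)))
        have h4 := hL.trans (hgd α n m)
        have hR : Γ ⊓ (B n e ⊓ (a α i ⊓ a β i ⊓ (f α n m ⊓ f β n m'))) ≤
            Γ ⊓ (B n e ⊓ f β n m') :=
          le_inf inf_le_left (le_inf (inf_le_right.trans inf_le_left)
            (inf_le_right.trans (inf_le_right.trans (inf_le_right.trans inf_le_right))))
        have h5 := hR.trans (hwtge β n m' e hβ)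
        have h6 := h5.trans (hwt1 β n m')
        have hai : Γ ⊓ (B n e ⊓ (a α i ⊓ a β i ⊓ (f α n m ⊓ f β n m'))) ≤ a α i :=
          inf_le_right.trans (inf_le_right.trans (inf_le_left.trans inf_le_left))
        have hbi : Γ ⊓ (B n e ⊓ (a α i ⊓ a β i ⊓ (f α n m ⊓ f β n m'))) ≤ a β i :=
          inf_le_right.trans (inf_le_right.trans (inf_le_left.trans inf_le_right))
        have hcont : ∀ (γ : K) (k : ℕ) (V : BSet 𝔹), k ≤ i →
            cont a γ k V ⊓ a γ i ≤ bmem (num i) V := by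
          intro γ k V hk
          unfold cont
          refine (inf_le_inf_right _ (iInf_le _ i)).trans ?_
          rw [if_neg (not_lt.mpr hk)]
          exact himp_inf_le
        have h7 : Γ ⊓ (B n e ⊓ (a α i ⊓ a β i ⊓ (f α n m ⊓ f β n m'))) ≤
            bmem (num i) (O α n m) :=
          (le_inf (h4.trans (inf_le_right.trans inf_le_right)) hai).trans (hcont α m _ hm.1)
        have h8 : Γ ⊓ (B n e ⊓ (a α i ⊓ a β i ⊓ (f α n m ⊓ f β n m'))) ≤
            bmem (num i) (O β n m') :=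
          (le_inf (h6.trans (inf_le_right.trans inf_le_right)) hbi).trans (hcont β m' _ hm.2)
        unfold SH.star
        refine le_trans ?_ (le_iSup _ (O α n m))
        refine le_inf (h4.trans inf_le_left) (le_inf (h4.trans (inf_le_right.trans inf_le_left)) ?_)
        refine le_trans ?_ (le_iSup _ (O β n m'))
        refine le_inf (h5.trans (wt_le_bPM Γ O Q wt β n m')) ?_
        refine le_trans ?_ (le_iSup _ (num i))
        exact le_inf h8 h7
    refine le_iInf fun x => ?_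
    rw [le_himp_iff, inf_sup_left]
    refine sup_le ?_ ?_
    · rw [bmem_omegaN, inf_iSup_eq]
      refine iSup_le fun i => ?_
      refine le_trans ?_ (ext1_evt C (FN Γ O Q wt) (num i) x)
      rw [beq_symm]
      exact le_inf inf_le_right (inf_le_left.trans (hnum i))
    · rw [bmem_def, inf_iSup_eq]
      refine iSup_le fun α => ?_
      refine le_trans ?_ (ext1_evt C (FN Γ O Q wt) (aN a α) x)
      refine le_inf ?_ (inf_le_left.trans (hfam α))
      rw [beq_symm]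
      exact inf_le_right.trans inf_le_right

end Pool.Agent.StarHur
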